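import Mathlib

/-!
# Power sums: distance and local freedom
-/

set_option autoImplicit false
open Finset Polynomial

namespace Pool.Agent.TH712.SM

variable {F : Type} [Field F]

/-- partial power sums -/
def pre (g : F) (x : ℕ → F) (k j : ℕ) : F := ∑ i ∈ range k, x i * g ^ (i * j)

theorem pre_add (g : F) (x y : ℕ → F) (k j : ℕ) :
    pre g (fun i => x i + y i) k j = pre g x k j + pre g y k j := by
  unfold pre
  rw [← sum_add_distrib]
  exact sum_congr rfl fun i _ => by ring

theorem pre_sub (g : F) (x y : ℕ → F) (k j : ℕ) :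
    pre g (fun i => x i - y i) k j = pre g x k j - pre g y k j := by
  unfold pre
  rw [← sum_sub_distrib]
  exact sum_congr rfl fun i _ => by ring

theorem pre_sum (g : F) {ι : Type} (s : Finset ι) (c : ι → F) (e : ι → ℕ → F) (k j : ℕ) :
    pre g (fun i => ∑ m ∈ s, c m * e m i) k j = ∑ m ∈ s, c m * pre g (e m) k j := by
  unfold pre
  simp only [sum_mul, mul_sum]
  rw [sum_comm]
  refine sum_congr rfl fun m _ => sum_congr rfl fun i _ => by ring

theorem pre_congr (g : F) (x y : ℕ → F) (k j : ℕ) (h : ∀ i < k, x i = y i) :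
    pre g x k j = pre g y k j := by
  unfold pre
  exact sum_congr rfl fun i hi => by rw [h i (mem_range.mp hi)]

theorem pre_succ (g : F) (x : ℕ → F) (k j : ℕ) :
    pre g x (k + 1) j = pre g x k j + x k * g ^ (k * j) := by
  unfold pre
  rw [sum_range_succ]

/-- shifted coefficient sequence of a polynomial -/
def sh (P : F[X]) (s i : ℕ) : F := if s ≤ i then P.coeff (i - s) else 0

theorem sh_lt (P : F[X]) (s i : ℕ) (h : i < s) : sh P s i = 0 := by
  unfold sh; rw [if_neg (by omega)]

theorem sh_ge (P : F[X]) (s i m : ℕ) (hP : P.natDegree < m) (h : s + m ≤ i) : sh P s i = 0 := by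
  unfold sh
  rw [if_pos (by omega)]
  exact coeff_eq_zero_of_natDegree_lt (by omega)

theorem pre_sh_le (g : F) (P : F[X]) (s k j : ℕ) (h : k ≤ s) : pre g (sh P s) k j = 0 := by
  unfold pre
  refine sum_eq_zero fun i hi => ?_
  rw [mem_range] at hi
  rw [sh_lt P s i (by omega), zero_mul]

theorem pre_sh_ge (g : F) (P : F[X]) (s k j m : ℕ) (hP : P.natDegree < m) (h : s + m ≤ k) :
    pre g (sh P s) k j = g ^ (s * j) * P.eval (g ^ j) := by
  obtain ⟨r, rfl⟩ : ∃ r, k = s + r := ⟨k - s, by omega⟩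
  unfold pre
  rw [sum_range_add, sum_eq_zero, zero_add, eval_eq_sum_range' (n := r) (by omega), mul_sum]
  · refine sum_congr rfl fun i _ => ?_
    unfold sh
    rw [if_pos (by omega), Nat.add_sub_cancel_left, add_mul, pow_add, pow_mul g i j, ← pow_mul g j i,
      mul_comm j i, pow_mul g i j]
    ring
  · intro i hi
    rw [mem_range] at hi
    rw [sh_lt P s i (by omega), zero_mul]

/-- solvability of Vandermonde systems with prescribed support -/
theorem vand (g : F) (M D : ℕ) (hinj : ∀ i < M, ∀ j < M, g ^ i = g ^ j → i = j)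
    (K₀ : Finset ℕ) (hK : ∀ k ∈ K₀, k < M) (hcard : D ≤ K₀.card) (b : ℕ → F) :
    ∃ y : ℕ → F, ∀ j < D, ∑ k ∈ K₀, y k * g ^ (k * j) = b j := by
  classical
  obtain ⟨K₁, hK₁, hc⟩ := exists_subset_card_eq hcard
  have e : Fin D ≃ K₁ := (Fintype.equivFinOfCardEq (by simp [hc])).symm
  set V : Matrix (Fin D) (Fin D) F := Matrix.vandermonde fun i => g ^ (e i : ℕ) with hV
  have hdet : V.det ≠ 0 := by
    rw [hV, Matrix.det_vandermonde_ne_zero_iff]
    intro i i' h
    simp only at h
    have := hinj _ (hK _ (hK₁ (e i).2)) _ (hK _ (hK₁ (e i').2)) h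
    exact e.injective (Subtype.ext this)
  have hu : IsUnit V.det := isUnit_iff_ne_zero.mpr hdet
  set y' : Fin D → F := Matrix.vecMul (fun j => b j.val) V⁻¹ with hy'
  have hy : Matrix.vecMul y' V = fun j => b j.val := by
    rw [hy', Matrix.vecMul_vecMul, Matrix.nonsing_inv_mul V hu, Matrix.vecMul_one]
  refine ⟨fun k => if h : k ∈ K₁ then y' (e.symm ⟨k, h⟩) else 0, ?_⟩
  intro j hj
  have h1 := congrFun hy ⟨j, hj⟩
  simp only [Matrix.vecMul, dotProduct] at h1
  rw [← h1]
  rw [← sum_subset hK₁ (by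
    intro k _ hk
    simp only
    rw [dif_neg hk, zero_mul])]
  rw [← sum_coe_sort K₁]
  rw [← Equiv.sum_comp e]
  refine sum_congr rfl fun i _ => ?_
  have e1 : (fun k => if h : k ∈ K₁ then y' (e.symm ⟨k, h⟩) else 0) (e i : ℕ) = y' i := by
    simp only [(e i).2, dif_pos, Subtype.coe_eta, Equiv.symm_apply_apply]
  rw [e1, hV, Matrix.vandermonde_apply, pow_mul]

/-- **Distance**: a vector with vanishing power sums of orders `< D - 1` but not of order `D - 1`
has at least `D` nonzero entries. -/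
theorem dist_ge (g : F) (M D : ℕ) (hinj : ∀ i < M, ∀ j < M, g ^ i = g ^ j → i = j)
    (z : ℕ → F) (h0 : ∀ j < D - 1, pre g z M j = 0) (h1 : pre g z M (D - 1) ≠ 0) [DecidableEq F] :
    D ≤ ((range M).filter fun i => z i ≠ 0).card := by
  classical
  set s := (range M).filter fun i => z i ≠ 0 with hs
  by_contra hcon
  push Not at hcon
  have hne : s.Nonempty := by
    rw [nonempty_iff_ne_empty]
    intro he
    apply h1
    unfold pre
    refine sum_eq_zero fun i hi => ?_
    by_contra h2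
    have : i ∈ s := by
      rw [hs, mem_filter]
      exact ⟨hi, left_ne_zero_of_mul h2⟩
    rw [he] at this
    exact absurd this (notMem_empty _)
  obtain ⟨k₀, hk₀⟩ := hne
  have hk₀' := hk₀
  rw [hs, mem_filter, mem_range] at hk₀'
  have hspos : 0 < s.card := card_pos.mpr ⟨k₀, hk₀⟩
  set P : F[X] := ∏ i ∈ s.erase k₀, (X - C (g ^ i)) with hP
  have hdeg : P.natDegree < D - 1 := by
    rw [hP, natDegree_prod_of_monic _ _ fun i _ => monic_X_sub_C _]
    simp only [natDegree_X_sub_C, sum_const, smul_eq_mul, mul_one]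
    rw [card_erase_of_mem hk₀]
    omega
  have e1 : ∑ i ∈ range M, z i * P.eval (g ^ i) = 0 := by
    calc ∑ i ∈ range M, z i * P.eval (g ^ i)
        = ∑ i ∈ range M, ∑ j ∈ range (D - 1), P.coeff j * (z i * g ^ (i * j)) := by
          refine sum_congr rfl fun i _ => ?_
          rw [eval_eq_sum_range' hdeg, mul_sum]
          refine sum_congr rfl fun j _ => ?_
          rw [pow_mul]; ring
      _ = ∑ j ∈ range (D - 1), P.coeff j * pre g z M j := by
          rw [sum_comm]
          refine sum_congr rfl fun j _ => ?_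
          unfold pre
          rw [mul_sum]
      _ = 0 := by
          refine sum_eq_zero fun j hj => ?_
          rw [h0 j (mem_range.mp hj), mul_zero]
  have e2 : ∑ i ∈ range M, z i * P.eval (g ^ i) = z k₀ * P.eval (g ^ k₀) := by
    refine sum_eq_single_of_mem k₀ (mem_range.mpr hk₀'.1) ?_
    intro i hi hik
    by_cases hz : z i = 0
    · rw [hz, zero_mul]
    · have : i ∈ s.erase k₀ := by
        rw [mem_erase, hs, mem_filter]
        exact ⟨hik, hi, hz⟩
      rw [hP, eval_prod, prod_eq_zero this (by simp), mul_zero]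
  have e3 : P.eval (g ^ k₀) ≠ 0 := by
    rw [hP, eval_prod, prod_ne_zero_iff]
    intro i hi
    rw [mem_erase, hs, mem_filter, mem_range] at hi
    simp only [eval_sub, eval_X, eval_C]
    rw [sub_ne_zero]
    intro h
    exact hi.1 (hinj _ hk₀'.1 _ hi.2.1 h).symm
  rw [e2] at e1
  exact (mul_ne_zero hk₀'.2 e3) e1

/-- **Local freedom.** -/
theorem good (g : F) (hg : g ≠ 0) (M D : ℕ) (hD : 1 ≤ D) (hDM : D ≤ M)
    (hinj : ∀ i < M, ∀ j < M, g ^ i = g ^ j → i = j)
    (Q : Finset (ℕ × ℕ)) (hQ : ∀ p ∈ Q, p.2 < D) (l w : ℕ) (hl : l ≤ M)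
    (hw : w = (insert (D - 1) (Q.image Prod.snd)).card) (hwl : w ≤ l)
    (hwin : ∀ p ∈ Q, ¬ (l - w ≤ p.1 ∧ p.1 < l)) (hcount : D + w + Q.card * (w + 1) ≤ M) :
    ∃ z : ℕ → F, (∀ j < D, pre g z M j = if j = D - 1 then 1 else 0) ∧
      ∀ p ∈ Q, z p.1 = 0 ∧ pre g z p.1 p.2 = if p.2 = D - 1 ∧ l ≤ p.1 then 1 else 0 := by
  classical
  set Js : Finset ℕ := insert (D - 1) (Q.image Prod.snd) with hJs
  have hJlt : ∀ j ∈ Js, j < D := by
    intro j hj
    rw [hJs, mem_insert, mem_image] at hj
    rcases hj with rfl | ⟨p, hp, rfl⟩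
    · omega
    · exact hQ p hp
  have hw1 : 1 ≤ w := by
    rw [hw]
    exact card_pos.mpr ⟨D - 1, by rw [hJs]; exact mem_insert_self _ _⟩
  have hnode : Set.InjOn (fun j : ℕ => g ^ j) (Js : Set ℕ) := by
    intro i hi j hj h
    exact hinj i (lt_of_lt_of_le (hJlt i hi) hDM) j (lt_of_lt_of_le (hJlt j hj) hDM) h
  -- the local part
  set r : ℕ → F := fun j => if j = D - 1 then (g ^ ((l - w) * j))⁻¹ else 0 with hr
  set Ip : F[X] := Lagrange.interpolate Js (fun j => g ^ j) r with hIp
  have hIdeg : Ip.natDegree < w := by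
    have h1 := Lagrange.degree_interpolate_lt (s := Js) r hnode
    rw [← hIp, ← hw] at h1
    by_cases h0 : Ip = 0
    · rw [h0, natDegree_zero]; omega
    · rw [natDegree_lt_iff_degree_lt h0]; exact h1
  have hIev : ∀ j ∈ Js, Ip.eval (g ^ j) = r j := fun j hj =>
    Lagrange.eval_interpolate_at_node (v := fun j : ℕ => g ^ j) r hnode hj
  -- the annihilating polynomial
  set cp : F[X] := ∏ j ∈ Js, (X - C (g ^ j)) with hcp
  have hcdeg : cp.natDegree < w + 1 := by
    rw [hcp, natDegree_prod_of_monic _ _ fun i _ => monic_X_sub_C _]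
    simp only [natDegree_X_sub_C, sum_const, smul_eq_mul, mul_one]
    omega
  have hcz : ∀ j ∈ Js, cp.eval (g ^ j) = 0 := by
    intro j hj
    rw [hcp, eval_prod, prod_eq_zero hj (by simp)]
  have hcnz : ∀ j < D, j ∉ Js → cp.eval (g ^ j) ≠ 0 := by
    intro j hj hjn
    rw [hcp, eval_prod, prod_ne_zero_iff]
    intro i hi
    simp only [eval_sub, eval_X, eval_C]
    rw [sub_ne_zero]
    intro h
    have := hinj j (lt_of_lt_of_le hj hDM) i (lt_of_lt_of_le (hJlt i hi) hDM) h
    exact hjn (this ▸ hi)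
  -- the free positions
  set K₀ : Finset ℕ := (range M).filter fun k => k + w < M ∧ ∀ p ∈ Q, ¬ (k ≤ p.1 ∧ p.1 ≤ k + w)
    with hK₀
  have hKcard : D ≤ K₀.card := by
    have hsub : range (M - w) ⊆ K₀ ∪ Q.biUnion fun p => Icc (p.1 - w) p.1 := by
      intro k hk
      rw [mem_range] at hk
      rw [mem_union, hK₀, mem_filter, mem_range, mem_biUnion]
      by_cases h : ∀ p ∈ Q, ¬ (k ≤ p.1 ∧ p.1 ≤ k + w)
      · left; exact ⟨by omega, by omega, h⟩
      · right
        push Not at h
        obtain ⟨p, hp, h1, h2⟩ := h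
        exact ⟨p, hp, by rw [mem_Icc]; omega⟩
    have h1 := card_le_card hsub
    rw [card_range] at h1
    have h2 : (Q.biUnion fun p => Icc (p.1 - w) p.1).card ≤ Q.card * (w + 1) := by
      refine card_biUnion_le.trans ?_
      calc _ ≤ ∑ _p ∈ Q, (w + 1) := by
            refine sum_le_sum fun p _ => ?_
            rw [Nat.card_Icc]; omega
        _ = Q.card * (w + 1) := by rw [sum_const, smul_eq_mul]
    have h3 := (h1.trans (card_union_le _ _))
    omega
  obtain ⟨y, hy⟩ := vand g M D hinj K₀ (fun k hk => by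
    rw [hK₀, mem_filter, mem_range] at hk; exact hk.1) hKcard
    (fun j => if j ∈ Js then 0 else -(g ^ ((l - w) * j) * Ip.eval (g ^ j)) / cp.eval (g ^ j))
  -- the vector
  set zg : ℕ → F := fun i => ∑ k ∈ K₀, y k * sh cp k i with hzg
  have hpzg : ∀ k j, pre g zg k j = ∑ m ∈ K₀, y m * pre g (sh cp m) k j := fun k j =>
    pre_sum g K₀ y (fun m => sh cp m) k j
  have hfull : ∀ j, pre g zg M j = (∑ k ∈ K₀, y k * g ^ (k * j)) * cp.eval (g ^ j) := by
    intro j
    rw [hpzg, sum_mul]
    refine sum_congr rfl fun m hm => ?_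
    rw [hK₀, mem_filter] at hm
    rw [pre_sh_ge g cp m M j (w + 1) hcdeg (by omega)]
    ring
  have hpart : ∀ p ∈ Q, pre g zg p.1 p.2 = 0 := by
    intro p hp
    rw [hpzg]
    refine sum_eq_zero fun m hm => ?_
    rw [hK₀, mem_filter] at hm
    have h1 := hm.2.2 p hp
    by_cases h2 : p.1 < m
    · rw [pre_sh_le g cp m p.1 p.2 h2.le, mul_zero]
    · rw [pre_sh_ge g cp m p.1 p.2 (w + 1) hcdeg (by omega), hcz, mul_zero, mul_zero]
      rw [hJs]
      exact mem_insert_of_mem (mem_image_of_mem _ hp)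
  have hzgz : ∀ p ∈ Q, zg p.1 = 0 := by
    intro p hp
    rw [hzg]
    refine sum_eq_zero fun m hm => ?_
    rw [hK₀, mem_filter] at hm
    have h1 := hm.2.2 p hp
    by_cases h2 : p.1 < m
    · rw [sh_lt cp m p.1 h2, mul_zero]
    · rw [sh_ge cp m p.1 (w + 1) hcdeg (by omega), mul_zero]
  refine ⟨fun i => sh Ip (l - w) i + zg i, ?_, ?_⟩
  · intro j hj
    rw [pre_add, pre_sh_ge g Ip (l - w) M j w hIdeg (by omega), hfull, hy j hj]
    by_cases hjs : j ∈ Js
    · rw [hIev j hjs, hcz j hjs, mul_zero, add_zero, hr]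
      simp only
      split_ifs with h
      · exact mul_inv_cancel₀ (pow_ne_zero _ hg)
      · rw [mul_zero]
    · rw [if_neg hjs, if_neg]
      · have h2 := hcnz j hj hjs
        field_simp
        ring
      · intro h
        apply hjs
        rw [hJs, h]
        exact mem_insert_self _ _
  · intro p hp
    have hwp := hwin p hp
    have hpJ : p.2 ∈ Js := by
      rw [hJs]
      exact mem_insert_of_mem (mem_image_of_mem _ hp)
    refine ⟨?_, ?_⟩
    · simp only
      rw [hzgz p hp, add_zero]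
      by_cases h2 : p.1 < l - w
      · exact sh_lt Ip _ _ h2
      · exact sh_ge Ip (l - w) p.1 w hIdeg (by omega)
    · rw [pre_add, hpart p hp, add_zero]
      by_cases h2 : p.1 < l - w
      · rw [pre_sh_le g Ip _ _ _ h2.le, if_neg (by omega)]
      · rw [pre_sh_ge g Ip (l - w) p.1 p.2 w hIdeg (by omega), hIev _ hpJ, hr]
        simp only
        by_cases h3 : p.2 = D - 1
        · rw [if_pos h3, if_pos ⟨h3, by omega⟩]
          exact mul_inv_cancel₀ (pow_ne_zero _ hg)
        · rw [if_neg h3, if_neg (fun h => h3 h.1), mul_zero]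

end Pool.Agent.TH712.SM
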