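import Pool.Agent.TH712.SM.Rigid

/-!
# Embedding a constraint satisfaction problem into submodular functions with restricted range
-/

set_option autoImplicit false
open Finset

namespace Pool.Agent.TH712.SM

/-- submodularity of an integer valued set function -/
def Sub {I : Type} [DecidableEq I] (f : Finset I → ℤ) : Prop :=
  ∀ (S T : Finset I) (i : I), S ⊆ T → i ∉ T → f (insert i T) - f T ≤ f (insert i S) - f S

theorem Sub.sq {I : Type} [DecidableEq I] {f : Finset I → ℤ} (h : Sub f) (S : Finset I) (i j : I)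
    (hi : i ∉ S) (hij : i ≠ j) :
    f S + f (insert i (insert j S)) ≤ f (insert i S) + f (insert j S) := by
  have := h S (insert j S) i (subset_insert j S) (by simp [hi, hij])
  linarith

theorem sub_of_sq {I : Type} [DecidableEq I] {f : Finset I → ℤ}
    (h : ∀ (S : Finset I) (i j : I), i ∉ S → j ∉ S → i ≠ j →
      f S + f (insert i (insert j S)) ≤ f (insert i S) + f (insert j S)) : Sub f := by
  intro S T i hST hiT
  have hc : SqCond (fun j => {j}) f := by
    intro S' i' j' h1 h2 h3 _
    exact h S' i' j' h1 h2 h3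
  have := hc.grad i S (T \ S) (fun h' => hiT (hST h')) (fun h' => hiT (mem_sdiff.mp h').1)
    disjoint_sdiff (by
      intro k hk hk'
      rw [mem_singleton] at hk'
      subst hk'
      exact hiT (mem_sdiff.mp hk).1)
  rwa [union_sdiff_of_subset hST] at this

/-- the index type: address coordinates, two control coordinates, one dummy coordinate, special
coordinates and further dummy coordinates -/
abbrev Idx (J L E : Type) : Type := J ⊕ (Bool ⊕ (Unit ⊕ (L ⊕ E)))

section idx
variable {J L E : Type}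
/-- address coordinate -/
abbrev ad (j : J) : Idx J L E := Sum.inl j
/-- control coordinate -/
abbrev kk (b : Bool) : Idx J L E := Sum.inr (Sum.inl b)
/-- first dummy coordinate -/
abbrev d0 : Idx J L E := Sum.inr (Sum.inr (Sum.inl ()))
/-- special coordinate -/
abbrev sp (l : L) : Idx J L E := Sum.inr (Sum.inr (Sum.inr (Sum.inl l)))
/-- further dummy coordinate -/
abbrev du (e : E) : Idx J L E := Sum.inr (Sum.inr (Sum.inr (Sum.inr e)))
end idx

/-- a binary constraint satisfaction problem on the cube of subsets of `J` -/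
structure Csp (J L T : Type) [Fintype J] [Fintype L] [DecidableEq J] [DecidableEq L] where
  Q : L → Finset J → T → ℤ
  A : L → Finset J → ℤ
  idx : T → ℤ
  B : ℤ
  AM : ℤ
  IM : ℤ
  ok : Finset J → T → Prop
  hB : 0 ≤ B
  hQ : ∀ l W τ, |Q l W τ| ≤ B
  hA0 : ∀ l W, 0 ≤ A l W
  hAM : ∀ l W, A l W ≤ AM
  hidx0 : ∀ τ, 0 ≤ idx τ
  hidxM : ∀ τ, idx τ ≤ IM
  hinj : Function.Injective idx
  hstep : ∀ l W j, j ∉ W → A l (insert j W) = A l W ∨ A l W + 2 * B ≤ A l (insert j W)

namespace Csp

variable {J L T : Type} [Fintype J] [Fintype L] [DecidableEq J] [DecidableEq L]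
variable (C : Csp J L T)

/-- the constraints -/
def Links (t : Finset J → T) : Prop :=
  ∀ (l : L) (W : Finset J) (j : J), j ∉ W → C.A l (insert j W) = C.A l W →
    C.Q l (insert j W) (t (insert j W)) ≤ C.Q l W (t W)

/-- the constants -/
def L3 : ℤ := (2 * Fintype.card L + 1) * C.B + 1
def C1 : ℤ := Fintype.card L * C.B
def BM : ℤ := C.L3 * C.IM + 2 * (Fintype.card L * C.B)
def L1 : ℤ := Fintype.card L * C.AM + C.BM
def C0 : ℤ := C.L1 * (Fintype.card J) ^ 2 + 2 * (C.BM * Fintype.card J + C.B * Fintype.card L) +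
  Fintype.card L * C.AM
def GM : ℤ := C.C0 + C.BM
def K : ℤ := 2 * C.GM + 1

/-- the bracket -/
def br (W : Finset J) (Z : Finset L) (τ : T) : ℤ := C.L3 * C.idx τ + C.C1 + ∑ l ∈ Z, C.Q l W τ

/-- the pinned part -/
def bs (W : Finset J) (Z : Finset L) (a b : Bool) : ℤ :=
  C.C0 - C.L1 * (W.card : ℤ) ^ 2 -
    (C.BM * W.card + C.B * Z.card) * ((if a then 1 else 0) + (if b then 1 else 0)) -
    ∑ l ∈ Z, C.A l W

/-- the fine part of the function -/
def gf (W : Finset J) (Z : Finset L) (a b : Bool) (τ : T) : ℤ :=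
  C.bs W Z a b + (if a = false ∧ b = true then C.br W Z τ else 0)

theorem sumQ (W : Finset J) (Z : Finset L) (τ : T) :
    |∑ l ∈ Z, C.Q l W τ| ≤ Fintype.card L * C.B := by
  calc |∑ l ∈ Z, C.Q l W τ| ≤ ∑ l ∈ Z, |C.Q l W τ| := abs_sum_le_sum_abs _ _
    _ ≤ ∑ _l ∈ Z, C.B := sum_le_sum fun l _ => C.hQ l W τ
    _ = Z.card * C.B := by rw [sum_const, nsmul_eq_mul]
    _ ≤ Fintype.card L * C.B := by
        apply mul_le_mul_of_nonneg_right _ C.hB
        exact_mod_cast card_le_univ Z

theorem L3_pos : 0 < C.L3 := by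
  unfold L3
  have := C.hB
  positivity

theorem br_nonneg (W : Finset J) (Z : Finset L) (τ : T) : 0 ≤ C.br W Z τ := by
  unfold br C1
  have h1 := C.sumQ W Z τ
  have h2 := mul_nonneg C.L3_pos.le (C.hidx0 τ)
  rw [abs_le] at h1
  linarith

theorem br_le (W : Finset J) (Z : Finset L) (τ : T) : C.br W Z τ ≤ C.BM := by
  unfold br C1 BM
  have h1 := C.sumQ W Z τ
  have h2 := mul_le_mul_of_nonneg_left (C.hidxM τ) C.L3_pos.le
  rw [abs_le] at h1
  linarith

theorem BM_nonneg [Nonempty T] : 0 ≤ C.BM :=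
  (C.br_nonneg ∅ ∅ (Classical.arbitrary T)).trans (C.br_le ∅ ∅ (Classical.arbitrary T))

theorem sumA (W : Finset J) (Z : Finset L) :
    0 ≤ ∑ l ∈ Z, C.A l W ∧ ∑ l ∈ Z, C.A l W ≤ Fintype.card L * C.AM := by
  refine ⟨sum_nonneg fun l _ => C.hA0 l W, ?_⟩
  calc ∑ l ∈ Z, C.A l W ≤ ∑ l : L, C.A l W :=
        sum_le_sum_of_subset_of_nonneg (subset_univ Z) fun l _ _ => C.hA0 l W
    _ ≤ ∑ _l : L, C.AM := sum_le_sum fun l _ => C.hAM l W
    _ = Fintype.card L * C.AM := by rw [sum_const, nsmul_eq_mul, card_univ]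

theorem L1_nonneg [Nonempty T] : 0 ≤ C.L1 := by
  unfold L1
  have h1 := (C.sumA ∅ univ)
  have := C.BM_nonneg
  linarith

theorem gf_nonneg [Nonempty T] (W : Finset J) (Z : Finset L) (a b : Bool) (τ : T) :
    0 ≤ C.gf W Z a b τ := by
  unfold gf bs
  have h1 := C.sumA W Z
  have h2 := C.br_nonneg W Z τ
  have h3 : (W.card : ℤ) ≤ Fintype.card J := by exact_mod_cast card_le_univ W
  have h4 : (Z.card : ℤ) ≤ Fintype.card L := by exact_mod_cast card_le_univ Z
  have h5 : C.L1 * (W.card : ℤ) ^ 2 ≤ C.L1 * (Fintype.card J : ℤ) ^ 2 := by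
    apply mul_le_mul_of_nonneg_left _ C.L1_nonneg
    exact pow_le_pow_left₀ (Int.natCast_nonneg _) h3 2
  have h6 : C.BM * W.card ≤ C.BM * Fintype.card J := mul_le_mul_of_nonneg_left h3 C.BM_nonneg
  have h7 : C.B * Z.card ≤ C.B * Fintype.card L := mul_le_mul_of_nonneg_left h4 C.hB
  have h8 : 0 ≤ C.BM * W.card := mul_nonneg C.BM_nonneg (Int.natCast_nonneg _)
  have h9 : 0 ≤ C.B * Z.card := mul_nonneg C.hB (Int.natCast_nonneg _)
  have h10 : (C.BM * W.card + C.B * Z.card) * ((if a then 1 else 0) + (if b then 1 else 0)) ≤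
      2 * (C.BM * Fintype.card J + C.B * Fintype.card L) := by
    cases a <;> cases b <;> simp <;> linarith
  have h11 : 0 ≤ (if a = false ∧ b = true then C.br W Z τ else 0) := by
    split_ifs
    · exact h2
    · exact le_refl 0
  unfold C0
  linarith

theorem gf_le [Nonempty T] (W : Finset J) (Z : Finset L) (a b : Bool) (τ : T) :
    C.gf W Z a b τ ≤ C.GM := by
  unfold gf bs
  have h1 := C.sumA W Z
  have h2 := C.br_le W Z τ
  have h5 : 0 ≤ C.L1 * (W.card : ℤ) ^ 2 := mul_nonneg C.L1_nonneg (by positivity)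
  have h8 : 0 ≤ C.BM * W.card := mul_nonneg C.BM_nonneg (Int.natCast_nonneg _)
  have h9 : 0 ≤ C.B * Z.card := mul_nonneg C.hB (Int.natCast_nonneg _)
  have h10 : 0 ≤ (C.BM * W.card + C.B * Z.card) * ((if a then 1 else 0) + (if b then 1 else 0)) := by
    cases a <;> cases b <;> simp <;> linarith
  have h11 : (if a = false ∧ b = true then C.br W Z τ else 0) ≤ C.BM := by
    split_ifs
    · exact h2
    · exact C.BM_nonneg
  unfold GM
  linarith

/-! ### second differences -/

theorem sq_JJ [Nonempty T] (t : Finset J → T) (W : Finset J) (Z : Finset L) (a b : Bool) (i j : J)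
    (hi : i ∉ W) (hj : j ∉ W) (hij : i ≠ j) :
    C.gf W Z a b (t W) + C.gf (insert i (insert j W)) Z a b (t (insert i (insert j W))) ≤
      C.gf (insert i W) Z a b (t (insert i W)) + C.gf (insert j W) Z a b (t (insert j W)) := by
  have hij' : i ∉ insert j W := by simp [hi, hij]
  have c1 : ((insert i W).card : ℤ) = W.card + 1 := by
    rw [card_insert_of_notMem hi]; push_cast; ring
  have c2 : ((insert j W).card : ℤ) = W.card + 1 := by
    rw [card_insert_of_notMem hj]; push_cast; ring
  have c3 : ((insert i (insert j W)).card : ℤ) = W.card + 2 := by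
    rw [card_insert_of_notMem hij', card_insert_of_notMem hj]; push_cast; ring
  unfold gf bs
  rw [c1, c2, c3]
  have s0 := C.sumA W Z
  have s1 := C.sumA (insert i W) Z
  have s2 := C.sumA (insert j W) Z
  have s3 := C.sumA (insert i (insert j W)) Z
  have b0 := C.br_nonneg W Z (t W)
  have b0' := C.br_le W Z (t W)
  have b1 := C.br_nonneg (insert i W) Z (t (insert i W))
  have b2 := C.br_nonneg (insert j W) Z (t (insert j W))
  have b3 := C.br_le (insert i (insert j W)) Z (t (insert i (insert j W)))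
  have hBM := C.BM_nonneg
  have hL : 2 * C.L1 = 2 * (Fintype.card L * C.AM) + 2 * C.BM := by unfold L1; ring
  have key : ∀ x y z w : ℤ, x ≤ C.BM → w ≤ C.BM → 0 ≤ y → 0 ≤ z →
      x + w ≤ y + z + 2 * C.BM := by intro x y z w h1 h2 h3 h4; linarith
  by_cases hab : a = false ∧ b = true
  · simp only [hab, and_self, if_true]
    simp
    nlinarith [s0, s1, s2, s3, b0, b0', b1, b2, b3]
  · simp only [hab, if_false]
    nlinarith [s0, s1, s2, s3]

theorem sq_JL (t : Finset J → T) (ht : C.Links t) (W : Finset J) (Z : Finset L) (a b : Bool)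
    (j : J) (l : L) (hj : j ∉ W) (hl : l ∉ Z) :
    C.gf W Z a b (t W) + C.gf (insert j W) (insert l Z) a b (t (insert j W)) ≤
      C.gf (insert j W) Z a b (t (insert j W)) + C.gf W (insert l Z) a b (t W) := by
  have c1 : ((insert j W).card : ℤ) = W.card + 1 := by
    rw [card_insert_of_notMem hj]; push_cast; ring
  have c2 : ((insert l Z).card : ℤ) = Z.card + 1 := by
    rw [card_insert_of_notMem hl]; push_cast; ring
  have q1 := C.hQ l W (t W)
  have q2 := C.hQ l (insert j W) (t (insert j W))
  rw [abs_le] at q1 q2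
  have hB := C.hB
  unfold gf bs br
  rw [c1, c2, sum_insert hl, sum_insert hl, sum_insert hl, sum_insert hl]
  rcases C.hstep l W j hj with h | h
  · have := ht l W j hj h
    split_ifs <;> nlinarith
  · split_ifs <;> nlinarith

theorem sq_Ja [Nonempty T] (t : Finset J → T) (W : Finset J) (Z : Finset L) (b : Bool)
    (j : J) (hj : j ∉ W) :
    C.gf W Z false b (t W) + C.gf (insert j W) Z true b (t (insert j W)) ≤
      C.gf (insert j W) Z false b (t (insert j W)) + C.gf W Z true b (t W) := by
  have c1 : ((insert j W).card : ℤ) = W.card + 1 := by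
    rw [card_insert_of_notMem hj]; push_cast; ring
  have b0 := C.br_le W Z (t W)
  have b1 := C.br_nonneg (insert j W) Z (t (insert j W))
  have hBM := C.BM_nonneg
  unfold gf bs
  rw [c1]
  cases b <;> simp <;> nlinarith

theorem sq_Jb [Nonempty T] (t : Finset J → T) (W : Finset J) (Z : Finset L) (a : Bool)
    (j : J) (hj : j ∉ W) :
    C.gf W Z a false (t W) + C.gf (insert j W) Z a true (t (insert j W)) ≤
      C.gf (insert j W) Z a false (t (insert j W)) + C.gf W Z a true (t W) := by
  have c1 : ((insert j W).card : ℤ) = W.card + 1 := by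
    rw [card_insert_of_notMem hj]; push_cast; ring
  have b0 := C.br_nonneg W Z (t W)
  have b1 := C.br_le (insert j W) Z (t (insert j W))
  have hBM := C.BM_nonneg
  unfold gf bs
  rw [c1]
  cases a <;> simp <;> nlinarith

theorem sq_LL (τ : T) (W : Finset J) (Z : Finset L) (a b : Bool) (l m : L)
    (hl : l ∉ Z) (hm : m ∉ Z) (hlm : l ≠ m) :
    C.gf W Z a b τ + C.gf W (insert l (insert m Z)) a b τ ≤
      C.gf W (insert l Z) a b τ + C.gf W (insert m Z) a b τ := by
  have hlm' : l ∉ insert m Z := by simp [hl, hlm]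
  have c1 : ((insert l Z).card : ℤ) = Z.card + 1 := by
    rw [card_insert_of_notMem hl]; push_cast; ring
  have c2 : ((insert m Z).card : ℤ) = Z.card + 1 := by
    rw [card_insert_of_notMem hm]; push_cast; ring
  have c3 : ((insert l (insert m Z)).card : ℤ) = Z.card + 2 := by
    rw [card_insert_of_notMem hlm', card_insert_of_notMem hm]; push_cast; ring
  unfold gf bs br
  rw [c1, c2, c3, sum_insert hl, sum_insert hm, sum_insert hlm', sum_insert hm, sum_insert hl,
    sum_insert hm, sum_insert hlm', sum_insert hm]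
  split_ifs <;> nlinarith

theorem sq_La (τ : T) (W : Finset J) (Z : Finset L) (b : Bool) (l : L) (hl : l ∉ Z) :
    C.gf W Z false b τ + C.gf W (insert l Z) true b τ ≤
      C.gf W (insert l Z) false b τ + C.gf W Z true b τ := by
  have c1 : ((insert l Z).card : ℤ) = Z.card + 1 := by
    rw [card_insert_of_notMem hl]; push_cast; ring
  have q1 := C.hQ l W τ
  rw [abs_le] at q1
  have hB := C.hB
  unfold gf bs br
  rw [c1, sum_insert hl, sum_insert hl]
  cases b <;> simp <;> nlinarith

theorem sq_Lb (τ : T) (W : Finset J) (Z : Finset L) (a : Bool) (l : L) (hl : l ∉ Z) :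
    C.gf W Z a false τ + C.gf W (insert l Z) a true τ ≤
      C.gf W (insert l Z) a false τ + C.gf W Z a true τ := by
  have c1 : ((insert l Z).card : ℤ) = Z.card + 1 := by
    rw [card_insert_of_notMem hl]; push_cast; ring
  have q1 := C.hQ l W τ
  rw [abs_le] at q1
  have hB := C.hB
  unfold gf bs br
  rw [c1, sum_insert hl, sum_insert hl]
  cases a <;> simp <;> nlinarith

theorem sq_ab (τ : T) (W : Finset J) (Z : Finset L) :
    C.gf W Z false false τ + C.gf W Z true true τ ≤
      C.gf W Z true false τ + C.gf W Z false true τ := by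
  have b0 := C.br_nonneg W Z τ
  unfold gf bs
  simp
  nlinarith

end Csp

end Pool.Agent.TH712.SM
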