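import Pool.Agent.TH712.SM.Embed

/-!
# The embedded functions are submodular when the constraints hold
-/

set_option autoImplicit false
set_option linter.unusedSectionVars false
set_option linter.unusedSimpArgs false
open Finset

namespace Pool.Agent.TH712.SM

section proj
variable {J L E : Type} [Fintype J] [Fintype L] [DecidableEq J] [DecidableEq L] [DecidableEq E]

def Wf (S : Finset (Idx J L E)) : Finset J := univ.filter fun j => (ad j : Idx J L E) ∈ S
def Zf (S : Finset (Idx J L E)) : Finset L := univ.filter fun l => (sp l : Idx J L E) ∈ S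
def fa (S : Finset (Idx J L E)) : Bool := decide ((kk false : Idx J L E) ∈ S)
def fb (S : Finset (Idx J L E)) : Bool := decide ((kk true : Idx J L E) ∈ S)

@[simp] theorem mem_Wf (S : Finset (Idx J L E)) (j : J) : j ∈ Wf S ↔ (ad j : Idx J L E) ∈ S := by
  simp [Wf]
@[simp] theorem mem_Zf (S : Finset (Idx J L E)) (l : L) : l ∈ Zf S ↔ (sp l : Idx J L E) ∈ S := by
  simp [Zf]

@[simp] theorem Wf_ad (S : Finset (Idx J L E)) (j : J) :
    Wf (insert (ad j : Idx J L E) S) = insert j (Wf S) := by
  ext i; simp
@[simp] theorem Wf_inr (S : Finset (Idx J L E)) (x : Bool ⊕ (Unit ⊕ (L ⊕ E))) :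
    Wf (insert (Sum.inr x : Idx J L E) S) = Wf S := by
  ext i; simp
@[simp] theorem Zf_sp (S : Finset (Idx J L E)) (l : L) :
    Zf (insert (sp l : Idx J L E) S) = insert l (Zf S) := by
  ext i; simp
@[simp] theorem Zf_ad (S : Finset (Idx J L E)) (j : J) :
    Zf (insert (ad j : Idx J L E) S) = Zf S := by
  ext i; simp
@[simp] theorem Zf_kk (S : Finset (Idx J L E)) (b : Bool) :
    Zf (insert (kk b : Idx J L E) S) = Zf S := by
  ext i; simp
@[simp] theorem Zf_d0 (S : Finset (Idx J L E)) (u : Unit) :
    Zf (insert (Sum.inr (Sum.inr (Sum.inl u)) : Idx J L E) S) = Zf S := by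
  ext i; simp
@[simp] theorem Zf_du (S : Finset (Idx J L E)) (e : E) :
    Zf (insert (du e : Idx J L E) S) = Zf S := by
  ext i; simp
@[simp] theorem fa_ad (S : Finset (Idx J L E)) (j : J) :
    fa (insert (ad j : Idx J L E) S) = fa S := by simp [fa]
@[simp] theorem fa_kf (S : Finset (Idx J L E)) :
    fa (insert (kk false : Idx J L E) S) = true := by simp [fa]
@[simp] theorem fa_kt (S : Finset (Idx J L E)) :
    fa (insert (kk true : Idx J L E) S) = fa S := by simp [fa]
@[simp] theorem fa_r (S : Finset (Idx J L E)) (x : Unit ⊕ (L ⊕ E)) :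
    fa (insert (Sum.inr (Sum.inr x) : Idx J L E) S) = fa S := by simp [fa]
@[simp] theorem fb_ad (S : Finset (Idx J L E)) (j : J) :
    fb (insert (ad j : Idx J L E) S) = fb S := by simp [fb]
@[simp] theorem fb_kf (S : Finset (Idx J L E)) :
    fb (insert (kk false : Idx J L E) S) = fb S := by simp [fb]
@[simp] theorem fb_kt (S : Finset (Idx J L E)) :
    fb (insert (kk true : Idx J L E) S) = true := by simp [fb]
@[simp] theorem fb_r (S : Finset (Idx J L E)) (x : Unit ⊕ (L ⊕ E)) :
    fb (insert (Sum.inr (Sum.inr x) : Idx J L E) S) = fb S := by simp [fb]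

theorem fa_of_notMem {S : Finset (Idx J L E)} (h : (kk false : Idx J L E) ∉ S) : fa S = false := by
  simpa [fa] using h
theorem fb_of_notMem {S : Finset (Idx J L E)} (h : (kk true : Idx J L E) ∉ S) : fb S = false := by
  simpa [fb] using h

end proj

/-- properties of the coarse part -/
structure PsiOk {J L E : Type} [Fintype J] [Fintype L] [Fintype E] [DecidableEq J] [DecidableEq L]
    [DecidableEq E] (N : Idx J L E → Finset (Idx J L E)) (Ps : Finset (Idx J L E) → ℤ) : Prop where
  nonneg : ∀ S, 0 ≤ Ps S
  sq : ∀ (S : Finset (Idx J L E)) (i j : Idx J L E), i ∉ S → j ∉ S → i ≠ j →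
    Ps S + Ps (insert i (insert j S)) ≤ Ps (insert i S) + Ps (insert j S)
  sqeq : ∀ (S : Finset (Idx J L E)) (i j : Idx J L E), i ∉ S → j ∉ S → i ≠ j → i ∉ N j →
    Ps S + Ps (insert i (insert j S)) = Ps (insert i S) + Ps (insert j S)
  empty : Ps ∅ = 0
  inj : ∀ S T, Ps S = Ps T → T ≠ ∅ → T ≠ univ → S = T
  rig : ∀ S₀ : Finset (Idx J L E) → Finset (Idx J L E), SqCond N (fun S => Ps (S₀ S)) →
    64 * (univ.filter fun S => Ps (S₀ S) ≠ Ps S).card < 2 ^ Fintype.card (Idx J L E) →
    ∀ S, Ps (S₀ S) = Ps S
  hJL : ∀ (j : J) (l : L), ad j ∉ N (sp l)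
  hLk : ∀ (l : L) (b : Bool), sp l ∉ N (kk b)

namespace Csp

variable {J L T E : Type} [Fintype J] [Fintype L] [Fintype E] [DecidableEq J] [DecidableEq L]
  [DecidableEq E]
variable (C : Csp J L T)

/-- the fine part as a function on the cube -/
def gS (S : Finset (Idx J L E)) (τ : T) : ℤ := C.gf (Wf S) (Zf S) (fa S) (fb S) τ

/-- the embedded function -/
def F (Ps : Finset (Idx J L E) → ℤ) (t : Finset J → T) (S : Finset (Idx J L E)) : ℤ :=
  C.K * Ps S + C.gS S (t (Wf S))

theorem gS_sq [Nonempty T] (t : Finset J → T) (ht : C.Links t) (S : Finset (Idx J L E))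
    (i j : Idx J L E) (hi : i ∉ S) (hj : j ∉ S) (hij : i ≠ j) :
    C.gS S (t (Wf S)) + C.gS (insert i (insert j S)) (t (Wf (insert i (insert j S)))) ≤
      C.gS (insert i S) (t (Wf (insert i S))) + C.gS (insert j S) (t (Wf (insert j S))) := by
  unfold gS
  rcases i with i | (a | (⟨⟩ | (l | e)))
  · rcases j with j | (b | (⟨⟩ | (m | f)))
    · have := C.sq_JJ t (Wf S) (Zf S) (fa S) (fb S) i j (by simpa using hi) (by simpa using hj)
        (fun h => hij (by rw [h]))
      simpa using this
    · cases b
      · have := C.sq_Ja t (Wf S) (Zf S) (fb S) i (by simpa using hi)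
        have h0 := fa_of_notMem hj
        simpa [h0] using this
      · have := C.sq_Jb t (Wf S) (Zf S) (fa S) i (by simpa using hi)
        have h0 := fb_of_notMem hj
        simpa [h0] using this
    · simp [add_comm]
    · have := C.sq_JL t ht (Wf S) (Zf S) (fa S) (fb S) i m (by simpa using hi) (by simpa using hj)
      simpa using this
    · simp [add_comm]
  · rcases j with j | (b | (⟨⟩ | (m | f)))
    · cases a
      · have := C.sq_Ja t (Wf S) (Zf S) (fb S) j (by simpa using hj)
        have h0 := fa_of_notMem hi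
        rw [add_comm (C.gf (Wf (insert (Sum.inr (Sum.inl false)) S)) _ _ _ _)]
        simpa [h0] using this
      · have := C.sq_Jb t (Wf S) (Zf S) (fa S) j (by simpa using hj)
        have h0 := fb_of_notMem hi
        rw [add_comm (C.gf (Wf (insert (Sum.inr (Sum.inl true)) S)) _ _ _ _)]
        simpa [h0] using this
    · cases a <;> cases b
      · exact absurd rfl hij
      · have := C.sq_ab (t (Wf S)) (Wf S) (Zf S)
        have h0 := fa_of_notMem hi
        have h1 := fb_of_notMem hj
        simpa [h0, h1] using this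
      · have := C.sq_ab (t (Wf S)) (Wf S) (Zf S)
        have h0 := fa_of_notMem hj
        have h1 := fb_of_notMem hi
        rw [add_comm (C.gf (Wf (insert (Sum.inr (Sum.inl true)) S)) _ _ _ _)]
        simpa [h0, h1] using this
      · exact absurd rfl hij
    · cases a <;> simp [add_comm]
    · cases a
      · have := C.sq_La (t (Wf S)) (Wf S) (Zf S) (fb S) m (by simpa using hj)
        have h0 := fa_of_notMem hi
        rw [add_comm (C.gf (Wf (insert (Sum.inr (Sum.inl false)) S)) _ _ _ _)]
        simpa [h0] using this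
      · have := C.sq_Lb (t (Wf S)) (Wf S) (Zf S) (fa S) m (by simpa using hj)
        have h0 := fb_of_notMem hi
        rw [add_comm (C.gf (Wf (insert (Sum.inr (Sum.inl true)) S)) _ _ _ _)]
        simpa [h0] using this
    · cases a <;> simp [add_comm]
  · rcases j with j | (b | (⟨⟩ | (m | f)))
    · simp
    · cases b <;> simp
    · exact absurd rfl hij
    · simp
    · simp
  · rcases j with j | (b | (⟨⟩ | (m | f)))
    · have := C.sq_JL t ht (Wf S) (Zf S) (fa S) (fb S) j l (by simpa using hj) (by simpa using hi)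
      rw [add_comm (C.gf (Wf (insert (Sum.inr (Sum.inr (Sum.inr (Sum.inl l)))) S)) _ _ _ _)]
      simpa using this
    · cases b
      · have := C.sq_La (t (Wf S)) (Wf S) (Zf S) (fb S) l (by simpa using hi)
        have h0 := fa_of_notMem hj
        simpa [h0] using this
      · have := C.sq_Lb (t (Wf S)) (Wf S) (Zf S) (fa S) l (by simpa using hi)
        have h0 := fb_of_notMem hj
        simpa [h0] using this
    · simp [add_comm]
    · have := C.sq_LL (t (Wf S)) (Wf S) (Zf S) (fa S) (fb S) l m (by simpa using hi)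
        (by simpa using hj) (fun h => hij (by rw [h]))
      simpa using this
    · simp [add_comm]
  · rcases j with j | (b | (⟨⟩ | (m | f)))
    · simp
    · cases b <;> simp
    · simp
    · simp
    · simp

theorem K_nonneg [Nonempty T] : 0 ≤ C.K := by
  have h := C.gf_nonneg ∅ ∅ true true (Classical.arbitrary T)
  have h2 := C.gf_le ∅ ∅ true true (Classical.arbitrary T)
  unfold K
  linarith

/-- **Completeness of the embedding** -/
theorem F_sub [Nonempty T] {N : Idx J L E → Finset (Idx J L E)} {Ps : Finset (Idx J L E) → ℤ}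
    (hP : PsiOk N Ps) (t : Finset J → T) (ht : C.Links t) : Sub (C.F Ps t) := by
  apply sub_of_sq
  intro S i j hi hj hij
  have h1 := hP.sq S i j hi hj hij
  have h2 := C.gS_sq t ht S i j hi hj hij
  have h3 := mul_le_mul_of_nonneg_left h1 C.K_nonneg
  unfold F
  linarith

end Csp

end Pool.Agent.TH712.SM
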