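import Pool.Agent.TH712.SM.Embed2

/-!
# Soundness of the embedding
-/

set_option autoImplicit false
set_option linter.unusedSectionVars false
set_option linter.unusedSimpArgs false
open Finset

namespace Pool.Agent.TH712.SM

section pt
variable {J L E : Type} [Fintype J] [Fintype L] [Fintype E] [DecidableEq J] [DecidableEq L]
  [DecidableEq E]

/-- membership of the point with given data -/
def inPt (W : Finset J) (Z : Finset L) (a b : Bool) : Idx J L E → Prop
  | Sum.inl j => j ∈ W
  | Sum.inr (Sum.inl x) => (if x then b else a) = true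
  | Sum.inr (Sum.inr (Sum.inl _)) => True
  | Sum.inr (Sum.inr (Sum.inr (Sum.inl l))) => l ∈ Z
  | Sum.inr (Sum.inr (Sum.inr (Sum.inr _))) => False

open scoped Classical in
/-- the point with given data in the chosen slice -/
noncomputable def pt (W : Finset J) (Z : Finset L) (a b : Bool) : Finset (Idx J L E) :=
  univ.filter fun i => inPt W Z a b i

theorem mem_pt (W : Finset J) (Z : Finset L) (a b : Bool) (i : Idx J L E) :
    i ∈ pt W Z a b ↔ inPt W Z a b i := by
  simp [pt]

@[simp] theorem Wf_pt (W : Finset J) (Z : Finset L) (a b : Bool) :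
    Wf (pt W Z a b : Finset (Idx J L E)) = W := by
  ext j; simp [mem_pt, inPt]
@[simp] theorem Zf_pt (W : Finset J) (Z : Finset L) (a b : Bool) :
    Zf (pt W Z a b : Finset (Idx J L E)) = Z := by
  ext j; simp [mem_pt, inPt]
@[simp] theorem fa_pt (W : Finset J) (Z : Finset L) (a b : Bool) :
    fa (pt W Z a b : Finset (Idx J L E)) = a := by
  simp [fa, mem_pt, inPt]
@[simp] theorem fb_pt (W : Finset J) (Z : Finset L) (a b : Bool) :
    fb (pt W Z a b : Finset (Idx J L E)) = b := by
  simp [fb, mem_pt, inPt]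

theorem pt_ad (W : Finset J) (Z : Finset L) (a b : Bool) (j : J) :
    (pt (insert j W) Z a b : Finset (Idx J L E)) = insert (ad j) (pt W Z a b) := by
  ext i
  rw [mem_insert, mem_pt, mem_pt]
  rcases i with i | (x | (⟨⟩ | (l | e))) <;> simp [inPt]
theorem pt_sp (W : Finset J) (Z : Finset L) (a b : Bool) (l : L) :
    (pt W (insert l Z) a b : Finset (Idx J L E)) = insert (sp l) (pt W Z a b) := by
  ext i
  rw [mem_insert, mem_pt, mem_pt]
  rcases i with i | (x | (⟨⟩ | (l | e))) <;> simp [inPt]
theorem pt_ka (W : Finset J) (Z : Finset L) (a b : Bool) :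
    (pt W Z true b : Finset (Idx J L E)) = insert (kk false) (pt W Z a b) := by
  ext i
  rw [mem_insert, mem_pt, mem_pt]
  rcases i with i | (x | (⟨⟩ | (l | e))) <;> simp [inPt]
  cases x <;> simp
theorem pt_kb (W : Finset J) (Z : Finset L) (a b : Bool) :
    (pt W Z a true : Finset (Idx J L E)) = insert (kk true) (pt W Z a b) := by
  ext i
  rw [mem_insert, mem_pt, mem_pt]
  rcases i with i | (x | (⟨⟩ | (l | e))) <;> simp [inPt]
  cases x <;> simp

theorem pt_ne_empty (W : Finset J) (Z : Finset L) (a b : Bool) :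
    (pt W Z a b : Finset (Idx J L E)) ≠ ∅ := by
  intro h
  have : (d0 : Idx J L E) ∈ (pt W Z a b : Finset (Idx J L E)) := by
    rw [mem_pt]; trivial
  rw [h] at this
  exact absurd this (notMem_empty _)

theorem pt_ne_univ [Nonempty E] (W : Finset J) (Z : Finset L) (a b : Bool) :
    (pt W Z a b : Finset (Idx J L E)) ≠ univ := by
  intro h
  have : (du (Classical.arbitrary E) : Idx J L E) ∈ (pt W Z a b : Finset (Idx J L E)) := by
    rw [h]; exact mem_univ _
  rw [mem_pt] at this
  exact this

end pt

namespace Csp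

variable {J L T E : Type} [Fintype J] [Fintype L] [Fintype E] [DecidableEq J] [DecidableEq L]
  [DecidableEq E]
variable (C : Csp J L T)

theorem bs_step_Z (W : Finset J) (Z : Finset L) (l : L) (hl : l ∉ Z) (a b : Bool) :
    C.bs W (insert l Z) a b = C.bs W Z a b -
      C.B * ((if a then 1 else 0) + (if b then 1 else 0)) - C.A l W := by
  unfold bs
  rw [card_insert_of_notMem hl, sum_insert hl]
  push_cast
  ring

theorem idx_eq_of_br (W : Finset J) (Z Z' : Finset L) (τ τ' : T)
    (h : |C.br W Z τ - C.br W Z' τ'| ≤ C.B) : τ = τ' := by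
  have h1 := C.sumQ W Z τ
  have h2 := C.sumQ W Z' τ'
  have hB := C.hB
  have hL := C.L3_pos
  unfold br at h
  rw [abs_le] at h h1 h2
  have h3 : |C.L3 * (C.idx τ - C.idx τ')| < C.L3 := by
    rw [abs_lt]
    unfold L3 at h ⊢
    constructor <;> nlinarith
  rw [abs_mul, abs_of_pos hL] at h3
  have h4 : |C.idx τ - C.idx τ'| < 1 := by
    by_contra hcon
    push Not at hcon
    nlinarith
  apply C.hinj
  rw [Int.abs_lt_one_iff] at h4
  linarith

/-- **Soundness of the embedding** -/
theorem sound [DecidableEq T] [Nonempty T] [Nonempty E] {N : Idx J L E → Finset (Idx J L E)}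
    {Ps : Finset (Idx J L E) → ℤ} (hP : PsiOk N Ps) (t : Finset J → T)
    (f' : Finset (Idx J L E) → ℤ) (hf' : Sub f')
    (hR : ∀ S, f' S = 0 ∨ ∃ (S₀ : Finset (Idx J L E)) (τ : T), C.ok (Wf S₀) τ ∧
      f' S = C.K * Ps S₀ + C.gS S₀ τ)
    (hclose : 64 * (univ.filter fun S => f' S ≠ C.F Ps t S).card <
      2 ^ Fintype.card (Idx J L E)) :
    ∃ t' : Finset J → T, (∀ W, C.ok W (t' W)) ∧ C.Links t' ∧
      (univ.filter fun W => t' W ≠ t W).card * 2 ^ Fintype.card L ≤
        (univ.filter fun S => f' S ≠ C.F Ps t S).card := by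
  classical
  have hGM : 0 ≤ C.GM := (C.gf_nonneg ∅ ∅ true true (Classical.arbitrary T)).trans
    (C.gf_le ∅ ∅ true true (Classical.arbitrary T))
  have hR' : ∀ S, ∃ (S₀ : Finset (Idx J L E)) (φ : ℤ), 0 ≤ φ ∧ φ ≤ C.GM ∧
      f' S = C.K * Ps S₀ + φ ∧ (S₀ ≠ ∅ → ∃ τ : T, C.ok (Wf S₀) τ ∧ φ = C.gS S₀ τ) := by
    intro S
    rcases hR S with h0 | ⟨S₀, τ, h1, h2⟩
    · exact ⟨∅, 0, le_rfl, hGM, by rw [hP.empty, h0]; ring, fun h => absurd rfl h⟩
    · exact ⟨S₀, C.gS S₀ τ, C.gf_nonneg _ _ _ _ _, C.gf_le _ _ _ _ _, h2, fun _ => ⟨τ, h1, rfl⟩⟩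
  choose S₀ φ₀ hg0 hg1 heq hτ using hR'
  have hK : C.K = 2 * C.GM + 1 := rfl
  -- coarse part
  have hd : SqCond N (fun S => Ps (S₀ S)) := by
    intro S i j hi hj hij hN
    have h1 := hf'.sq S i j hi hij
    rw [heq, heq, heq, heq] at h1
    have a1 := hg0 S
    have a2 := hg0 (insert i (insert j S))
    have a3 := hg1 (insert i S)
    have a4 := hg1 (insert j S)
    simp only
    have h3 : -1 < Ps (S₀ (insert i S)) + Ps (S₀ (insert j S)) - Ps (S₀ S) -
        Ps (S₀ (insert i (insert j S))) := by
      by_contra hcon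
      push Not at hcon
      nlinarith
    linarith
  have hsupp : (univ.filter fun S => Ps (S₀ S) ≠ Ps S) ⊆
      (univ.filter fun S => f' S ≠ C.F Ps t S) := by
    intro S hS
    rw [mem_filter] at hS ⊢
    refine ⟨mem_univ _, fun h => hS.2 ?_⟩
    rw [heq] at h
    unfold F at h
    have a1 := hg0 S
    have a2 := hg1 S
    have a3 : 0 ≤ C.gS S (t (Wf S)) := C.gf_nonneg _ _ _ _ _
    have a4 : C.gS S (t (Wf S)) ≤ C.GM := C.gf_le _ _ _ _ _
    have h3 : |C.K * (Ps (S₀ S) - Ps S)| < C.K := by
      rw [abs_lt]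
      constructor <;> linarith
    have hKpos : 0 < C.K := by linarith
    rw [abs_mul, abs_of_pos hKpos] at h3
    have h4 : |Ps (S₀ S) - Ps S| < 1 := by
      by_contra hcon
      push Not at hcon
      nlinarith
    rw [Int.abs_lt_one_iff] at h4
    linarith
  have hrig := hP.rig S₀ hd
    (lt_of_le_of_lt (Nat.mul_le_mul_left _ (card_le_card hsupp)) hclose)
  have hS₀ : ∀ S, S ≠ ∅ → S ≠ univ → S₀ S = S := fun S h0 h1 => hP.inj _ _ (hrig S) h0 h1
  have hτ' : ∀ S, ∃ τ : T, S ≠ ∅ → S ≠ univ →
      C.ok (Wf S) τ ∧ f' S = C.K * Ps S + C.gS S τ := by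
    intro S
    by_cases h0 : S = ∅
    · exact ⟨Classical.arbitrary T, fun h => absurd h0 h⟩
    by_cases h1 : S = univ
    · exact ⟨Classical.arbitrary T, fun _ h => absurd h1 h⟩
    have h2 := hS₀ S h0 h1
    obtain ⟨τ, h3, h4⟩ := hτ S (by rw [h2]; exact h0)
    have h5 := heq S
    rw [h2] at h3 h4 h5
    exact ⟨τ, fun _ _ => ⟨h3, by rw [h5, h4]⟩⟩
  choose τ₀ hτ₀ using hτ'
  -- values on the slice
  have hval : ∀ (W : Finset J) (Z : Finset L) (a b : Bool),
      f' (pt W Z a b) = C.K * Ps (pt W Z a b) + C.gf W Z a b (τ₀ (pt W Z a b)) := by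
    intro W Z a b
    have h1 := (hτ₀ (pt W Z a b) (pt_ne_empty W Z a b) (pt_ne_univ W Z a b)).2
    rw [h1]
    unfold gS
    rw [Wf_pt, Zf_pt, fa_pt, fb_pt]
  have hokpt : ∀ (W : Finset J) (Z : Finset L) (a b : Bool), C.ok W (τ₀ (pt W Z a b)) := by
    intro W Z a b
    have h1 := (hτ₀ (pt W Z a b) (pt_ne_empty W Z a b) (pt_ne_univ W Z a b)).1
    rw [Wf_pt] at h1
    exact h1
  have hvb : ∀ (W : Finset J) (Z : Finset L),
      f' (pt W Z false true) = C.K * Ps (pt W Z false true) + C.bs W Z false true +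
        C.br W Z (τ₀ (pt W Z false true)) := by
    intro W Z
    rw [hval]
    unfold gf
    simp
    ring
  have hvp : ∀ (W : Finset J) (Z : Finset L) (a b : Bool), ¬ (a = false ∧ b = true) →
      f' (pt W Z a b) = C.K * Ps (pt W Z a b) + C.bs W Z a b := by
    intro W Z a b hab
    rw [hval]
    unfold gf
    rw [if_neg hab, add_zero]
  -- coherence
  have hcoh : ∀ (W : Finset J) (Z : Finset L) (l : L), l ∉ Z →
      τ₀ (pt W (insert l Z) false true) = τ₀ (pt W Z false true) := by
    intro W Z l hl
    have hspn : ∀ a b : Bool, (sp l : Idx J L E) ∉ pt W Z a b := by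
      intro a b h
      rw [mem_pt] at h
      exact hl h
    have hka : ∀ (Z : Finset L) (b : Bool), (kk false : Idx J L E) ∉ pt W Z false b := by
      intro Z b h
      rw [mem_pt] at h
      simp [inPt] at h
    have hkb : ∀ (Z : Finset L) (a : Bool), (kk true : Idx J L E) ∉ pt W Z a false := by
      intro Z a h
      rw [mem_pt] at h
      simp [inPt] at h
    apply C.idx_eq_of_br W (insert l Z) Z
    rw [abs_le]
    constructor
    · -- direction `kk false`
      have h1 := hf'.sq (pt W Z false true) (sp l) (kk false) (hspn _ _) (by simp)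
      have h2 := hP.sqeq (pt W Z false true) (sp l) (kk false) (hspn _ _) (hka _ _) (by simp)
        (hP.hLk l false)
      rw [← pt_ka, ← pt_sp, ← pt_sp] at h1 h2
      rw [hvb, hvb, hvp _ _ true true (by simp), hvp _ _ true true (by simp)] at h1
      rw [C.bs_step_Z W Z l hl, C.bs_step_Z W Z l hl] at h1
      simp at h1
      have h3 : C.K * (Ps (pt W Z false true) + Ps (pt W (insert l Z) true true)) =
        C.K * (Ps (pt W (insert l Z) false true) + Ps (pt W Z true true)) := by rw [h2]
      linarith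
    · -- direction `kk true`
      have h1 := hf'.sq (pt W Z false false) (sp l) (kk true) (hspn _ _) (by simp)
      have h2 := hP.sqeq (pt W Z false false) (sp l) (kk true) (hspn _ _) (hkb _ _) (by simp)
        (hP.hLk l true)
      rw [← pt_kb, ← pt_sp, ← pt_sp] at h1 h2
      rw [hvb, hvb, hvp _ _ false false (by simp), hvp _ _ false false (by simp)] at h1
      rw [C.bs_step_Z W Z l hl, C.bs_step_Z W Z l hl] at h1
      simp at h1
      have h3 : C.K * (Ps (pt W Z false false) + Ps (pt W (insert l Z) false true)) =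
        C.K * (Ps (pt W (insert l Z) false false) + Ps (pt W Z false true)) := by rw [h2]
      linarith
  have hcoh' : ∀ (W : Finset J) (Z : Finset L),
      τ₀ (pt W Z false true) = τ₀ (pt W ∅ false true) := by
    intro W Z
    induction Z using Finset.induction_on with
    | empty => rfl
    | insert l Z hl ih => rw [hcoh W Z l hl, ih]
  refine ⟨fun W => τ₀ (pt W ∅ false true), fun W => hokpt W ∅ false true, ?_, ?_⟩
  · -- links
    intro l W j hj hA
    simp only
    have hjn : ∀ Z : Finset L, (ad j : Idx J L E) ∉ pt W Z false true := by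
      intro Z h
      rw [mem_pt] at h
      exact hj h
    have hln : ∀ W : Finset J, (sp l : Idx J L E) ∉ pt W ∅ false true := by
      intro W h
      rw [mem_pt] at h
      exact absurd h (notMem_empty l)
    have h1 := hf'.sq (pt W ∅ false true) (ad j) (sp l) (hjn _) (by simp)
    have h2 := hP.sqeq (pt W ∅ false true) (ad j) (sp l) (hjn _) (hln _) (by simp)
      (hP.hJL j l)
    rw [← pt_sp, ← pt_ad, ← pt_ad] at h1 h2
    rw [hvb, hvb, hvb, hvb, hcoh' W (insert l ∅), hcoh' (insert j W) (insert l ∅)] at h1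
    rw [C.bs_step_Z W ∅ l (notMem_empty l), C.bs_step_Z (insert j W) ∅ l (notMem_empty l), hA] at h1
    unfold br at h1
    rw [sum_insert (notMem_empty l), sum_insert (notMem_empty l), sum_empty, sum_empty] at h1
    have h3 : C.K * (Ps (pt W ∅ false true) + Ps (pt (insert j W) (insert l ∅) false true)) =
      C.K * (Ps (pt (insert j W) ∅ false true) + Ps (pt W (insert l ∅) false true)) := by rw [h2]
    linarith
  · -- counting
    have hinj : Set.InjOn (fun p : Finset J × Finset L => (pt p.1 p.2 false true : Finset (Idx J L E)))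
        ((univ.filter fun W => τ₀ (pt W ∅ false true) ≠ t W) ×ˢ (univ : Finset (Finset L))) := by
      intro p _ q _ hpq
      simp only at hpq
      have e1 := congrArg Wf hpq
      have e2 := congrArg Zf hpq
      rw [Wf_pt, Wf_pt] at e1
      rw [Zf_pt, Zf_pt] at e2
      exact Prod.ext e1 e2
    calc (univ.filter fun W => τ₀ (pt W ∅ false true) ≠ t W).card * 2 ^ Fintype.card L
        = ((univ.filter fun W => τ₀ (pt W ∅ false true) ≠ t W) ×ˢ
            (univ : Finset (Finset L))).card := by
          rw [card_product, card_univ, Fintype.card_finset]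
      _ = (((univ.filter fun W => τ₀ (pt W ∅ false true) ≠ t W) ×ˢ
            (univ : Finset (Finset L))).image fun p : Finset J × Finset L =>
              (pt p.1 p.2 false true : Finset (Idx J L E))).card := (card_image_of_injOn (by rw [coe_product]; exact hinj)).symm
      _ ≤ _ := by
          apply card_le_card
          intro S hS
          rw [mem_image] at hS
          obtain ⟨⟨W, Z⟩, hWZ, rfl⟩ := hS
          rw [mem_product, mem_filter] at hWZ
          rw [mem_filter]
          refine ⟨mem_univ _, ?_⟩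
          intro h
          refine hWZ.1.2 ?_
          simp only at h ⊢
          rw [← hcoh' W Z]
          rw [hvb] at h
          unfold F gS gf at h
          rw [Wf_pt, Zf_pt, fa_pt, fb_pt] at h
          simp only [and_self, if_true] at h
          apply C.idx_eq_of_br W Z Z
          have : C.br W Z (τ₀ (pt W Z false true)) = C.br W Z (t W) := by linarith
          rw [this, sub_self, abs_zero]
          exact C.hB

end Csp

end Pool.Agent.TH712.SM
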