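import Pool.Agent.TH712.SM.Main

/-!
# Size of the range, the trivial tester, and the final bounds
-/

set_option autoImplicit false
set_option linter.unusedSectionVars false
set_option linter.unusedSimpArgs false
open Finset MeasureTheory

noncomputable section

namespace Pool.Agent.TH712.SM

/-- a finite field with an element of large order -/
theorem exists_field (b : ℕ) : ∃ (F : Type) (_ : Field F) (_ : Fintype F) (g : F),
    Fintype.card F = 2 ^ (b + 2) ∧ g ≠ 0 ∧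
      ∀ i < 2 ^ (b + 1), ∀ j < 2 ^ (b + 1), g ^ i = g ^ j → i = j := by
  have : Fact (Nat.Prime 2) := ⟨Nat.prime_two⟩
  let _ : Fintype (GaloisField 2 (b + 2)) := Fintype.ofFinite _
  have hcard : Fintype.card (GaloisField 2 (b + 2)) = 2 ^ (b + 2) := by
    rw [← Nat.card_eq_fintype_card]
    exact GaloisField.card 2 (b + 2) (by omega)
  obtain ⟨u, hu⟩ := IsCyclic.exists_generator (α := (GaloisField 2 (b + 2))ˣ)
  have ho : orderOf u = 2 ^ (b + 2) - 1 := by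
    rw [orderOf_eq_card_of_forall_mem_zpowers hu, Nat.card_units, Nat.card_eq_fintype_card, hcard]
  refine ⟨GaloisField 2 (b + 2), inferInstance, inferInstance, (u : GaloisField 2 (b + 2)), hcard,
    u.ne_zero, ?_⟩
  intro i hi j hj h
  have h1 : u ^ i = u ^ j := by
    apply Units.ext
    rw [Units.val_pow_eq_pow_val, Units.val_pow_eq_pow_val]
    exact h
  have h2 : 2 ^ (b + 1) ≤ orderOf u := by
    rw [ho]
    have : 2 ^ (b + 2) = 2 * 2 ^ (b + 1) := by ring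
    have h3 : 1 ≤ 2 ^ (b + 1) := Nat.one_le_two_pow
    omega
  exact pow_injOn_Iio_orderOf (lt_of_lt_of_le hi h2) (lt_of_lt_of_le hj h2) h1

/-- the size of the range -/
theorem Rg_le {F : Type} [Field F] [Fintype F] (g : F) (b m : ℕ)
    (hF : Fintype.card F = 2 ^ (b + 2)) (hm : 1 ≤ m) :
    ∀ r ∈ Rg g b m, r ≤ 2 ^ (7 * (2 * b + 10 + m)) := by
  rintro r (rfl | ⟨S, τ, _, rfl⟩)
  · positivity
  have hg := (CC g b).gf_le (Wf S) (Zf S) (fa S) (fb S) τ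
  have hp : Ps S ≤ 3 ^ (2 * (2 * b + 9 + m)) := by
    unfold Ps
    exact_mod_cast (psb_lt _ _).le
  obtain ⟨f, hf⟩ : ∃ f : ℤ, f = 2 ^ (b + 2) := ⟨_, rfl⟩
  have hFf : (Fintype.card F : ℤ) = f := by rw [hF, hf]; push_cast; ring
  have hf4 : 4 ≤ f := by
    rw [hf]
    calc (4 : ℤ) = 2 ^ 2 := by norm_num
      _ ≤ 2 ^ (b + 2) := pow_le_pow_right₀ (by norm_num) (by omega)
  have hbf : (b : ℤ) + 2 ≤ f := by
    rw [hf]
    exact_mod_cast (Nat.lt_two_pow_self (n := b + 2)).le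
  have hb0 : (0 : ℤ) ≤ b := Int.natCast_nonneg b
  have hLL : (Fintype.card LL : ℤ) = 6 := by simp [LL]
  have hJJ : (Fintype.card (JJ b) : ℤ) = 2 * b + 1 := by simp [JJ]; ring
  -- the constants
  have hB : (CC g b).B = f := hFf
  have hIM : (CC g b).IM = f * f := by
    change (Fintype.card F : ℤ) * Fintype.card F = f * f
    rw [hFf]
  have hAM : (CC g b).AM ≤ 2 * f ^ 3 := by
    change 2 * (Fintype.card F : ℤ) * (((b : ℤ) + 1) * (b + 1) + (b + 1) + b) ≤ 2 * f ^ 3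
    rw [hFf]
    have : ((b : ℤ) + 1) * (b + 1) + (b + 1) + b ≤ f * f := by nlinarith
    calc 2 * f * (((b : ℤ) + 1) * (b + 1) + (b + 1) + b) ≤ 2 * f * (f * f) :=
          mul_le_mul_of_nonneg_left this (by linarith)
      _ = 2 * f ^ 3 := by ring
  have hAM0 : 0 ≤ (CC g b).AM := ((CC g b).hA0 (0, true) ∅).trans ((CC g b).hAM _ _)
  have hf3 : 0 ≤ f ^ 3 := by positivity
  have hff : f ≤ f ^ 3 := by nlinarith [sq_nonneg f]
  have hL3 : (CC g b).L3 ≤ 14 * f := by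
    unfold Csp.L3
    rw [hB, hLL]
    linarith
  have hBM : (CC g b).BM ≤ 26 * f ^ 3 := by
    unfold Csp.BM
    rw [hB, hIM, hLL]
    have := mul_le_mul_of_nonneg_right hL3 (show (0 : ℤ) ≤ f * f by positivity)
    nlinarith
  have hBM0 := (CC g b).BM_nonneg
  have hL1 : (CC g b).L1 ≤ 38 * f ^ 3 := by
    unfold Csp.L1
    rw [hLL]
    linarith
  have hL10 := (CC g b).L1_nonneg
  have hJ2 : (Fintype.card (JJ b) : ℤ) ≤ 2 * f := by rw [hJJ]; linarith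
  have hJ0 : (0 : ℤ) ≤ Fintype.card (JJ b) := Int.natCast_nonneg _
  have hC0 : (CC g b).C0 ≤ 280 * f ^ 5 := by
    unfold Csp.C0
    rw [hB, hLL]
    have h1 : (CC g b).L1 * (Fintype.card (JJ b) : ℤ) ^ 2 ≤ 38 * f ^ 3 * (2 * f) ^ 2 := by
      apply mul_le_mul hL1 (pow_le_pow_left₀ hJ0 hJ2 2) (by positivity) (by positivity)
    have h2 : (CC g b).BM * (Fintype.card (JJ b) : ℤ) ≤ 26 * f ^ 3 * (2 * f) :=
      mul_le_mul hBM hJ2 hJ0 (by positivity)
    have h3 : f ^ 4 ≤ f ^ 5 := pow_le_pow_right₀ (by linarith) (by norm_num)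
    have h4 : f ^ 3 ≤ f ^ 5 := pow_le_pow_right₀ (by linarith) (by norm_num)
    nlinarith
  have hf5 : 0 ≤ f ^ 5 := by positivity
  have hf35 : f ^ 3 ≤ f ^ 5 := pow_le_pow_right₀ (by linarith) (by norm_num)
  have hGM : (CC g b).GM ≤ 306 * f ^ 5 := by
    unfold Csp.GM
    linarith
  have hf51 : 1 ≤ f ^ 5 := one_le_pow₀ (by linarith)
  have hK : (CC g b).K ≤ 613 * f ^ 5 := by
    unfold Csp.K
    linarith
  have hK0 := (CC g b).K_nonneg
  have h3 : (1 : ℤ) ≤ 3 ^ (2 * (2 * b + 9 + m)) := one_le_pow₀ (by norm_num)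
  have hP0 : 0 ≤ Ps S := (psiOk b m).nonneg S
  have htot : (CC g b).K * Ps S + (CC g b).gS S τ ≤ 919 * f ^ 5 * 3 ^ (2 * (2 * b + 9 + m)) := by
    have h4 : (CC g b).K * Ps S ≤ 613 * f ^ 5 * 3 ^ (2 * (2 * b + 9 + m)) :=
      mul_le_mul hK hp hP0 (by positivity)
    have h5 : (CC g b).gS S τ ≤ 306 * f ^ 5 * 3 ^ (2 * (2 * b + 9 + m)) := by
      calc (CC g b).gS S τ ≤ 306 * f ^ 5 := hg.trans hGM
        _ = 306 * f ^ 5 * 1 := by ring
        _ ≤ _ := mul_le_mul_of_nonneg_left h3 (by positivity)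
    linarith
  refine htot.trans ?_
  -- compare with the power of two
  have e1 : (919 : ℤ) ≤ 2 ^ 10 := by norm_num
  have e2 : f ^ 5 = 2 ^ (5 * b + 10) := by rw [hf, ← pow_mul]; congr 1; ring
  have e3 : (3 : ℤ) ^ (2 * (2 * b + 9 + m)) ≤ 2 ^ (4 * (2 * b + 9 + m)) := by
    rw [pow_mul, pow_mul]
    exact pow_le_pow_left₀ (by norm_num) (by norm_num) _
  calc 919 * f ^ 5 * 3 ^ (2 * (2 * b + 9 + m))
      ≤ 2 ^ 10 * 2 ^ (5 * b + 10) * 2 ^ (4 * (2 * b + 9 + m)) := by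
        rw [e2]
        apply mul_le_mul (mul_le_mul_of_nonneg_right e1 (by positivity)) e3 (by positivity)
          (by positivity)
    _ = 2 ^ (10 + (5 * b + 10) + 4 * (2 * b + 9 + m)) := by rw [← pow_add, ← pow_add]
    _ ≤ 2 ^ (7 * (2 * b + 10 + m)) := pow_le_pow_right₀ (by norm_num) (by omega)

/-- a tester for a smaller parameter is a tester for a larger one -/
theorem IsTester.mono {n : ℕ} {R : Set ℝ} {ε ε' : ℝ} {q : ℕ} (h : IsTester n R ε q)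
    (hε : ε ≤ ε') : IsTester n R ε' q := by
  obtain ⟨Ω, mΩ, μ, A, hμ, h1, h2, h3, h4⟩ := h
  refine ⟨Ω, mΩ, μ, A, hμ, h1, h2, h3, ?_⟩
  intro f hf hfar
  apply h4 f hf
  intro g hg hs
  refine le_trans ?_ (hfar g hg hs)
  exact mul_le_mul_of_nonneg_right hε (by positivity)

/-- **Exponential lower bound for finite ranges.** -/
theorem exp_lower (n : ℕ) (hn : 12 ≤ n) : ∃ R : Set ℝ, (0 : ℝ) ∈ R ∧
    (∀ r ∈ R, ∃ k : ℕ, k ≤ 2 ^ (7 * n) ∧ r = k) ∧
    ∀ (ε : ℝ) (q : ℕ), ε ≤ 1 / 64 → IsTester n R ε q → 2 ^ n ≤ (12 * (q + 1)) ^ 4 := by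
  classical
  obtain ⟨b, m, hm1, hm2, hnb⟩ : ∃ b m : ℕ, 1 ≤ m ∧ m ≤ 2 ∧ n = 2 * b + 10 + m :=
    ⟨(n - 11) / 2, n - 10 - 2 * ((n - 11) / 2), by omega, by omega, by omega⟩
  obtain ⟨F, _, _, g, hF, hg, hinj⟩ := exists_field b
  refine ⟨RR g b m, ⟨0, Or.inl rfl, by simp⟩, ?_, ?_⟩
  · rintro r ⟨z, hz, rfl⟩
    have h1 := Rg_nonneg g b m z hz
    have h2 := Rg_le g b m hF hm1 z hz
    refine ⟨z.toNat, ?_, ?_⟩
    · rw [← hnb] at h2
      have : z.toNat ≤ 2 ^ (7 * n) := by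
        have h3 : (z.toNat : ℤ) ≤ 2 ^ (7 * n) := by rw [Int.toNat_of_nonneg h1]; exact h2
        exact_mod_cast h3
      exact this
    · simp only
      have h3 : ((z.toNat : ℤ) : ℝ) = (z : ℝ) := by rw [Int.toNat_of_nonneg h1]
      rw [← h3]
      push_cast
      rfl
  · intro ε q hε ht
    have h1 := lower g hg b m hm1 hm2 hnb hinj q (ht.mono hε)
    have h2 : 2 ^ n ≤ 2 ^ (2 * b + 12) := Nat.pow_le_pow_right (by norm_num) (by omega)
    have h3 : 2 ^ (2 * b + 12) = 4096 * (2 ^ b) ^ 2 := by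
      rw [pow_add, pow_mul, ← pow_mul, mul_comm 2 b, pow_mul]
      ring
    have h4 : (2 ^ b) ^ 2 ≤ (2 * (q + 1) ^ 2) ^ 2 := Nat.pow_le_pow_left h1 2
    calc 2 ^ n ≤ 4096 * (2 ^ b) ^ 2 := by rw [← h3]; exact h2
      _ ≤ 4096 * (2 * (q + 1) ^ 2) ^ 2 := Nat.mul_le_mul_left _ h4
      _ = 16384 * (q + 1) ^ 4 := by ring
      _ ≤ 20736 * (q + 1) ^ 4 := Nat.mul_le_mul_right _ (by norm_num)
      _ = (12 * (q + 1)) ^ 4 := by ring

end Pool.Agent.TH712.SM
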