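import Mathlib

/-!
# The reflected Gray code
-/

set_option autoImplicit false
open Finset

namespace Pool.Agent.TH712.SM

/-- bit `i` of the Gray code of `k` -/
def inG (k i : ℕ) : Prop := (k / 2 ^ i + k / 2 ^ (i + 1)) % 2 = 1

instance (k i : ℕ) : Decidable (inG k i) := by unfold inG; infer_instance

theorem inG_zero (i : ℕ) : ¬ inG 0 i := by simp [inG]

theorem inG_double_zero (m r : ℕ) (hr : r < 2) : inG (2 * m + r) 0 ↔ (r + m) % 2 = 1 := by
  unfold inG
  have h1 : (2 * m + r) / 2 ^ (0 + 1) = m := by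
    norm_num
    omega
  rw [h1]
  norm_num
  omega

theorem inG_double_succ (m r i : ℕ) (hr : r < 2) : inG (2 * m + r) (i + 1) ↔ inG m i := by
  unfold inG
  have h1 : ∀ s, (2 * m + r) / 2 ^ (s + 1) = m / 2 ^ s := by
    intro s
    rw [pow_succ', ← Nat.div_div_eq_div_mul]
    congr 1
    omega
  rw [h1, h1]

theorem inG_even (m i : ℕ) : inG (2 * m + 1) i ↔ (if i = 0 then ¬ inG (2 * m) i else inG (2 * m) i) := by
  rcases i with _ | i
  · rw [if_pos rfl, inG_double_zero m 1 (by norm_num)]
    have := inG_double_zero m 0 (by norm_num)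
    rw [add_zero] at this
    rw [this]
    omega
  · rw [if_neg (Nat.succ_ne_zero i), inG_double_succ m 1 i (by norm_num)]
    have := inG_double_succ m 0 i (by norm_num)
    rw [add_zero] at this
    rw [this]

theorem inG_odd (m : ℕ) : ∃ i₀, inG (2 * m + 1) i₀ ∧ (∀ i < i₀, ¬ inG (2 * m + 1) i) ∧
    ∀ i, (inG (2 * m + 2) i ↔ (if i = i₀ + 1 then ¬ inG (2 * m + 1) i else inG (2 * m + 1) i)) := by
  induction m using Nat.strong_induction_on with
  | _ m ih =>
    rcases Nat.even_or_odd' m with ⟨c, hc | hc⟩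
    · -- `m` even
      refine ⟨0, ?_, fun i hi => absurd hi (Nat.not_lt_zero i), ?_⟩
      · rw [inG_double_zero m 1 (by norm_num)]; omega
      · intro i
        rcases i with _ | i
        · rw [if_neg (by norm_num), inG_double_zero m 1 (by norm_num)]
          have := inG_double_zero (m + 1) 0 (by norm_num)
          rw [show 2 * (m + 1) + 0 = 2 * m + 2 by ring] at this
          rw [this]
          omega
        · have e1 := inG_double_succ (m + 1) 0 i (by norm_num)
          rw [show 2 * (m + 1) + 0 = 2 * m + 2 by ring] at e1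
          rw [e1, inG_double_succ m 1 i (by norm_num)]
          have e2 := inG_even c i
          rw [← hc] at e2
          rw [e2]
          simp
    · -- `m` odd
      obtain ⟨i₀, h1, h2, h3⟩ := ih c (by omega)
      rw [← hc] at h1 h2 h3
      rw [show 2 * c + 2 = m + 1 by omega] at h3
      refine ⟨i₀ + 1, ?_, ?_, ?_⟩
      · rw [inG_double_succ m 1 i₀ (by norm_num)]; exact h1
      · intro i hi
        rcases i with _ | i
        · rw [inG_double_zero m 1 (by norm_num)]; omega
        · rw [inG_double_succ m 1 i (by norm_num)]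
          exact h2 i (by omega)
      · intro i
        rcases i with _ | i
        · rw [if_neg (by omega), inG_double_zero m 1 (by norm_num)]
          have := inG_double_zero (m + 1) 0 (by norm_num)
          rw [show 2 * (m + 1) + 0 = 2 * m + 2 by ring] at this
          rw [this]
          omega
        · have e1 := inG_double_succ (m + 1) 0 i (by norm_num)
          rw [show 2 * (m + 1) + 0 = 2 * m + 2 by ring] at e1
          rw [e1, inG_double_succ m 1 i (by norm_num), h3 i]
          simp

theorem inG_inj (a k k' : ℕ) (hk : k < 2 ^ a) (hk' : k' < 2 ^ a)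
    (h : ∀ i < a, (inG k i ↔ inG k' i)) : k = k' := by
  have key : ∀ s ≤ a, k / 2 ^ (a - s) = k' / 2 ^ (a - s) := by
    intro s
    induction s with
    | zero => intro _; rw [Nat.sub_zero, Nat.div_eq_of_lt hk, Nat.div_eq_of_lt hk']
    | succ s ih =>
      intro hs
      have h1 := ih (by omega)
      have h2 := h (a - (s + 1)) (by omega)
      unfold inG at h2
      rw [show a - (s + 1) + 1 = a - s by omega, h1] at h2
      have e : ∀ x : ℕ, x / 2 ^ (a - s) = x / 2 ^ (a - (s + 1)) / 2 := by
        intro x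
        rw [Nat.div_div_eq_div_mul, ← pow_succ]
        congr 2
        omega
      rw [e, e] at h1
      rw [e] at h2
      omega
  have := key a le_rfl
  simpa using this

/-- the Gray code as a set -/
def gr (a k : ℕ) : Finset (Fin a) := univ.filter fun i => inG k i.val

theorem mem_gr (a k : ℕ) (i : Fin a) : i ∈ gr a k ↔ inG k i.val := by simp [gr]

theorem gr_injOn (a : ℕ) : Function.Injective (fun k : Fin (2 ^ a) => gr a k.val) := by
  intro k k' h
  apply Fin.ext
  apply inG_inj a k.val k'.val k.isLt k'.isLt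
  intro i hi
  have := congrArg (fun s : Finset (Fin a) => (⟨i, hi⟩ : Fin a) ∈ s) h
  simp only [mem_gr, eq_iff_iff] at this
  exact this

theorem gr_bij (a : ℕ) : Function.Bijective (fun k : Fin (2 ^ a) => gr a k.val) := by
  rw [Fintype.bijective_iff_injective_and_card]
  exact ⟨gr_injOn a, by simp⟩

/-- the position of a set in the Gray code -/
noncomputable def rk (a : ℕ) (u : Finset (Fin a)) : ℕ :=
  ((Equiv.ofBijective _ (gr_bij a)).symm u).val

theorem rk_lt (a : ℕ) (u : Finset (Fin a)) : rk a u < 2 ^ a := Fin.isLt _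

theorem gr_rk (a : ℕ) (u : Finset (Fin a)) : gr a (rk a u) = u :=
  (Equiv.ofBijective _ (gr_bij a)).apply_symm_apply u

theorem rk_gr (a k : ℕ) (hk : k < 2 ^ a) : rk a (gr a k) = k := by
  have h := gr_injOn a (a₁ := ⟨rk a (gr a k), rk_lt a _⟩) (a₂ := ⟨k, hk⟩) (by
    simp only
    rw [gr_rk])
  exact congrArg Fin.val h

theorem gr_zero (a : ℕ) : gr a 0 = ∅ := by
  ext i; simp [mem_gr, inG_zero]

/-- `j` is the successor of the least element of `u` -/
def MS {a : ℕ} (u : Finset (Fin a)) (j : Fin a) : Prop :=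
  ∃ m ∈ u, m.val + 1 = j.val ∧ ∀ m' ∈ u, m ≤ m'

open scoped Classical in
/-- toggle an element -/
noncomputable def tog {a : ℕ} (u : Finset (Fin a)) (j : Fin a) : Finset (Fin a) :=
  if j ∈ u then u.erase j else insert j u

theorem mem_tog {a : ℕ} (u : Finset (Fin a)) (i j : Fin a) :
    i ∈ tog u j ↔ (if i = j then ¬ i ∈ u else i ∈ u) := by
  unfold tog
  by_cases h : j ∈ u
  · rw [if_pos h, mem_erase]
    split_ifs with h1
    · subst h1; simp [h]
    · simp [h1]
  · rw [if_neg h, mem_insert]
    split_ifs with h1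
    · subst h1; simp [h]
    · simp [h1]

theorem gr_even (b m : ℕ) : gr (b + 1) (2 * m + 1) = tog (gr (b + 1) (2 * m)) 0 := by
  ext i
  rw [mem_tog, mem_gr, mem_gr, inG_even]
  by_cases h : i = 0
  · simp [h]
  · rw [if_neg h, if_neg (fun h' : i.val = 0 => h (Fin.ext h'))]

theorem gr_odd (a m : ℕ) (h : 2 * m + 2 < 2 ^ a) : ∃ j : Fin a, MS (gr a (2 * m + 1)) j ∧
    gr a (2 * m + 2) = tog (gr a (2 * m + 1)) j := by
  obtain ⟨i₀, h1, h2, h3⟩ := inG_odd m
  have hlt : i₀ + 1 < a := by
    by_contra hcon
    have : 2 * m + 2 = 2 * m + 1 := by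
      apply inG_inj a _ _ h (by omega)
      intro i hi
      rw [h3 i, if_neg (by omega)]
    omega
  refine ⟨⟨i₀ + 1, hlt⟩, ⟨⟨i₀, by omega⟩, ?_, rfl, ?_⟩, ?_⟩
  · rw [mem_gr]; exact h1
  · intro m' hm'
    rw [mem_gr] at hm'
    rw [Fin.le_def]
    by_contra hcon
    exact h2 m'.val (by simpa using hcon) hm'
  · ext i
    rw [mem_tog, mem_gr, mem_gr, h3 i.val]
    by_cases h4 : i.val = i₀ + 1
    · rw [if_pos h4, if_pos (Fin.ext h4)]
    · rw [if_neg h4, if_neg (fun h' => h4 (by rw [h']))]

theorem card_tog {a : ℕ} (u : Finset (Fin a)) (j : Fin a) :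
    ((tog u j).card + u.card) % 2 = 1 := by
  unfold tog
  split_ifs with h
  · have := card_erase_add_one h
    omega
  · have := card_insert_of_notMem h
    omega

theorem gr_card (b k : ℕ) (hk : k < 2 ^ (b + 1)) : ((gr (b + 1) k).card + k) % 2 = 0 := by
  induction k with
  | zero => rw [gr_zero]; rfl
  | succ k ih =>
    have h1 := ih (by omega)
    rcases Nat.even_or_odd' k with ⟨c, hc | hc⟩
    · have h2 := gr_even b c
      rw [← hc] at h2
      have h3 := card_tog (gr (b + 1) k) 0
      rw [h2]
      omega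
    · obtain ⟨j, _, h2⟩ := gr_odd (b + 1) c (by omega)
      rw [show 2 * c + 2 = k + 1 by omega, ← hc] at h2
      have h3 := card_tog (gr (b + 1) k) j
      rw [h2]
      omega

theorem rk_parity (b : ℕ) (u : Finset (Fin (b + 1))) : (u.card + rk (b + 1) u) % 2 = 0 := by
  have := gr_card b (rk (b + 1) u) (rk_lt _ _)
  rwa [gr_rk] at this

theorem MS_unique {a : ℕ} {u : Finset (Fin a)} {i j : Fin a} (hi : MS u i) (hj : MS u j) : i = j := by
  obtain ⟨m, hm, h1, h2⟩ := hi
  obtain ⟨m', hm', h1', h2'⟩ := hj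
  have : m = m' := le_antisymm (h2 m' hm') (h2' m hm)
  subst this
  exact Fin.ext (h1.symm.trans h1')

theorem rk_tog_even (b : ℕ) (u : Finset (Fin (b + 1))) (hu : u.card % 2 = 0) :
    rk (b + 1) (tog u 0) = rk (b + 1) u + 1 := by
  have h1 := rk_parity b u
  obtain ⟨m, hm⟩ : ∃ m, rk (b + 1) u = 2 * m := ⟨rk (b + 1) u / 2, by omega⟩
  have h2 := gr_even b m
  rw [← hm, gr_rk] at h2
  rw [← h2]
  apply rk_gr
  have := rk_lt (b + 1) u
  have h3 : 2 ^ (b + 1) = 2 * 2 ^ b := by ring
  omega

theorem rk_tog_odd (b : ℕ) (u : Finset (Fin (b + 1))) (hu : u.card % 2 = 1) (j : Fin (b + 1))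
    (hj : MS u j) : rk (b + 1) (tog u j) = rk (b + 1) u + 1 := by
  have h1 := rk_parity b u
  obtain ⟨m, hm⟩ : ∃ m, rk (b + 1) u = 2 * m + 1 := ⟨rk (b + 1) u / 2, by omega⟩
  have hlt := rk_lt (b + 1) u
  -- the next set in the code
  by_cases h2 : 2 * m + 2 < 2 ^ (b + 1)
  · obtain ⟨j', hj', h3⟩ := gr_odd (b + 1) m h2
    rw [← hm, gr_rk] at hj' h3
    have : j' = j := MS_unique hj' hj
    subst this
    rw [← h3, hm]
    exact rk_gr _ _ h2
  · -- impossible: the toggled set would have no position
    exfalso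
    have hlast : rk (b + 1) u = 2 ^ (b + 1) - 1 := by omega
    -- `tog u j` has even card, nonempty, so it is `gr (2 c)` with `c > 0`; its predecessor is `u`
    set v := tog u j with hv
    have hvc := card_tog u j
    rw [← hv] at hvc
    have hvp := rk_parity b v
    have hvlt := rk_lt (b + 1) v
    have hv0 : rk (b + 1) v ≠ 0 := by
      intro h0
      have : v = ∅ := by rw [← gr_rk (b + 1) v, h0, gr_zero]
      obtain ⟨mm, hmm, h4, h5⟩ := hj
      have : mm ∈ v := by
        rw [hv, mem_tog, if_neg]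
        · exact hmm
        · intro h6
          rw [h6] at h4
          omega
      rw [‹v = ∅›] at this
      exact absurd this (notMem_empty _)
    obtain ⟨c, hc⟩ : ∃ c, rk (b + 1) v = 2 * c + 2 := ⟨rk (b + 1) v / 2 - 1, by omega⟩
    obtain ⟨j', hj', h3⟩ := gr_odd (b + 1) c (by omega)
    rw [← hc, gr_rk] at h3
    set w := gr (b + 1) (2 * c + 1) with hw
    -- `v = tog w j'`, `MS w j'`; so `MS v j'` and likewise `MS v j`
    have key : ∀ (x : Finset (Fin (b + 1))) (i : Fin (b + 1)), MS x i → MS (tog x i) i := by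
      intro x i hx
      obtain ⟨mm, hmm, h4, h5⟩ := hx
      refine ⟨mm, ?_, h4, ?_⟩
      · rw [mem_tog, if_neg]
        · exact hmm
        · intro h6
          rw [h6] at h4
          omega
      · intro m' hm'
        rw [mem_tog] at hm'
        split_ifs at hm' with h6
        · rw [Fin.le_def, h6]; omega
        · exact h5 m' hm'
    have k1 : MS v j := key u j hj
    have k2 : MS v j' := by rw [h3]; exact key w j' hj'
    have hjj : j = j' := MS_unique k1 k2
    have huw : u = w := by
      have tt : ∀ x : Finset (Fin (b + 1)), tog (tog x j) j = x := by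
        intro x
        ext i
        rw [mem_tog, mem_tog]
        by_cases h6 : i = j
        · simp [h6]
        · simp [h6]
      rw [← tt u, ← tt w, ← hv, h3, ← hjj]
    have : rk (b + 1) u = 2 * c + 1 := by
      rw [huw, hw]
      exact rk_gr _ _ (by omega)
    omega

end Pool.Agent.TH712.SM
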