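import Pool.Agent.TH712.SM.Gray

/-!
# Potentials for the links of the Gray code
-/

set_option autoImplicit false
open Finset

namespace Pool.Agent.TH712.SM

open scoped Classical in
/-- potential for the links in directions other than `0` -/
noncomputable def pot {a : ℕ} (u : Finset (Fin a)) : ℤ :=
  ∑ i ∈ u, if MS u i then 0 else ((a : ℤ) - i.val)

theorem pot_nonneg {a : ℕ} (u : Finset (Fin a)) : 0 ≤ pot u := by
  classical
  unfold pot
  refine sum_nonneg fun i _ => ?_
  have := i.isLt
  split_ifs
  · exact le_refl 0
  · omega

theorem pot_le {a : ℕ} (u : Finset (Fin a)) : pot u ≤ a * a := by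
  classical
  unfold pot
  calc _ ≤ ∑ _i ∈ u, (a : ℤ) := by
        refine sum_le_sum fun i _ => ?_
        have := i.isLt
        split_ifs <;> omega
    _ = u.card * a := by rw [sum_const, nsmul_eq_mul]
    _ ≤ a * a := by
        apply mul_le_mul_of_nonneg_right _ (by positivity)
        have := card_le_univ u
        simp at this
        exact_mod_cast this

theorem pot_link {a : ℕ} (u : Finset (Fin a)) (j : Fin a) (hj : j ∉ u) (h : MS u j) :
    pot (insert j u) = pot u := by
  classical
  obtain ⟨m, hm, h1, h2⟩ := h
  have hms : ∀ i, MS (insert j u) i ↔ MS u i := by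
    intro i
    constructor
    · rintro ⟨m', hm', h3, h4⟩
      have hmm : m' = m := by
        rw [mem_insert] at hm'
        have h5 := h4 m (mem_insert_of_mem hm)
        rcases hm' with rfl | hm'
        · rw [Fin.le_def] at h5; omega
        · exact le_antisymm h5 (h2 m' hm')
      subst hmm
      exact ⟨m', hm, h3, h2⟩
    · rintro ⟨m', hm', h3, h4⟩
      refine ⟨m', mem_insert_of_mem hm', h3, ?_⟩
      intro x hx
      rw [mem_insert] at hx
      rcases hx with rfl | hx
      · have := h4 m hm
        rw [Fin.le_def] at this ⊢
        omega
      · exact h4 x hx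
  unfold pot
  rw [sum_insert hj]
  simp only [hms]
  rw [if_pos ⟨m, hm, h1, h2⟩, zero_add]

theorem pot_nolink {a : ℕ} (u : Finset (Fin a)) (j : Fin a) (hj : j ∉ u) (h : ¬ MS u j) :
    pot u + 1 ≤ pot (insert j u) := by
  classical
  have hjlt := j.isLt
  by_cases hc : ∃ m ∈ u, (∀ m' ∈ u, m ≤ m') ∧ m < j
  · -- the least element does not change
    obtain ⟨m, hm, h2, hmj⟩ := hc
    have hms : ∀ i, MS (insert j u) i ↔ MS u i := by
      intro i
      constructor
      · rintro ⟨m', hm', h3, h4⟩
        have hmm : m' = m := by
          rw [mem_insert] at hm'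
          have h5 := h4 m (mem_insert_of_mem hm)
          rcases hm' with rfl | hm'
          · exact absurd hmj (not_lt.mpr h5)
          · exact le_antisymm h5 (h2 m' hm')
        subst hmm
        exact ⟨m', hm, h3, h2⟩
      · rintro ⟨m', hm', h3, h4⟩
        refine ⟨m', mem_insert_of_mem hm', h3, ?_⟩
        intro x hx
        rw [mem_insert] at hx
        rcases hx with rfl | hx
        · exact (h4 m hm).trans hmj.le
        · exact h4 x hx
    unfold pot
    rw [sum_insert hj]
    simp only [hms]
    rw [if_neg h]
    omega
  · -- `j` is the new least element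
    push Not at hc
    have hmin : ∀ m ∈ u, j < m := by
      intro m hm
      -- take the least element of `u`
      have hne : u.Nonempty := ⟨m, hm⟩
      have h1 := hc (u.min' hne) (u.min'_mem hne) (fun m' hm' => u.min'_le m' hm')
      have h3 : j ≠ u.min' hne := fun h' => hj (h' ▸ u.min'_mem hne)
      have h4 : j < u.min' hne := lt_of_le_of_ne h1 h3
      exact lt_of_lt_of_le h4 (u.min'_le m hm)
    have hms : ∀ i, MS (insert j u) i ↔ j.val + 1 = i.val := by
      intro i
      constructor
      · rintro ⟨m', hm', h3, h4⟩
        rw [mem_insert] at hm'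
        rcases hm' with rfl | hm'
        · exact h3
        · have := h4 j (mem_insert_self j u)
          exact absurd (hmin m' hm') (not_lt.mpr this)
      · intro h3
        refine ⟨j, mem_insert_self j u, h3, ?_⟩
        intro x hx
        rw [mem_insert] at hx
        rcases hx with rfl | hx
        · exact le_refl _
        · exact (hmin x hx).le
    unfold pot
    rw [sum_insert hj]
    simp only [hms]
    rw [if_neg (by omega)]
    have hle : ∑ i ∈ u, (if MS u i then 0 else ((a : ℤ) - i.val)) ≤
        ∑ i ∈ u, (if j.val + 1 = i.val then 0 else ((a : ℤ) - i.val)) +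
          ((a : ℤ) - j.val - 1) := by
      calc ∑ i ∈ u, (if MS u i then 0 else ((a : ℤ) - i.val))
          ≤ ∑ i ∈ u, ((if j.val + 1 = i.val then 0 else ((a : ℤ) - i.val)) +
              (if j.val + 1 = i.val then ((a : ℤ) - j.val - 1) else 0)) := by
            refine sum_le_sum fun i _ => ?_
            have := i.isLt
            split_ifs <;> omega
        _ = _ + ∑ i ∈ u, (if j.val + 1 = i.val then ((a : ℤ) - j.val - 1) else 0) := by
            rw [sum_add_distrib]
        _ ≤ _ := by
            gcongr
            by_cases hlt : j.val + 1 < a
            · calc ∑ i ∈ u, (if j.val + 1 = i.val then ((a : ℤ) - j.val - 1) else 0)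
                  ≤ ∑ i : Fin a, (if j.val + 1 = i.val then ((a : ℤ) - j.val - 1) else 0) := by
                    apply sum_le_sum_of_subset_of_nonneg (subset_univ u)
                    intro i _ _
                    split_ifs <;> omega
                _ = ∑ i : Fin a, (if (⟨j.val + 1, hlt⟩ : Fin a) = i then ((a : ℤ) - j.val - 1) else 0) := by
                    refine sum_congr rfl fun i _ => ?_
                    congr 1
                    rw [Fin.ext_iff]
                _ ≤ _ := by rw [sum_ite_eq]; simp
            · rw [sum_eq_zero]
              · omega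
              · intro i _
                have := i.isLt
                rw [if_neg (by omega)]
    omega

end Pool.Agent.TH712.SM
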