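import Pool.Agent.TH712.SM.Embed3
import Pool.Agent.TH712.SM.Pot
import Pool.Agent.TH712.SM.Code

/-!
# The hard constraint satisfaction problem
-/

set_option autoImplicit false
set_option linter.unusedSectionVars false
set_option linter.unusedSimpArgs false
open Finset

namespace Pool.Agent.TH712.SM

/-- address coordinates -/
abbrev JJ (b : ℕ) : Type := Fin (b + 1) ⊕ Fin b

/-- special coordinates -/
abbrev LL : Type := Fin 3 × Bool

section parts
variable {b : ℕ}

def uW (W : Finset (JJ b)) : Finset (Fin (b + 1)) := univ.filter fun i => (Sum.inl i : JJ b) ∈ W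
def vW (W : Finset (JJ b)) : Finset (Fin b) := univ.filter fun i => (Sum.inr i : JJ b) ∈ W

@[simp] theorem mem_uW (W : Finset (JJ b)) (i : Fin (b + 1)) :
    i ∈ uW W ↔ (Sum.inl i : JJ b) ∈ W := by simp [uW]
@[simp] theorem mem_vW (W : Finset (JJ b)) (i : Fin b) :
    i ∈ vW W ↔ (Sum.inr i : JJ b) ∈ W := by simp [vW]
@[simp] theorem uW_inl (W : Finset (JJ b)) (i : Fin (b + 1)) :
    uW (insert (Sum.inl i) W) = insert i (uW W) := by ext x; simp
@[simp] theorem uW_inr (W : Finset (JJ b)) (i : Fin b) :
    uW (insert (Sum.inr i) W) = uW W := by ext x; simp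
@[simp] theorem vW_inl (W : Finset (JJ b)) (i : Fin (b + 1)) :
    vW (insert (Sum.inl i) W) = vW W := by ext x; simp
@[simp] theorem vW_inr (W : Finset (JJ b)) (i : Fin b) :
    vW (insert (Sum.inr i) W) = insert i (vW W) := by ext x; simp
@[simp] theorem uW_disjSum (u : Finset (Fin (b + 1))) (v : Finset (Fin b)) :
    uW (u.disjSum v : Finset (JJ b)) = u := by ext x; simp
@[simp] theorem vW_disjSum (u : Finset (Fin (b + 1))) (v : Finset (Fin b)) :
    vW (u.disjSum v : Finset (JJ b)) = v := by ext x; simp

theorem disjSum_insert_left (u : Finset (Fin (b + 1))) (v : Finset (Fin b)) (i : Fin (b + 1)) :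
    ((insert i u).disjSum v : Finset (JJ b)) = insert (Sum.inl i) (u.disjSum v) := by
  ext x; rcases x with x | x <;> simp
theorem disjSum_insert_right (u : Finset (Fin (b + 1))) (v : Finset (Fin b)) (i : Fin b) :
    (u.disjSum (insert i v) : Finset (JJ b)) = insert (Sum.inr i) (u.disjSum v) := by
  ext x; rcases x with x | x <;> simp

/-- numbering of the checks -/
noncomputable def jv (v : Finset (Fin b)) : ℕ :=
  (Fintype.equivFinOfCardEq (show Fintype.card (Finset (Fin b)) = 2 ^ b by simp) v).val

theorem jv_lt (v : Finset (Fin b)) : jv v < 2 ^ b := Fin.isLt _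

theorem jv_surj (j : ℕ) (hj : j < 2 ^ b) : ∃ v : Finset (Fin b), jv v = j := by
  refine ⟨(Fintype.equivFinOfCardEq
    (show Fintype.card (Finset (Fin b)) = 2 ^ b by simp)).symm ⟨j, hj⟩, ?_⟩
  unfold jv
  rw [Equiv.apply_symm_apply]

end parts

variable {F : Type} [Field F] [Fintype F]

/-- numbering of the field -/
noncomputable def enc (y : F) : ℤ := ((Fintype.equivFin F y).val : ℤ)

theorem enc_nonneg (y : F) : 0 ≤ enc y := Int.natCast_nonneg _
theorem enc_lt (y : F) : enc y < Fintype.card F := by
  unfold enc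
  exact_mod_cast (Fintype.equivFin F y).isLt
theorem enc_inj : Function.Injective (enc : F → ℤ) := by
  intro x y h
  unfold enc at h
  have : (Fintype.equivFin F x).val = (Fintype.equivFin F y).val := by exact_mod_cast h
  exact (Fintype.equivFin F).injective (Fin.ext this)

/-- outgoing accumulator -/
noncomputable def out (g : F) {b : ℕ} (W : Finset (JJ b)) (τ : F × F) : F :=
  τ.1 + τ.2 * g ^ (rk (b + 1) (uW W) * jv (vW W))

/-- the quantity shared along links of class `c` -/
noncomputable def PP (g : F) {b : ℕ} (c : Fin 3) (W : Finset (JJ b)) (τ : F × F) : F :=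
  if c = 0 then τ.2
  else if c = 1 then (if (uW W).card % 2 = 0 then out g W τ else τ.1)
  else (if (uW W).card % 2 = 0 then τ.1 else out g W τ)

/-- potentials before scaling -/
noncomputable def AA {b : ℕ} (c : Fin 3) (W : Finset (JJ b)) : ℤ :=
  if c = 0 then (uW W).card
  else if c = 1 then (((uW W).erase 0).card : ℤ) + (vW W).card
  else pot (uW W) + (vW W).card

theorem AA_zero {b : ℕ} (W : Finset (JJ b)) : AA 0 W = (uW W).card := rfl
theorem AA_one {b : ℕ} (W : Finset (JJ b)) :
    AA 1 W = (((uW W).erase 0).card : ℤ) + (vW W).card := rfl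
theorem AA_two {b : ℕ} (W : Finset (JJ b)) : AA 2 W = pot (uW W) + (vW W).card := rfl

theorem cases3 (c : Fin 3) : c = 0 ∨ c = 1 ∨ c = 2 := by
  fin_cases c
  · exact Or.inl rfl
  · exact Or.inr (Or.inl rfl)
  · exact Or.inr (Or.inr rfl)

theorem AA_nonneg {b : ℕ} (c : Fin 3) (W : Finset (JJ b)) : 0 ≤ AA c W := by
  unfold AA
  have := pot_nonneg (uW W)
  split_ifs <;> positivity

theorem AA_le {b : ℕ} (c : Fin 3) (W : Finset (JJ b)) :
    AA c W ≤ ((b : ℤ) + 1) * (b + 1) + (b + 1) + b := by
  unfold AA
  have h1 := pot_le (uW W)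
  have h2 : ((uW W).card : ℤ) ≤ b + 1 := by
    have := card_le_univ (uW W)
    simp at this
    exact_mod_cast this
  have h3 : ((vW W).card : ℤ) ≤ b := by
    have := card_le_univ (vW W)
    simp at this
    exact_mod_cast this
  have h4 : (((uW W).erase 0).card : ℤ) ≤ b + 1 := by
    have := card_le_univ ((uW W).erase 0)
    simp at this
    exact_mod_cast this
  push_cast at h1
  split_ifs <;> nlinarith

/-- linked pairs of class `c` -/
def Lk {b : ℕ} (c : Fin 3) (W : Finset (JJ b)) : JJ b → Prop
  | Sum.inl i => (c = 1 ∧ i = 0) ∨ (c = 2 ∧ MS (uW W) i)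
  | Sum.inr _ => c = 0

theorem AA_step {b : ℕ} (c : Fin 3) (W : Finset (JJ b)) (j : JJ b) (hj : j ∉ W) :
    (Lk c W j ∧ AA c (insert j W) = AA c W) ∨ (AA c W + 1 ≤ AA c (insert j W)) := by
  rcases j with i | i
  · have hi : i ∉ uW W := by simpa using hj
    rcases cases3 c with rfl | rfl | rfl
    · right
      rw [AA_zero, AA_zero, uW_inl, card_insert_of_notMem hi]
      push_cast
      linarith
    · by_cases h0 : i = 0
      · left
        subst h0
        refine ⟨Or.inl ⟨rfl, rfl⟩, ?_⟩
        rw [AA_one, AA_one, uW_inl, vW_inl, erase_insert_eq_erase]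
      · right
        have : (insert i (uW W)).erase 0 = insert i ((uW W).erase 0) :=
          erase_insert_of_ne h0
        have h1 : i ∉ (uW W).erase 0 := fun h => hi (mem_of_mem_erase h)
        rw [AA_one, AA_one, uW_inl, vW_inl, this, card_insert_of_notMem h1]
        push_cast
        linarith
    · by_cases h0 : MS (uW W) i
      · left
        refine ⟨Or.inr ⟨rfl, h0⟩, ?_⟩
        rw [AA_two, AA_two, uW_inl, vW_inl, pot_link _ _ hi h0]
      · right
        have := pot_nolink _ _ hi h0
        rw [AA_two, AA_two, uW_inl, vW_inl]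
        linarith
  · have hi : i ∉ vW W := by simpa using hj
    rcases cases3 c with rfl | rfl | rfl
    · left
      refine ⟨rfl, ?_⟩
      rw [AA_zero, AA_zero, uW_inr]
    · right
      rw [AA_one, AA_one, uW_inr, vW_inr, card_insert_of_notMem hi]
      push_cast
      linarith
    · right
      rw [AA_two, AA_two, uW_inr, vW_inr, card_insert_of_notMem hi]
      push_cast
      linarith

theorem AA_link {b : ℕ} (c : Fin 3) (W : Finset (JJ b)) (j : JJ b) (hj : j ∉ W)
    (h : Lk c W j) : AA c (insert j W) = AA c W := by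
  rcases j with i | i
  · have hi : i ∉ uW W := by simpa using hj
    rcases h with ⟨rfl, rfl⟩ | ⟨rfl, h⟩
    · rw [AA_one, AA_one, uW_inl, vW_inl, erase_insert_eq_erase]
    · rw [AA_two, AA_two, uW_inl, vW_inl, pot_link _ _ hi h]
  · have hc : c = 0 := h
    subst hc
    rw [AA_zero, AA_zero, uW_inr]

/-- the constraint satisfaction problem -/
noncomputable def CC (g : F) (b : ℕ) : Csp (JJ b) LL (F × F) where
  Q l W τ := (if l.2 then 1 else -1) * enc (PP g l.1 W τ)
  A l W := 2 * Fintype.card F * AA l.1 W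
  idx τ := enc τ.1 + Fintype.card F * enc τ.2
  B := Fintype.card F
  AM := 2 * Fintype.card F * (((b : ℤ) + 1) * (b + 1) + (b + 1) + b)
  IM := Fintype.card F * Fintype.card F
  ok W τ := (rk (b + 1) (uW W) = 0 → τ.1 = 0) ∧
    (rk (b + 1) (uW W) + 1 = 2 ^ (b + 1) → out g W τ = 0)
  hB := Int.natCast_nonneg _
  hQ l W τ := by
    have h1 := enc_nonneg (PP g l.1 W τ)
    have h2 := enc_lt (PP g l.1 W τ)
    rw [abs_le]
    split_ifs <;> constructor <;> linarith
  hA0 l W := by
    have := AA_nonneg l.1 W
    positivity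
  hAM l W := mul_le_mul_of_nonneg_left (AA_le l.1 W) (by positivity)
  hidx0 τ := by
    have h1 := enc_nonneg τ.1
    have h2 := enc_nonneg τ.2
    positivity
  hidxM τ := by
    have h1 := enc_lt τ.1
    have h2 := enc_lt τ.2
    have h3 : (0 : ℤ) ≤ Fintype.card F := Int.natCast_nonneg _
    have h4 : enc τ.2 + 1 ≤ Fintype.card F := h2
    nlinarith
  hinj := by
    intro τ τ' h
    simp only at h
    have h1 := enc_lt τ.1
    have h2 := enc_lt τ'.1
    have h3 := enc_nonneg τ.1
    have h4 := enc_nonneg τ'.1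
    have hF : (0 : ℤ) < Fintype.card F := by exact_mod_cast Fintype.card_pos
    have e2 : enc τ.2 = enc τ'.2 := by
      by_contra hne
      rcases lt_or_gt_of_ne hne with hlt | hlt
      · have : enc τ.2 + 1 ≤ enc τ'.2 := hlt
        nlinarith
      · have : enc τ'.2 + 1 ≤ enc τ.2 := hlt
        nlinarith
    rw [e2] at h
    exact Prod.ext (enc_inj (by linarith)) (enc_inj e2)
  hstep l W j hj := by
    rcases AA_step l.1 W j hj with ⟨_, h⟩ | h
    · left
      rw [h]
    · right
      have hF : (0 : ℤ) ≤ 2 * Fintype.card F := by positivity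
      have := mul_le_mul_of_nonneg_left h hF
      linarith

theorem links_iff (g : F) (b : ℕ) (t : Finset (JJ b) → F × F) :
    (CC g b).Links t ↔ ∀ (c : Fin 3) (W : Finset (JJ b)) (j : JJ b), j ∉ W → Lk c W j →
      PP g c (insert j W) (t (insert j W)) = PP g c W (t W) := by
  have hF : (0 : ℤ) < 2 * Fintype.card F := by
    have : (0 : ℤ) < Fintype.card F := by exact_mod_cast Fintype.card_pos
    linarith
  constructor
  · intro h c W j hj hl
    have hA : ∀ s : Bool, (CC g b).A (c, s) (insert j W) = (CC g b).A (c, s) W := by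
      intro s
      simp only [CC]
      rw [AA_link c W j hj hl]
    have h1 := h (c, true) W j hj (hA true)
    have h2 := h (c, false) W j hj (hA false)
    simp only [CC, if_true, Bool.false_eq_true, if_false, one_mul, neg_mul, neg_le_neg_iff] at h1 h2
    exact enc_inj (le_antisymm h1 h2)
  · intro h l W j hj hA
    simp only [CC] at hA ⊢
    have hA' : AA l.1 (insert j W) = AA l.1 W := mul_left_cancel₀ hF.ne' hA
    rcases AA_step l.1 W j hj with ⟨hl, _⟩ | h'
    · rw [h l.1 W j hj hl]
    · omega

end Pool.Agent.TH712.SM
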