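import Pool.Agent.TH712.SM.Inst

/-!
# Tables: completeness and soundness
-/

set_option autoImplicit false
set_option linter.unusedSectionVars false
set_option linter.unusedSimpArgs false
open Finset

namespace Pool.Agent.TH712.SM

variable {F : Type} [Field F] [Fintype F]

/-- the table of a vector `x`, with the accumulators of the last check shifted from position `l` on -/
noncomputable def tab (g : F) (b : ℕ) (x : ℕ → F) (l : ℕ) (W : Finset (JJ b)) : F × F :=
  (pre g x (rk (b + 1) (uW W)) (jv (vW W)) -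
    (if jv (vW W) = 2 ^ b - 1 ∧ l ≤ rk (b + 1) (uW W) then pre g x (2 ^ (b + 1)) (2 ^ b - 1) else 0),
    x (rk (b + 1) (uW W)))

theorem PP_zero (g : F) {b : ℕ} (W : Finset (JJ b)) (τ : F × F) : PP g 0 W τ = τ.2 := rfl
theorem PP_one (g : F) {b : ℕ} (W : Finset (JJ b)) (τ : F × F) :
    PP g 1 W τ = (if (uW W).card % 2 = 0 then out g W τ else τ.1) := rfl
theorem PP_two (g : F) {b : ℕ} (W : Finset (JJ b)) (τ : F × F) :
    PP g 2 W τ = (if (uW W).card % 2 = 0 then τ.1 else out g W τ) := rfl

theorem tog_insert {a : ℕ} (u : Finset (Fin a)) (j : Fin a) (hj : j ∉ u) :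
    tog u j = insert j u := by
  unfold tog; rw [if_neg hj]

theorem tog_insert' {a : ℕ} (u : Finset (Fin a)) (j : Fin a) (hj : j ∉ u) :
    tog (insert j u) j = u := by
  unfold tog; rw [if_pos (mem_insert_self j u), erase_insert hj]

theorem MS_insert {a : ℕ} (u : Finset (Fin a)) (j : Fin a) (h : MS u j) : MS (insert j u) j := by
  obtain ⟨m, hm, h1, h2⟩ := h
  refine ⟨m, mem_insert_of_mem hm, h1, ?_⟩
  intro m' hm'
  rw [mem_insert] at hm'
  rcases hm' with rfl | hm'
  · rw [Fin.le_def]; omega
  · exact h2 m' hm'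

/-- positions of the two ends of a link -/
theorem rk_link1 (b : ℕ) (u : Finset (Fin (b + 1))) (hj : (0 : Fin (b + 1)) ∉ u) :
    (u.card % 2 = 0 ∧ (insert 0 u).card % 2 = 1 ∧ rk (b + 1) (insert 0 u) = rk (b + 1) u + 1) ∨
    (u.card % 2 = 1 ∧ (insert 0 u).card % 2 = 0 ∧ rk (b + 1) u = rk (b + 1) (insert 0 u) + 1) := by
  have hc := card_insert_of_notMem hj
  rcases Nat.mod_two_eq_zero_or_one u.card with h | h
  · left
    refine ⟨h, by omega, ?_⟩
    rw [← tog_insert u 0 hj]
    exact rk_tog_even b u h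
  · right
    have h2 : (insert 0 u).card % 2 = 0 := by omega
    refine ⟨h, h2, ?_⟩
    have := rk_tog_even b (insert 0 u) h2
    rwa [tog_insert' u 0 hj] at this

theorem rk_link2 (b : ℕ) (u : Finset (Fin (b + 1))) (j : Fin (b + 1)) (hj : j ∉ u) (hm : MS u j) :
    (u.card % 2 = 1 ∧ (insert j u).card % 2 = 0 ∧ rk (b + 1) (insert j u) = rk (b + 1) u + 1) ∨
    (u.card % 2 = 0 ∧ (insert j u).card % 2 = 1 ∧ rk (b + 1) u = rk (b + 1) (insert j u) + 1) := by
  have hc := card_insert_of_notMem hj
  rcases Nat.mod_two_eq_zero_or_one u.card with h | h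
  · right
    have h2 : (insert j u).card % 2 = 1 := by omega
    refine ⟨h, h2, ?_⟩
    have := rk_tog_odd b (insert j u) h2 j (MS_insert u j hm)
    rwa [tog_insert' u j hj] at this
  · left
    refine ⟨h, by omega, ?_⟩
    rw [← tog_insert u j hj]
    exact rk_tog_odd b u h j hm

/-- **Completeness** -/
theorem tab_links (g : F) (b : ℕ) (x : ℕ → F) (l : ℕ)
    (hx : pre g x (2 ^ (b + 1)) (2 ^ b - 1) = 0) : (CC g b).Links (tab g b x l) := by
  rw [links_iff]
  have htab : ∀ W : Finset (JJ b), tab g b x l W =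
      (pre g x (rk (b + 1) (uW W)) (jv (vW W)), x (rk (b + 1) (uW W))) := by
    intro W
    unfold tab
    rw [hx]
    simp
  have hout : ∀ W : Finset (JJ b), out g W (tab g b x l W) =
      pre g x (rk (b + 1) (uW W) + 1) (jv (vW W)) := by
    intro W
    rw [htab, pre_succ]
    rfl
  intro c W j hj hl
  rcases j with i | i
  · have hi : i ∉ uW W := by simpa using hj
    rcases hl with ⟨rfl, rfl⟩ | ⟨rfl, hm⟩
    · rw [PP_one, PP_one, hout, hout, htab, htab]
      simp only [uW_inl, vW_inl]
      rcases rk_link1 b (uW W) hi with ⟨h1, h2, h3⟩ | ⟨h1, h2, h3⟩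
      · rw [if_pos h1, if_neg (by omega), h3]
      · rw [if_pos h2, if_neg (by omega), h3]
    · rw [PP_two, PP_two, hout, hout, htab, htab]
      simp only [uW_inl, vW_inl]
      rcases rk_link2 b (uW W) i hi hm with ⟨h1, h2, h3⟩ | ⟨h1, h2, h3⟩
      · rw [if_pos h2, if_neg (by omega), h3]
      · rw [if_pos h1, if_neg (by omega), h3]
  · have hc : c = 0 := hl
    subst hc
    rw [PP_zero, PP_zero, htab, htab]
    simp only [uW_inr]

/-- both kinds of tables respect the end conditions -/
theorem tab_ok (g : F) (b : ℕ) (x : ℕ → F) (l : ℕ) (hl : 1 ≤ l) (hl' : l < 2 ^ (b + 1))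
    (hx : ∀ j < 2 ^ b - 1, pre g x (2 ^ (b + 1)) j = 0) (W : Finset (JJ b)) :
    (CC g b).ok W (tab g b x l W) := by
  refine ⟨?_, ?_⟩
  · intro h
    unfold tab
    simp only
    rw [h, if_neg (by omega)]
    simp [pre]
  · intro h
    unfold tab out
    simp only
    have h1 : pre g x (2 ^ (b + 1)) (jv (vW W)) = pre g x (rk (b + 1) (uW W)) (jv (vW W)) +
        x (rk (b + 1) (uW W)) * g ^ (rk (b + 1) (uW W) * jv (vW W)) := by
      rw [← h, pre_succ]
    by_cases hj : jv (vW W) = 2 ^ b - 1
    · rw [if_pos ⟨hj, by omega⟩]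
      rw [hj] at h1 ⊢
      rw [h1]
      ring
    · rw [if_neg (fun h' => hj h'.1)]
      have h2 := hx (jv (vW W)) (by have := jv_lt (vW W); omega)
      rw [h2] at h1
      rw [sub_zero]
      exact h1.symm

/-- **Soundness**: an assignment satisfying the constraints comes from a vector in the code -/
theorem of_links (g : F) (b : ℕ) (t : Finset (JJ b) → F × F) (ht : (CC g b).Links t)
    (hok : ∀ W, (CC g b).ok W (t W)) :
    ∃ x : ℕ → F, (∀ j < 2 ^ b, pre g x (2 ^ (b + 1)) j = 0) ∧
      ∀ W, (t W).2 = x (rk (b + 1) (uW W)) := by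
  rw [links_iff] at ht
  set x : ℕ → F := fun k => (t ((gr (b + 1) k).disjSum ∅)).2 with hx
  have hx2 : ∀ (u : Finset (Fin (b + 1))) (v : Finset (Fin b)),
      (t (u.disjSum v)).2 = x (rk (b + 1) u) := by
    intro u v
    rw [hx]
    simp only
    rw [gr_rk]
    induction v using Finset.induction_on with
    | empty => rfl
    | insert i v hi ih =>
      have h1 := ht 0 (u.disjSum v) (Sum.inr i) (by simp [hi]) rfl
      rw [PP_zero, PP_zero, ← disjSum_insert_right] at h1
      rw [h1, ih]
  have hW : ∀ W : Finset (JJ b), W = (uW W).disjSum (vW W) := by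
    intro W
    ext i
    rcases i with i | i <;> simp
  have hstep : ∀ (v : Finset (Fin b)) (k : ℕ), k < 2 ^ (b + 1) →
      (t ((gr (b + 1) k).disjSum v)).1 = pre g x k (jv v) := by
    intro v k
    induction k with
    | zero =>
      intro _
      have h1 := (hok ((gr (b + 1) 0).disjSum v)).1 (by
        rw [uW_disjSum]
        exact rk_gr _ _ (by positivity))
      rw [h1]
      simp [pre]
    | succ k ih =>
      intro hk
      have h1 := ih (by omega)
      -- outgoing value at position `k`
      have hrk : rk (b + 1) (gr (b + 1) k) = k := rk_gr _ _ (by omega)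
      have hrk' : rk (b + 1) (gr (b + 1) (k + 1)) = k + 1 := rk_gr _ _ hk
      have ho : out g ((gr (b + 1) k).disjSum v) (t ((gr (b + 1) k).disjSum v)) =
          pre g x (k + 1) (jv v) := by
        unfold out
        rw [h1, hx2, uW_disjSum, vW_disjSum, hrk, pre_succ]
      have hpar : ((gr (b + 1) k).card + k) % 2 = 0 := gr_card b k (by omega)
      have hpar' : ((gr (b + 1) (k + 1)).card + (k + 1)) % 2 = 0 := gr_card b (k + 1) hk
      rw [← ho]
      rcases Nat.even_or_odd' k with ⟨m, hm | hm⟩
      · -- class 1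
        have hg := gr_even b m
        rw [← hm] at hg
        by_cases h0 : (0 : Fin (b + 1)) ∈ gr (b + 1) k
        · have hgk : gr (b + 1) k = insert 0 (gr (b + 1) (k + 1)) := by
            rw [hg]; unfold tog; rw [if_pos h0, insert_erase h0]
          have hn : (0 : Fin (b + 1)) ∉ gr (b + 1) (k + 1) := by
            rw [hg]; unfold tog; rw [if_pos h0]; exact notMem_erase _ _
          have h2 := ht 1 ((gr (b + 1) (k + 1)).disjSum v) (Sum.inl 0) (by simp [hn])
            (Or.inl ⟨rfl, rfl⟩)
          rw [← disjSum_insert_left, ← hgk, PP_one, PP_one, uW_disjSum, uW_disjSum,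
            if_pos (by omega), if_neg (by omega)] at h2
          exact h2.symm
        · have hgk : gr (b + 1) (k + 1) = insert 0 (gr (b + 1) k) := by
            rw [hg]; unfold tog; rw [if_neg h0]
          have h2 := ht 1 ((gr (b + 1) k).disjSum v) (Sum.inl 0) (by simp [h0])
            (Or.inl ⟨rfl, rfl⟩)
          rw [← disjSum_insert_left, ← hgk, PP_one, PP_one, uW_disjSum, uW_disjSum,
            if_neg (by omega), if_pos (by omega)] at h2
          exact h2
      · -- class 2
        obtain ⟨j, hj, hg⟩ := gr_odd (b + 1) m (by omega)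
        rw [show 2 * m + 2 = k + 1 by omega, ← hm] at hg
        rw [← hm] at hj
        by_cases h0 : j ∈ gr (b + 1) k
        · have hgk : gr (b + 1) k = insert j (gr (b + 1) (k + 1)) := by
            rw [hg]; unfold tog; rw [if_pos h0, insert_erase h0]
          have hn : j ∉ gr (b + 1) (k + 1) := by
            rw [hg]; unfold tog; rw [if_pos h0]; exact notMem_erase _ _
          have hms : MS (gr (b + 1) (k + 1)) j := by
            obtain ⟨mm, hmm, h4, h5⟩ := hj
            refine ⟨mm, ?_, h4, ?_⟩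
            · rw [hgk, mem_insert] at hmm
              rcases hmm with rfl | hmm
              · omega
              · exact hmm
            · intro m' hm'
              exact h5 m' (by rw [hgk]; exact mem_insert_of_mem hm')
          have h2 := ht 2 ((gr (b + 1) (k + 1)).disjSum v) (Sum.inl j) (by simp [hn])
            (Or.inr ⟨rfl, by rw [uW_disjSum]; exact hms⟩)
          rw [← disjSum_insert_left, ← hgk, PP_two, PP_two, uW_disjSum, uW_disjSum,
            if_neg (by omega), if_pos (by omega)] at h2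
          exact h2.symm
        · have hgk : gr (b + 1) (k + 1) = insert j (gr (b + 1) k) := by
            rw [hg]; unfold tog; rw [if_neg h0]
          have h2 := ht 2 ((gr (b + 1) k).disjSum v) (Sum.inl j) (by simp [h0])
            (Or.inr ⟨rfl, by rw [uW_disjSum]; exact hj⟩)
          rw [← disjSum_insert_left, ← hgk, PP_two, PP_two, uW_disjSum, uW_disjSum,
            if_pos (by omega), if_neg (by omega)] at h2
          exact h2
  refine ⟨x, ?_, ?_⟩
  · intro j hj
    obtain ⟨v, rfl⟩ := jv_surj j hj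
    have hM : 2 ^ (b + 1) - 1 < 2 ^ (b + 1) := Nat.sub_lt (by positivity) (by norm_num)
    have hrk : rk (b + 1) (gr (b + 1) (2 ^ (b + 1) - 1)) = 2 ^ (b + 1) - 1 := rk_gr _ _ hM
    have h1 := hstep v _ hM
    have h2 := (hok ((gr (b + 1) (2 ^ (b + 1) - 1)).disjSum v)).2 (by
      rw [uW_disjSum, hrk]; omega)
    unfold out at h2
    rw [h1, hx2, uW_disjSum, vW_disjSum, hrk, ← pre_succ] at h2
    rwa [show 2 ^ (b + 1) - 1 + 1 = 2 ^ (b + 1) by omega] at h2
  · intro W
    have h1 := hx2 (uW W) (vW W)
    rwa [← hW W] at h1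

/-- **Distance of the tables** -/
theorem far_tab [DecidableEq F] (g : F) (b : ℕ)
    (hinj : ∀ i < 2 ^ (b + 1), ∀ j < 2 ^ (b + 1), g ^ i = g ^ j → i = j)
    (x : ℕ → F) (l : ℕ) (hx : ∀ j < 2 ^ b - 1, pre g x (2 ^ (b + 1)) j = 0)
    (hx1 : pre g x (2 ^ (b + 1)) (2 ^ b - 1) = 1)
    (t : Finset (JJ b) → F × F) (ht : (CC g b).Links t) (hok : ∀ W, (CC g b).ok W (t W)) :
    2 ^ b * 2 ^ b ≤ (univ.filter fun W => t W ≠ tab g b x l W).card := by
  obtain ⟨x', hx', hW⟩ := of_links g b t ht hok
  have hD : 0 < 2 ^ b := by positivity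
  have h1 : 2 ^ b ≤ ((range (2 ^ (b + 1))).filter fun i => x i - x' i ≠ 0).card := by
    apply dist_ge g (2 ^ (b + 1)) (2 ^ b) hinj (fun i => x i - x' i)
    · intro j hj
      rw [pre_sub, hx j hj, hx' j (by omega), sub_zero]
    · rw [pre_sub, hx1, hx' _ (by omega), sub_zero]
      exact one_ne_zero
  set s := (range (2 ^ (b + 1))).filter fun i => x i - x' i ≠ 0 with hs
  have hinj2 : Set.InjOn (fun p : ℕ × Finset (Fin b) => ((gr (b + 1) p.1).disjSum p.2 : Finset (JJ b)))
      ((s ×ˢ (univ : Finset (Finset (Fin b))) : Finset (ℕ × Finset (Fin b))) :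
        Set (ℕ × Finset (Fin b))) := by
    intro p hp q hq hpq
    rw [mem_coe, mem_product, hs, mem_filter, mem_range] at hp hq
    simp only at hpq
    have e1 := congrArg uW hpq
    have e2 := congrArg vW hpq
    rw [uW_disjSum, uW_disjSum] at e1
    rw [vW_disjSum, vW_disjSum] at e2
    have e3 : p.1 = q.1 := by
      rw [← rk_gr (b + 1) p.1 hp.1.1, ← rk_gr (b + 1) q.1 hq.1.1, e1]
    exact Prod.ext e3 e2
  calc 2 ^ b * 2 ^ b ≤ s.card * 2 ^ b := Nat.mul_le_mul_right _ h1
    _ = (s ×ˢ (univ : Finset (Finset (Fin b)))).card := by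
        rw [card_product, card_univ, Fintype.card_finset, Fintype.card_fin]
    _ = ((s ×ˢ (univ : Finset (Finset (Fin b)))).image fun p : ℕ × Finset (Fin b) =>
          ((gr (b + 1) p.1).disjSum p.2 : Finset (JJ b))).card := (card_image_of_injOn hinj2).symm
    _ ≤ _ := by
        apply card_le_card
        intro W hWm
        rw [mem_image] at hWm
        obtain ⟨⟨k, v⟩, hkv, rfl⟩ := hWm
        rw [mem_product, hs, mem_filter, mem_range] at hkv
        rw [mem_filter]
        refine ⟨mem_univ _, ?_⟩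
        intro h
        apply hkv.1.2
        have h2 := congrArg Prod.snd h
        rw [hW] at h2
        unfold tab at h2
        simp only [uW_disjSum] at h2
        rw [rk_gr _ _ hkv.1.1] at h2
        rw [h2, sub_self]

end Pool.Agent.TH712.SM
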