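import Mathlib

/-!
# A generic weighted cut function of a path
-/

set_option autoImplicit false
open Finset

namespace Pool.Agent.TH712.SM

/-- base three digit: how membership changes between `m` and `m + 1` -/
def dig (A : Finset ℕ) (m : ℕ) : ℕ :=
  if m ∈ A then (if m + 1 ∈ A then 0 else 1) else (if m + 1 ∈ A then 2 else 0)

theorem dig_lt (A : Finset ℕ) (m : ℕ) : dig A m < 3 := by
  unfold dig
  split_ifs <;> norm_num

/-- the cut function on the path `0, 1, …, n` (with `n + 1` vertices) -/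
def psi (n : ℕ) (A : Finset ℕ) : ℕ := ∑ m ∈ range n, 3 ^ m * dig A m

theorem psi_empty (n : ℕ) : psi n ∅ = 0 := by
  simp [psi, dig]

theorem psi_full (n : ℕ) : psi n (range (n + 1)) = 0 := by
  unfold psi
  apply sum_eq_zero
  intro m hm
  rw [mem_range] at hm
  unfold dig
  rw [if_pos (by rw [mem_range]; omega), if_pos (by rw [mem_range]; omega)]
  simp

theorem psi_lt (n : ℕ) (A : Finset ℕ) : psi n A < 3 ^ n := by
  unfold psi
  induction n with
  | zero => simp
  | succ n ih =>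
    rw [sum_range_succ, pow_succ]
    have := dig_lt A n
    nlinarith [Nat.mul_le_mul_left (3 ^ n) (Nat.le_of_lt_succ this)]

theorem dig_sq (A : Finset ℕ) (i j m : ℕ) (hi : i ∉ A) (hj : j ∉ A) (hij : i ≠ j) :
    dig A m + dig (insert i (insert j A)) m ≤ dig (insert i A) m + dig (insert j A) m := by
  by_cases h1 : m = i <;> by_cases h2 : m = j <;> by_cases h3 : m + 1 = i <;>
    by_cases h4 : m + 1 = j <;> by_cases h5 : m ∈ A <;> by_cases h6 : m + 1 ∈ A <;>
    simp_all [dig]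

theorem dig_sq_eq (A : Finset ℕ) (i j m : ℕ) (hi : i ∉ A) (hj : j ∉ A) (hij : i ≠ j)
    (h1 : i + 1 ≠ j) (h2 : j + 1 ≠ i) :
    dig A m + dig (insert i (insert j A)) m = dig (insert i A) m + dig (insert j A) m := by
  by_cases h1 : m = i <;> by_cases h2 : m = j <;> by_cases h3 : m + 1 = i <;>
    by_cases h4 : m + 1 = j <;> by_cases h5 : m ∈ A <;> by_cases h6 : m + 1 ∈ A <;>
    simp_all [dig]

theorem psi_sq (n : ℕ) (A : Finset ℕ) (i j : ℕ) (hi : i ∉ A) (hj : j ∉ A) (hij : i ≠ j) :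
    psi n A + psi n (insert i (insert j A)) ≤ psi n (insert i A) + psi n (insert j A) := by
  unfold psi
  rw [← sum_add_distrib, ← sum_add_distrib]
  refine sum_le_sum fun m _ => ?_
  rw [← mul_add, ← mul_add]
  exact Nat.mul_le_mul_left _ (dig_sq A i j m hi hj hij)

theorem psi_sq_eq (n : ℕ) (A : Finset ℕ) (i j : ℕ) (hi : i ∉ A) (hj : j ∉ A) (hij : i ≠ j)
    (h1 : i + 1 ≠ j) (h2 : j + 1 ≠ i) :
    psi n A + psi n (insert i (insert j A)) = psi n (insert i A) + psi n (insert j A) := by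
  unfold psi
  rw [← sum_add_distrib, ← sum_add_distrib]
  refine sum_congr rfl fun m _ => ?_
  rw [← mul_add, ← mul_add, dig_sq_eq A i j m hi hj hij h1 h2]

/-- base three digits are determined by the number -/
theorem digits_inj (n : ℕ) : ∀ a b : ℕ → ℕ, (∀ m, a m < 3) → (∀ m, b m < 3) →
    ∑ m ∈ range n, 3 ^ m * a m = ∑ m ∈ range n, 3 ^ m * b m → ∀ m < n, a m = b m := by
  induction n with
  | zero => intro a b _ _ _ m hm; omega
  | succ n ih =>
    intro a b ha hb hab
    rw [sum_range_succ', sum_range_succ'] at hab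
    have ea : ∑ k ∈ range n, 3 ^ (k + 1) * a (k + 1) = 3 * ∑ k ∈ range n, 3 ^ k * a (k + 1) := by
      rw [mul_sum]; exact sum_congr rfl fun k _ => by ring
    have eb : ∑ k ∈ range n, 3 ^ (k + 1) * b (k + 1) = 3 * ∑ k ∈ range n, 3 ^ k * b (k + 1) := by
      rw [mul_sum]; exact sum_congr rfl fun k _ => by ring
    rw [ea, eb] at hab
    simp only [pow_zero, one_mul] at hab
    have h1 := ha 0
    have h2 := hb 0
    have h3 : a 0 = b 0 := by omega
    have h4 : ∑ k ∈ range n, 3 ^ k * a (k + 1) = ∑ k ∈ range n, 3 ^ k * b (k + 1) := by omega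
    have := ih (fun m => a (m + 1)) (fun m => b (m + 1)) (fun m => ha _) (fun m => hb _) h4
    intro m hm
    rcases m with _ | m
    · exact h3
    · exact this m (by omega)

theorem psi_inj (n : ℕ) (A B : Finset ℕ) (hA : A ⊆ range (n + 1)) (hB : B ⊆ range (n + 1))
    (h : psi n A = psi n B) (h0 : B ≠ ∅) (h1 : B ≠ range (n + 1)) : A = B := by
  have hd := digits_inj n (dig A) (dig B) (dig_lt A) (dig_lt B) h
  -- there is a change in `B`
  have hch : ∃ m < n, dig B m ≠ 0 := by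
    by_contra hcon
    push Not at hcon
    have hconst : ∀ m, m ≤ n → (m ∈ B ↔ 0 ∈ B) := by
      intro m
      induction m with
      | zero => intro _; exact Iff.rfl
      | succ m ih =>
        intro hm
        have h2 := hcon m (by omega)
        rw [← ih (by omega)]
        unfold dig at h2
        by_cases h3 : m ∈ B <;> by_cases h4 : m + 1 ∈ B <;> simp_all
    by_cases h3 : 0 ∈ B
    · apply h1
      apply Subset.antisymm hB
      intro m hm
      rw [mem_range] at hm
      exact (hconst m (by omega)).mpr h3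
    · apply h0
      rw [eq_empty_iff_forall_notMem]
      intro m hm
      have hm' := mem_range.mp (hB hm)
      exact h3 ((hconst m (by omega)).mp hm)
  obtain ⟨m₀, hm₀, hne⟩ := hch
  have hagree : (m₀ ∈ A ↔ m₀ ∈ B) := by
    have h2 := hd m₀ hm₀
    unfold dig at h2 hne
    by_cases h3 : m₀ ∈ B <;> by_cases h4 : m₀ + 1 ∈ B <;> by_cases h5 : m₀ ∈ A <;>
      by_cases h6 : m₀ + 1 ∈ A <;> simp_all
  have hstep : ∀ m < n, ((m ∈ A ↔ m ∈ B) ↔ (m + 1 ∈ A ↔ m + 1 ∈ B)) := by
    intro m hm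
    have h2 := hd m hm
    unfold dig at h2
    by_cases h3 : m ∈ B <;> by_cases h4 : m + 1 ∈ B <;> by_cases h5 : m ∈ A <;>
      by_cases h6 : m + 1 ∈ A <;> simp_all
  have h00 : ∀ m, m ≤ n → ((m ∈ A ↔ m ∈ B) ↔ (0 ∈ A ↔ 0 ∈ B)) := by
    intro m
    induction m with
    | zero => intro _; exact Iff.rfl
    | succ m ih =>
      intro hm
      rw [← hstep m (by omega)]
      exact ih (by omega)
  have h0' : (0 ∈ A ↔ 0 ∈ B) := (h00 m₀ hm₀.le).mp hagree
  ext m
  by_cases hm : m ≤ n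
  · exact (h00 m hm).mpr h0'
  · constructor
    · intro h'
      have := mem_range.mp (hA h')
      omega
    · intro h'
      have := mem_range.mp (hB h')
      omega

/-! ### binary digits -/

/-- the digit `2m` says `m ∈ A, m + 1 ∉ A`, the digit `2m + 1` says `m ∉ A, m + 1 ∈ A` -/
def dg (A : Finset ℕ) (r : ℕ) : ℕ :=
  if r % 2 = 0 then (if r / 2 ∈ A ∧ r / 2 + 1 ∉ A then 1 else 0)
  else (if r / 2 ∉ A ∧ r / 2 + 1 ∈ A then 1 else 0)

theorem dg_le (A : Finset ℕ) (r : ℕ) : dg A r ≤ 1 := by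
  unfold dg
  split_ifs <;> norm_num

theorem dig_eq (A : Finset ℕ) (m : ℕ) : dig A m = dg A (2 * m) + 2 * dg A (2 * m + 1) := by
  unfold dig dg
  rw [if_pos (by omega : 2 * m % 2 = 0), if_neg (by omega : ¬ (2 * m + 1) % 2 = 0),
    show 2 * m / 2 = m by omega, show (2 * m + 1) / 2 = m by omega]
  by_cases h1 : m ∈ A <;> by_cases h2 : m + 1 ∈ A <;> simp [h1, h2]

/-- the weighted directed cut function of the path `0, 1, …, n` -/
def psb (n : ℕ) (A : Finset ℕ) : ℕ := ∑ r ∈ range (2 * n), 3 ^ r * dg A r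

theorem psb_empty (n : ℕ) : psb n ∅ = 0 := by
  simp [psb, dg]

theorem psb_lt (n : ℕ) (A : Finset ℕ) : psb n A < 3 ^ (2 * n) := by
  unfold psb
  have : ∀ k : ℕ, ∑ r ∈ range k, 3 ^ r * dg A r < 3 ^ k := by
    intro k
    induction k with
    | zero => simp
    | succ k ih =>
      rw [sum_range_succ, pow_succ]
      have h2 := Nat.mul_le_mul_left (3 ^ k) (dg_le A k)
      have h3 : 1 ≤ 3 ^ k := Nat.one_le_pow _ _ (by norm_num)
      linarith
  exact this _

theorem dg_sq (A : Finset ℕ) (i j r : ℕ) (hi : i ∉ A) (hj : j ∉ A) (hij : i ≠ j) :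
    dg A r + dg (insert i (insert j A)) r ≤ dg (insert i A) r + dg (insert j A) r := by
  unfold dg
  generalize r / 2 = m
  by_cases h0 : r % 2 = 0 <;>
  by_cases h1 : m = i <;> by_cases h2 : m = j <;> by_cases h3 : m + 1 = i <;>
    by_cases h4 : m + 1 = j <;> by_cases h5 : m ∈ A <;> by_cases h6 : m + 1 ∈ A <;>
    simp_all

theorem dg_sq_eq (A : Finset ℕ) (i j r : ℕ) (hi : i ∉ A) (hj : j ∉ A) (hij : i ≠ j)
    (h1 : i + 1 ≠ j) (h2 : j + 1 ≠ i) :
    dg A r + dg (insert i (insert j A)) r = dg (insert i A) r + dg (insert j A) r := by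
  unfold dg
  generalize r / 2 = m
  by_cases h0 : r % 2 = 0 <;>
  by_cases h1 : m = i <;> by_cases h2 : m = j <;> by_cases h3 : m + 1 = i <;>
    by_cases h4 : m + 1 = j <;> by_cases h5 : m ∈ A <;> by_cases h6 : m + 1 ∈ A <;>
    simp_all

theorem psb_sq (n : ℕ) (A : Finset ℕ) (i j : ℕ) (hi : i ∉ A) (hj : j ∉ A) (hij : i ≠ j) :
    psb n A + psb n (insert i (insert j A)) ≤ psb n (insert i A) + psb n (insert j A) := by
  unfold psb
  rw [← sum_add_distrib, ← sum_add_distrib]
  refine sum_le_sum fun m _ => ?_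
  rw [← mul_add, ← mul_add]
  exact Nat.mul_le_mul_left _ (dg_sq A i j m hi hj hij)

theorem psb_sq_eq (n : ℕ) (A : Finset ℕ) (i j : ℕ) (hi : i ∉ A) (hj : j ∉ A) (hij : i ≠ j)
    (h1 : i + 1 ≠ j) (h2 : j + 1 ≠ i) :
    psb n A + psb n (insert i (insert j A)) = psb n (insert i A) + psb n (insert j A) := by
  unfold psb
  rw [← sum_add_distrib, ← sum_add_distrib]
  refine sum_congr rfl fun m _ => ?_
  rw [← mul_add, ← mul_add, dg_sq_eq A i j m hi hj hij h1 h2]

theorem psb_digits (n : ℕ) (A B : Finset ℕ) (h : psb n A = psb n B) :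
    ∀ r < 2 * n, dg A r = dg B r :=
  digits_inj (2 * n) (dg A) (dg B) (fun m => lt_of_le_of_lt (dg_le A m) (by norm_num))
    (fun m => lt_of_le_of_lt (dg_le B m) (by norm_num)) h

theorem psb_inj (n : ℕ) (A B : Finset ℕ) (hA : A ⊆ range (n + 1)) (hB : B ⊆ range (n + 1))
    (h : psb n A = psb n B) (h0 : B ≠ ∅) (h1 : B ≠ range (n + 1)) : A = B := by
  have hd := psb_digits n A B h
  apply psi_inj n A B hA hB _ h0 h1
  unfold psi
  refine sum_congr rfl fun m hm => ?_
  rw [mem_range] at hm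
  rw [dig_eq, dig_eq, hd (2 * m) (by omega), hd (2 * m + 1) (by omega)]

/-- lexicographic comparison -/
theorem lex (nd r : ℕ) (hr : r < nd) (x : ℕ → ℤ) (hx : ∀ i, x i ≤ 2)
    (hz : ∀ i, r < i → i < nd → x i = 0) (h : 0 ≤ ∑ i ∈ range nd, 3 ^ i * x i) : 0 ≤ x r := by
  have h1 : ∑ i ∈ range nd, 3 ^ i * x i = ∑ i ∈ range (r + 1), 3 ^ i * x i := by
    symm
    apply sum_subset
    · intro i hi
      rw [mem_range] at hi ⊢
      omega
    · intro i hi hi'
      rw [mem_range] at hi hi'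
      rw [hz i (by omega) hi, mul_zero]
  rw [h1, sum_range_succ] at h
  have h2 : ∀ k : ℕ, ∑ i ∈ range k, 3 ^ i * x i ≤ 3 ^ k - 1 := by
    intro k
    induction k with
    | zero => simp
    | succ k ih =>
      rw [sum_range_succ, pow_succ]
      have := mul_le_mul_of_nonneg_left (hx k) (show (0 : ℤ) ≤ 3 ^ k by positivity)
      linarith
  have h3 := h2 r
  by_contra hcon
  push Not at hcon
  have h4 : (3 : ℤ) ^ r * x r ≤ 3 ^ r * (-1) :=
    mul_le_mul_of_nonneg_left (by omega) (by positivity)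
  linarith

end Pool.Agent.TH712.SM
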