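import Pool.Agent.TH712.SM.Rigid

/-!
# Rigidity of functions with values zero and one
-/

set_option autoImplicit false
set_option linter.unusedSectionVars false
open Finset

namespace Pool.Agent.TH712.SM

section pair
variable {I : Type} [DecidableEq I]

/-- two-set form of the local conditions -/
theorem SqCond.pair {N : I → Finset I} {d : Finset I → ℤ} (h : SqCond N d) (T U : Finset I) :
    ∀ V : Finset I, Disjoint T U → Disjoint T V → Disjoint U V → (∀ j ∈ V, ∀ i ∈ U, i ∉ N j) →
      d T + d (T ∪ U ∪ V) ≤ d (T ∪ U) + d (T ∪ V) := by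
  intro V
  induction V using Finset.induction_on with
  | empty => intro _ _ _ _; simp [add_comm]
  | insert j V hj ih =>
    intro hTU hTV hUV hN
    have hTV' := hTV.mono_right (subset_insert j V)
    have hUV' := hUV.mono_right (subset_insert j V)
    have h1 := ih hTU hTV' hUV' (fun k hk => hN k (mem_insert_of_mem hk))
    have hjT : j ∉ T := fun h' => (Finset.disjoint_left.mp hTV h') (mem_insert_self j V)
    have hjU : j ∉ U := fun h' => (Finset.disjoint_left.mp hUV h') (mem_insert_self j V)
    have hd : Disjoint (T ∪ V) U := by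
      rw [disjoint_union_left]
      exact ⟨hTU, hUV'.symm⟩
    have h2 := h.grad j (T ∪ V) U (by simp [hjT, hj]) hjU hd
      (fun i hi => hN j (mem_insert_self j V) i hi)
    have e1 : T ∪ U ∪ insert j V = insert j (T ∪ V ∪ U) := by ext x; simp; tauto
    have e2 : T ∪ insert j V = insert j (T ∪ V) := union_insert j T V
    have e3 : T ∪ U ∪ V = T ∪ V ∪ U := by ext x; simp; tauto
    rw [e1, e2]
    rw [e3] at h1
    linarith

/-- zeros of a nonnegative function form a lattice in non-adjacent directions -/
theorem SqCond.lat {N : I → Finset I} {d : Finset I → ℤ} (h : SqCond N d) (hd : ∀ S, 0 ≤ d S)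
    (X Y : Finset I) (hN : ∀ i ∈ X \ Y, ∀ j ∈ Y \ X, i ∉ N j) (hX : d X = 0) (hY : d Y = 0) :
    d (X ∪ Y) = 0 ∧ d (X ∩ Y) = 0 := by
  have h1 := h.pair (X ∩ Y) (X \ Y) (Y \ X)
    (by rw [disjoint_left]; intro a ha hb; rw [mem_inter] at ha; rw [mem_sdiff] at hb; exact hb.2 ha.2)
    (by rw [disjoint_left]; intro a ha hb; rw [mem_inter] at ha; rw [mem_sdiff] at hb; exact hb.2 ha.1)
    (by rw [disjoint_left]; intro a ha hb; rw [mem_sdiff] at ha hb; exact ha.2 hb.1)
    (fun j hj i hi => hN i hi j hj)
  have e1 : X ∩ Y ∪ X \ Y = X := by ext x; simp; tauto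
  have e2 : X ∩ Y ∪ Y \ X = Y := by ext x; simp; tauto
  have e3 : X ∪ Y \ X = X ∪ Y := by ext x; simp
  rw [e1, e2, e3, hX, hY] at h1
  have h2 := hd (X ∪ Y)
  have h3 := hd (X ∩ Y)
  constructor <;> linarith

end pair

section main
variable {I : Type} [DecidableEq I] [Fintype I]

/-- the set with the given indicator -/
def st (φ : I → Bool) : Finset I := univ.filter fun i => φ i = true

theorem mem_st (φ : I → Bool) (i : I) : i ∈ st φ ↔ φ i = true := by simp [st]

/-- the four auxiliary combinations -/
def comb (a : Fin 4) (r s : Bool) : Bool :=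
  if a = 0 then r else if a = 1 then xor r s else if a = 2 then !(xor r s) else !r

theorem comb_id (r s : Bool) :
    ((comb 0 r s || comb 1 r s) && (comb 2 r s || comb 3 r s)) = s := by
  cases r <;> cases s <;> decide

theorem comb_inj (a : Fin 4) (r r' s : Bool) (h : comb a r s = comb a r' s) : r = r' := by
  fin_cases a <;> cases r <;> cases r' <;> cases s <;> simp_all [comb]

/-- the auxiliary points -/
def phi (P : Finset I) (col : I → Bool) (S R : I → Bool) (a b : Fin 4) (i : I) : Bool :=
  if i ∈ P then S i else if col i then comb a (R i) (S i) else comb b (R i) (S i)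

theorem lat' {N : I → Finset I} {d : Finset I → ℤ} (h : SqCond N d) (hd : ∀ S, 0 ≤ d S)
    {col : I → Bool} (hcol : ∀ i j, i ∈ N j → col i ≠ col j) (s : Bool) (φ φ' : I → Bool)
    (hag : ∀ i, col i ≠ s → φ i = φ' i) (h0 : d (st φ) = 0) (h0' : d (st φ') = 0) :
    d (st fun i => φ i || φ' i) = 0 ∧ d (st fun i => φ i && φ' i) = 0 := by
  have h1 := h.lat hd (st φ) (st φ') (by
    intro i hi j hj hN
    rw [mem_sdiff, mem_st, mem_st] at hi hj
    have h2 := hcol i j hN
    have hi' : col i = s := by
      by_contra hc
      have := hag i hc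
      rw [this] at hi
      exact hi.2 hi.1
    have hj' : col j = s := by
      by_contra hc
      have := hag j hc
      rw [this] at hj
      exact hj.2 hj.1
    exact h2 (hi'.trans hj'.symm)) h0 h0'
  have e1 : (st fun i => φ i || φ' i) = st φ ∪ st φ' := by
    ext i; simp [mem_st]
  have e2 : (st fun i => φ i && φ' i) = st φ ∩ st φ' := by
    ext i; simp [mem_st]
  rw [e1, e2]
  exact h1

theorem zero_of_phi {N : I → Finset I} {d : Finset I → ℤ} (h : SqCond N d) (hd : ∀ S, 0 ≤ d S)
    {col : I → Bool} (hcol : ∀ i j, i ∈ N j → col i ≠ col j) (P : Finset I) (S R : I → Bool)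
    (hz : ∀ a b, d (st (phi P col S R a b)) = 0) : d (st S) = 0 := by
  have hmid : ∀ b, d (st fun i => if i ∈ P then S i else if col i then S i else
      comb b (R i) (S i)) = 0 := by
    intro b
    have ag : ∀ (a a' : Fin 4) (i : I), col i ≠ true →
        phi P col S R a b i = phi P col S R a' b i := by
      intro a a' i hi
      unfold phi
      rw [if_neg hi, if_neg hi]
    have h1 := (lat' h hd hcol true _ _ (ag 0 1) (hz 0 b) (hz 1 b)).1
    have h2 := (lat' h hd hcol true _ _ (ag 2 3) (hz 2 b) (hz 3 b)).1
    have h3 := (lat' h hd hcol true _ _ (fun i hi => by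
      rw [ag 0 2 i hi, ag 1 3 i hi]) h1 h2).2
    convert h3 using 3
    funext i
    unfold phi
    by_cases hP : i ∈ P
    · simp [hP]
    · by_cases hc : col i = true
      · simp only [if_neg hP, if_pos hc]
        exact (comb_id (R i) (S i)).symm
      · simp only [if_neg hP, if_neg hc]
        simp
  have ag : ∀ (b b' : Fin 4) (i : I), col i ≠ false →
      (if i ∈ P then S i else if col i then S i else comb b (R i) (S i)) =
      (if i ∈ P then S i else if col i then S i else comb b' (R i) (S i)) := by
    intro b b' i hi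
    have hc : col i = true := by
      cases hc : col i
      · exact absurd hc hi
      · rfl
    rw [if_pos hc, if_pos hc]
  have h1 := (lat' h hd hcol false _ _ (ag 0 1) (hmid 0) (hmid 1)).1
  have h2 := (lat' h hd hcol false _ _ (ag 2 3) (hmid 2) (hmid 3)).1
  have h3 := (lat' h hd hcol false _ _ (fun i hi => by
    rw [ag 0 2 i hi, ag 1 3 i hi]) h1 h2).2
  convert h3 using 3
  funext i
  by_cases hP : i ∈ P
  · simp [hP]
  · by_cases hc : col i = true
    · simp [hc]
    · simp only [if_neg hP, if_neg hc]
      exact (comb_id (R i) (S i)).symm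

/-- the indicator of a set -/
def ind (S : Finset I) (i : I) : Bool := decide (i ∈ S)

theorem st_ind (S : Finset I) : st (ind S) = S := by
  ext i; simp [mem_st, ind]

theorem ind_inj {S T : Finset I} (h : ∀ i, ind S i = ind T i) : S = T := by
  ext i
  have := h i
  simpa [ind] using this

/-- counting preimages of the auxiliary maps -/
theorem count_phi (P : Finset I) (col : I → Bool) (S : Finset I) (a b : Fin 4)
    (B : Finset (Finset I)) :
    (univ.filter fun R : Finset I => st (phi P col (ind S) (ind R) a b) ∈ B).card ≤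
      2 ^ P.card * B.card := by
  apply card_le_mul_card_image_of_maps_to (f := fun R : Finset I => st (phi P col (ind S) (ind R) a b))
  · intro R hR
    rw [mem_filter] at hR
    exact hR.2
  · intro X _
    rw [← card_powerset]
    apply card_le_card_of_injOn (fun R => R ∩ P)
    · intro R _
      rw [mem_coe, mem_powerset]
      exact inter_subset_right
    · intro R hR R' hR' hRR
      rw [mem_coe, mem_filter] at hR hR'
      have h1 : st (phi P col (ind S) (ind R) a b) = st (phi P col (ind S) (ind R') a b) := by
        rw [hR.2, hR'.2]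
      have h2 : ∀ i, phi P col (ind S) (ind R) a b i = phi P col (ind S) (ind R') a b i := by
        intro i
        have h3 := Finset.ext_iff.mp h1 i
        rw [mem_st, mem_st] at h3
        cases h4 : phi P col (ind S) (ind R) a b i <;>
          cases h5 : phi P col (ind S) (ind R') a b i <;> simp_all
      apply ind_inj
      intro i
      by_cases hP : i ∈ P
      · have h3 := Finset.ext_iff.mp hRR i
        simp only [mem_inter, hP, and_true] at h3
        simp [ind, h3]
      · have h3 := h2 i
        unfold phi at h3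
        rw [if_neg hP, if_neg hP] at h3
        by_cases hc : col i = true
        · rw [if_pos hc, if_pos hc] at h3
          exact comb_inj _ _ _ _ h3
        · rw [if_neg hc, if_neg hc] at h3
          exact comb_inj _ _ _ _ h3

/-- the indicator of `p ∈ S, q ∉ S` -/
def tgt (p q : I) (S : Finset I) : ℤ := if p ∈ S ∧ q ∉ S then 1 else 0

/-- **Rigidity.** A function with values zero and one satisfying the local conditions in all
non-adjacent directions of a bipartite graph that differs from `[p ∈ S, q ∉ S]` on fewer than a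
`1/64` fraction of the sets is equal to it. -/
theorem rigid01 {N : I → Finset I} {c : Finset I → ℤ} (h : SqCond N c)
    (h01 : ∀ S, c S = 0 ∨ c S = 1) {col : I → Bool} (hcol : ∀ i j, i ∈ N j → col i ≠ col j)
    (hsym : ∀ i j, i ∈ N j → j ∈ N i) (hN : ∀ j, (N j).card ≤ 2) (p q : I) (hpq : p ≠ q)
    (hsm : 64 * (univ.filter fun S => c S ≠ tgt p q S).card < 2 ^ Fintype.card I) :
    ∀ S, c S = tgt p q S := by
  unfold tgt at hsm ⊢
  classical
  have hd : ∀ S, 0 ≤ c S := fun S => by rcases h01 S with h' | h' <;> simp [h']
  set B : Finset (Finset I) := univ.filter fun S => c S ≠ if p ∈ S ∧ q ∉ S then 1 else 0 with hB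
  have hcardu : (univ : Finset (Finset I)).card = 2 ^ Fintype.card I := by
    rw [card_univ, Fintype.card_finset]
  -- zeros
  have hz : ∀ S, ¬ (p ∈ S ∧ q ∉ S) → c S = 0 := by
    intro S hS
    by_contra hne
    have h1 : ∀ R : Finset I, ∃ ab : Fin 4 × Fin 4,
        st (phi {p, q} col (ind S) (ind R) ab.1 ab.2) ∈ B := by
      intro R
      by_contra hcon
      push Not at hcon
      apply hne
      rw [← st_ind S]
      apply zero_of_phi h hd hcol {p, q} (ind S) (ind R)
      intro a b
      have h2 := hcon (a, b)
      rw [hB, mem_filter] at h2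
      simp only [mem_univ, true_and, not_not] at h2
      rw [h2, if_neg]
      rw [mem_st, mem_st]
      unfold phi
      simp only [mem_insert, mem_singleton, true_or, or_true, if_true]
      simpa [ind] using hS
    have h2 : (univ : Finset (Finset I)) ⊆ (univ : Finset (Fin 4 × Fin 4)).biUnion fun ab =>
        univ.filter fun R : Finset I => st (phi {p, q} col (ind S) (ind R) ab.1 ab.2) ∈ B := by
      intro R _
      obtain ⟨ab, hab⟩ := h1 R
      rw [mem_biUnion]
      exact ⟨ab, mem_univ _, by rw [mem_filter]; exact ⟨mem_univ _, hab⟩⟩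
    have h3 := (card_le_card h2).trans card_biUnion_le
    have h4 : ∑ ab : Fin 4 × Fin 4, (univ.filter fun R : Finset I =>
        st (phi {p, q} col (ind S) (ind R) ab.1 ab.2) ∈ B).card ≤
        ∑ _ab : Fin 4 × Fin 4, 4 * B.card := by
      refine sum_le_sum fun ab _ => ?_
      have := count_phi {p, q} col S ab.1 ab.2 B
      rwa [card_pair hpq] at this
    rw [hcardu] at h3
    have h5 : ∑ _ab : Fin 4 × Fin 4, 4 * B.card = 64 * B.card := by
      rw [sum_const, card_univ, Fintype.card_prod, Fintype.card_fin, smul_eq_mul]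
      ring
    omega
  -- invariance
  set P : Finset I := insert p (insert q (N p ∪ N q)) with hP
  have hPcard : P.card ≤ 6 := by
    rw [hP]
    have h1 := card_insert_le p (insert q (N p ∪ N q))
    have h2 := card_insert_le q (N p ∪ N q)
    have h3 := card_union_le (N p) (N q)
    have h4 := hN p
    have h5 := hN q
    omega
  have hstep : ∀ (T : Finset I) (j : I), p ∈ T → q ∉ T → j ∉ T → j ∉ P →
      c (insert j T) = c T := by
    intro T j hp hq hj hjP
    rw [hP, mem_insert, mem_insert, mem_union] at hjP
    push Not at hjP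
    obtain ⟨hjp, hjq, hjNp, hjNq⟩ := hjP
    have h1 := h (T.erase p) p j (notMem_erase p T) (fun h' => hj (mem_of_mem_erase h'))
      (Ne.symm hjp) (fun h' => hjNp (hsym _ _ h'))
    rw [show insert p (insert j (T.erase p)) = insert j T by
      rw [Finset.insert_comm, insert_erase hp], insert_erase hp] at h1
    have h2 := hz (T.erase p) (by simp)
    have h3 := hz (insert j (T.erase p)) (by
      rw [mem_insert]
      simp [Ne.symm hjp])
    have h4 := h T q j hq hj (Ne.symm hjq) (fun h' => hjNq (hsym _ _ h'))
    have h5 := hz (insert q T) (by simp)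
    have h6 := hz (insert q (insert j T)) (by simp)
    linarith
  have hadd : ∀ (T : Finset I), p ∈ T → q ∉ T → ∀ U : Finset I, Disjoint T U → Disjoint U P →
      c (T ∪ U) = c T := by
    intro T hp hq U
    induction U using Finset.induction_on with
    | empty => intro _ _; simp
    | insert j U hj ih =>
      intro hTU hUP
      have hjT : j ∉ T := fun h' => (Finset.disjoint_left.mp hTU h') (mem_insert_self j U)
      have hjP : j ∉ P := fun h' => (Finset.disjoint_left.mp hUP (mem_insert_self j U)) h'
      rw [union_insert, hstep (T ∪ U) j (mem_union_left _ hp) ?_ (by simp [hjT, hj]) hjP,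
        ih (hTU.mono_right (subset_insert j U)) (hUP.mono_left (subset_insert j U))]
      rw [mem_union]
      rintro (h' | h')
      · exact hq h'
      · exact (Finset.disjoint_left.mp hUP (mem_insert_of_mem h')) (by rw [hP]; simp)
  have hinv : ∀ (X Y : Finset I), p ∈ X → q ∉ X → (∀ i ∈ P, (i ∈ X ↔ i ∈ Y)) → c X = c Y := by
    intro X Y hp hq hXY
    have hpY : p ∈ Y := (hXY p (by rw [hP]; simp)).mp hp
    have hqY : q ∉ Y := fun h' => hq ((hXY q (by rw [hP]; simp)).mpr h')
    have h1 := hadd (X ∩ Y) (mem_inter.mpr ⟨hp, hpY⟩) (fun h' => hq (mem_inter.mp h').1) (X \ Y)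
      (by rw [disjoint_left]; intro a ha hb; rw [mem_inter] at ha; rw [mem_sdiff] at hb
          exact hb.2 ha.2)
      (by rw [disjoint_left]; intro a ha hb; rw [mem_sdiff] at ha
          exact ha.2 ((hXY a hb).mp ha.1))
    have h2 := hadd (X ∩ Y) (mem_inter.mpr ⟨hp, hpY⟩) (fun h' => hq (mem_inter.mp h').1) (Y \ X)
      (by rw [disjoint_left]; intro a ha hb; rw [mem_inter] at ha; rw [mem_sdiff] at hb
          exact hb.2 ha.1)
      (by rw [disjoint_left]; intro a ha hb; rw [mem_sdiff] at ha
          exact ha.2 ((hXY a hb).mpr ha.1))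
    have e1 : X ∩ Y ∪ X \ Y = X := by ext x; simp; tauto
    have e2 : X ∩ Y ∪ Y \ X = Y := by ext x; simp; tauto
    rw [e1] at h1
    rw [e2] at h2
    rw [h1, h2]
  intro S
  by_cases hS : p ∈ S ∧ q ∉ S
  swap
  · rw [if_neg hS]
    exact hz S hS
  rw [if_pos hS]
  rcases h01 S with h0 | h1
  swap
  · exact h1
  exfalso
  have hall : ∀ R : Finset I, st (phi P col (ind S) (ind R) 0 0) ∈ B := by
    intro R
    have hmem : ∀ i ∈ P, (i ∈ S ↔ i ∈ st (phi P col (ind S) (ind R) 0 0)) := by
      intro i hi
      rw [mem_st]
      unfold phi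
      rw [if_pos hi]
      simp [ind]
    have h2 := hinv S (st (phi P col (ind S) (ind R) 0 0)) hS.1 hS.2 hmem
    have hp' := (hmem p (by rw [hP]; simp)).mp hS.1
    have hq' : q ∉ st (phi P col (ind S) (ind R) 0 0) := fun h' =>
      hS.2 ((hmem q (by rw [hP]; simp)).mpr h')
    rw [hB, mem_filter]
    refine ⟨mem_univ _, ?_⟩
    rw [if_pos ⟨hp', hq'⟩, ← h2, h0]
    norm_num
  have h2 := count_phi P col S 0 0 B
  rw [filter_true_of_mem (fun R _ => hall R), hcardu] at h2
  have h3 : 2 ^ P.card ≤ 2 ^ 6 := Nat.pow_le_pow_right (by norm_num) hPcard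
  have h4 := Nat.mul_le_mul_right B.card h3
  omega

end main

end Pool.Agent.TH712.SM
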