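import Pool.Agent.TH712.SM.Inst
import Pool.Agent.TH712.SM.Psi
import Pool.Agent.TH712.SM.Rig01

/-!
# The coarse part
-/

set_option autoImplicit false
set_option linter.unusedSectionVars false
set_option linter.unusedSimpArgs false
open Finset

namespace Pool.Agent.TH712.SM

/-- the full index type -/
abbrev II (b m : ℕ) : Type := Idx (JJ b) LL (Fin m)

/-- positions of the coordinates on a path -/
def pos {b m : ℕ} : II b m → ℕ
  | Sum.inl (Sum.inl i) => i.val
  | Sum.inl (Sum.inr i) => b + 1 + i.val
  | Sum.inr (Sum.inl x) => 2 * b + 1 + (if x then 1 else 0)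
  | Sum.inr (Sum.inr (Sum.inl _)) => 2 * b + 3
  | Sum.inr (Sum.inr (Sum.inr (Sum.inl l))) => 2 * b + 4 + 2 * l.1.val + (if l.2 then 1 else 0)
  | Sum.inr (Sum.inr (Sum.inr (Sum.inr e))) => 2 * b + 10 + e.val

theorem card_II (b m : ℕ) : Fintype.card (II b m) = 2 * b + 10 + m := by
  simp [II, Idx, JJ, LL]
  ring

theorem pos_lt {b m : ℕ} (i : II b m) : pos i < 2 * b + 10 + m := by
  rcases i with (i | i) | (x | (u | (⟨c, s⟩ | e))) <;> simp only [pos]
  · have := i.isLt; omega
  · have := i.isLt; omega
  · split_ifs <;> omega
  · omega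
  · have := c.isLt
    split_ifs <;> omega
  · have := e.isLt; omega

theorem pos_inj {b m : ℕ} : Function.Injective (pos : II b m → ℕ) := by
  intro i j h
  rcases i with (i | i) | (x | (u | (⟨c, s⟩ | e))) <;>
    rcases j with (i' | i') | (x' | (u' | (⟨c', s'⟩ | e'))) <;> simp only [pos] at h
  · rw [Fin.ext h]
  · have := i.isLt; omega
  · have := i.isLt; split_ifs at h <;> omega
  · have := i.isLt; omega
  · have := i.isLt; split_ifs at h <;> omega
  · have := i.isLt; omega
  · have := i'.isLt; omega
  · have : i.val = i'.val := by omega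
    rw [Fin.ext this]
  · have := i.isLt; split_ifs at h <;> omega
  · have := i.isLt; omega
  · have := i.isLt; split_ifs at h <;> omega
  · have := i.isLt; omega
  · have := i'.isLt; split_ifs at h <;> omega
  · have := i'.isLt; split_ifs at h <;> omega
  · have : x = x' := by cases x <;> cases x' <;> simp_all
    rw [this]
  · split_ifs at h <;> omega
  · split_ifs at h <;> omega
  · split_ifs at h <;> omega
  · have := i'.isLt; omega
  · have := i'.isLt; omega
  · split_ifs at h <;> omega
  · rfl
  · split_ifs at h <;> omega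
  · omega
  · have := i'.isLt; split_ifs at h <;> omega
  · have := i'.isLt; split_ifs at h <;> omega
  · split_ifs at h <;> omega
  · split_ifs at h <;> omega
  · have h1 : c.val = c'.val := by split_ifs at h <;> omega
    have h2 : s = s' := by
      cases s <;> cases s' <;> simp at h ⊢ <;> omega
    rw [Fin.ext h1, h2]
  · have := c.isLt; split_ifs at h <;> omega
  · have := i'.isLt; omega
  · have := i'.isLt; omega
  · split_ifs at h <;> omega
  · omega
  · have := c'.isLt; split_ifs at h <;> omega
  · have : e.val = e'.val := by omega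
    rw [Fin.ext this]

/-- neighbours on the path -/
def nb {b m : ℕ} (j : II b m) : Finset (II b m) :=
  univ.filter fun i => pos i + 1 = pos j ∨ pos j + 1 = pos i

theorem nb_card {b m : ℕ} (j : II b m) : (nb j).card ≤ 2 := by
  have h1 : (nb j).image pos ⊆ {pos j - 1, pos j + 1} := by
    intro x hx
    rw [mem_image] at hx
    obtain ⟨i, hi, rfl⟩ := hx
    rw [nb, mem_filter] at hi
    rw [mem_insert, mem_singleton]
    omega
  have h2 := card_le_card h1
  rw [card_image_of_injective _ pos_inj] at h2
  exact h2.trans (card_le_two)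

/-- the coarse part -/
def Ps {b m : ℕ} (S : Finset (II b m)) : ℤ := (psb (2 * b + 9 + m) (S.image pos) : ℤ)

theorem image_univ_pos {b m : ℕ} :
    (univ : Finset (II b m)).image pos = range (2 * b + 10 + m) := by
  apply eq_of_subset_of_card_le
  · intro x hx
    rw [mem_image] at hx
    obtain ⟨i, _, rfl⟩ := hx
    rw [mem_range]
    exact pos_lt i
  · rw [card_range, card_image_of_injective _ pos_inj, card_univ, card_II]

/-- every digit is the indicator of `p ∈ S, q ∉ S` for two distinct coordinates -/
theorem dg_form {b m : ℕ} (r : ℕ) (hr : r < 2 * (2 * b + 9 + m)) :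
    ∃ p q : II b m, p ≠ q ∧
      ∀ S : Finset (II b m), (dg (S.image pos) r : ℤ) = tgt p q S := by
  have hex : ∀ k < 2 * b + 10 + m, ∃ i : II b m, pos i = k := by
    intro k hk
    have : k ∈ (univ : Finset (II b m)).image pos := by rw [image_univ_pos, mem_range]; exact hk
    rw [mem_image] at this
    obtain ⟨i, _, hi⟩ := this
    exact ⟨i, hi⟩
  obtain ⟨u, hu⟩ := hex (r / 2) (by omega)
  obtain ⟨v, hv⟩ := hex (r / 2 + 1) (by omega)
  have huv : u ≠ v := by
    intro h
    rw [h, hv] at hu
    omega
  have hmem : ∀ (S : Finset (II b m)) (i : II b m), pos i ∈ S.image pos ↔ i ∈ S := by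
    intro S i
    rw [mem_image]
    exact ⟨fun ⟨x, hx, h⟩ => pos_inj h ▸ hx, fun h => ⟨i, h, rfl⟩⟩
  by_cases h0 : r % 2 = 0
  · refine ⟨u, v, huv, fun S => ?_⟩
    unfold dg tgt
    rw [if_pos h0, ← hu, show pos u + 1 = pos v by rw [hu, hv]]
    have key : (pos u ∈ S.image pos ∧ pos v ∉ S.image pos) ↔ (u ∈ S ∧ v ∉ S) := by
      rw [hmem, hmem]
    by_cases h : u ∈ S ∧ v ∉ S
    · rw [if_pos (key.mpr h), if_pos h]; rfl
    · rw [if_neg (fun h' => h (key.mp h')), if_neg h]; rfl
  · refine ⟨v, u, huv.symm, fun S => ?_⟩
    unfold dg tgt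
    rw [if_neg h0, ← hu, show pos u + 1 = pos v by rw [hu, hv]]
    have key : (pos u ∉ S.image pos ∧ pos v ∈ S.image pos) ↔ (v ∈ S ∧ u ∉ S) := by
      rw [hmem, hmem]
      exact and_comm
    by_cases h : v ∈ S ∧ u ∉ S
    · rw [if_pos (key.mpr h), if_pos h]; rfl
    · rw [if_neg (fun h' => h (key.mp h')), if_neg h]; rfl

/-- **Rigidity of the coarse part** -/
theorem rig_Ps {b m : ℕ} (S₀ : Finset (II b m) → Finset (II b m))
    (hsq : SqCond nb (fun S => Ps (S₀ S)))
    (hsm : 64 * (univ.filter fun S => Ps (S₀ S) ≠ Ps S).card < 2 ^ Fintype.card (II b m)) :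
    ∀ S, Ps (S₀ S) = Ps S := by
  classical
  have key : ∀ k r, r < 2 * (2 * b + 9 + m) → 2 * (2 * b + 9 + m) - r ≤ k →
      ∀ S, dg ((S₀ S).image pos) r = dg (S.image pos) r := by
    intro k
    induction k with
    | zero => intro r hr hk; omega
    | succ k ih =>
      intro r hr hk
      have ih' : ∀ i, r < i → i < 2 * (2 * b + 9 + m) → ∀ S,
          dg ((S₀ S).image pos) i = dg (S.image pos) i := fun i h1 h2 => ih i h2 (by omega)
      obtain ⟨p, q, hpq, hform⟩ := dg_form (b := b) (m := m) r hr
      have hc : SqCond nb (fun S => (dg ((S₀ S).image pos) r : ℤ)) := by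
        intro S i j hi hj hij hN
        have h1 := hsq S i j hi hj hij hN
        unfold Ps psb at h1
        simp only at h1 ⊢
        push_cast at h1
        have h2 : 0 ≤ ∑ a ∈ range (2 * (2 * b + 9 + m)), (3 : ℤ) ^ a *
            ((dg ((S₀ (insert i S)).image pos) a : ℤ) + (dg ((S₀ (insert j S)).image pos) a : ℤ) -
              (dg ((S₀ S).image pos) a : ℤ) -
              (dg ((S₀ (insert i (insert j S))).image pos) a : ℤ)) := by
          rw [show (fun a => (3 : ℤ) ^ a *
            ((dg ((S₀ (insert i S)).image pos) a : ℤ) + (dg ((S₀ (insert j S)).image pos) a : ℤ) -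
              (dg ((S₀ S).image pos) a : ℤ) -
              (dg ((S₀ (insert i (insert j S))).image pos) a : ℤ))) = fun a =>
            (3 : ℤ) ^ a * (dg ((S₀ (insert i S)).image pos) a : ℤ) +
            3 ^ a * (dg ((S₀ (insert j S)).image pos) a : ℤ) -
            3 ^ a * (dg ((S₀ S).image pos) a : ℤ) -
            3 ^ a * (dg ((S₀ (insert i (insert j S))).image pos) a : ℤ) from
            funext fun a => by ring, sum_sub_distrib, sum_sub_distrib, sum_add_distrib]
          linarith
        have h3 := lex (2 * (2 * b + 9 + m)) r hr _ ?_ ?_ h2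
        · linarith
        · intro a
          have a1 := dg_le ((S₀ (insert i S)).image pos) a
          have a2 := dg_le ((S₀ (insert j S)).image pos) a
          have a3 : (0 : ℤ) ≤ dg ((S₀ S).image pos) a := Int.natCast_nonneg _
          have a4 : (0 : ℤ) ≤ dg ((S₀ (insert i (insert j S))).image pos) a :=
            Int.natCast_nonneg _
          have a1' : (dg ((S₀ (insert i S)).image pos) a : ℤ) ≤ 1 := by exact_mod_cast a1
          have a2' : (dg ((S₀ (insert j S)).image pos) a : ℤ) ≤ 1 := by exact_mod_cast a2
          linarith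
        · intro a ha ha'
          rw [ih' a ha ha', ih' a ha ha', ih' a ha ha', ih' a ha ha']
          rw [image_insert pos i (insert j S), image_insert pos i S, image_insert pos j S]
          rw [nb, mem_filter] at hN
          push Not at hN
          have h' := hN (mem_univ i)
          have := dg_sq_eq (S.image pos) (pos i) (pos j) a
            (by rw [mem_image]; rintro ⟨x, hx, h⟩; exact hi (pos_inj h ▸ hx))
            (by rw [mem_image]; rintro ⟨x, hx, h⟩; exact hj (pos_inj h ▸ hx))
            (fun h => hij (pos_inj h)) h'.1 h'.2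
          have h'' : ((dg (S.image pos) a : ℤ) +
              dg (insert (pos i) (insert (pos j) (S.image pos))) a) =
              dg (insert (pos i) (S.image pos)) a + dg (insert (pos j) (S.image pos)) a := by
            exact_mod_cast this
          linarith
      have h01 : ∀ S : Finset (II b m), (dg ((S₀ S).image pos) r : ℤ) = 0 ∨
          (dg ((S₀ S).image pos) r : ℤ) = 1 := by
        intro S
        have := dg_le ((S₀ S).image pos) r
        omega
      have hfin := rigid01 hc h01 (col := fun i => decide (pos i % 2 = 0)) (by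
        intro i j hN
        rw [nb, mem_filter] at hN
        rcases hN.2 with h' | h'
        · by_cases h1 : pos i % 2 = 0
          · have h2 : ¬ pos j % 2 = 0 := by omega
            simp [h1, h2]
          · have h2 : pos j % 2 = 0 := by omega
            simp [h1, h2]
        · by_cases h1 : pos i % 2 = 0
          · have h2 : ¬ pos j % 2 = 0 := by omega
            simp [h1, h2]
          · have h2 : pos j % 2 = 0 := by omega
            simp [h1, h2]) (by
        intro i j hN
        rw [nb, mem_filter] at hN ⊢
        exact ⟨mem_univ _, hN.2.symm⟩) nb_card p q hpq (by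
        refine lt_of_le_of_lt (Nat.mul_le_mul_left _ (card_le_card ?_)) hsm
        intro S hS
        rw [mem_filter] at hS ⊢
        refine ⟨mem_univ _, fun h => hS.2 ?_⟩
        unfold Ps at h
        have h' : psb (2 * b + 9 + m) ((S₀ S).image pos) = psb (2 * b + 9 + m) (S.image pos) := by
          exact_mod_cast h
        rw [psb_digits _ _ _ h' r hr]
        exact hform S)
      intro S
      have h1 := hfin S
      rw [← hform S] at h1
      exact_mod_cast h1
  intro S
  unfold Ps psb
  have : ∀ r ∈ range (2 * (2 * b + 9 + m)), 3 ^ r * dg ((S₀ S).image pos) r =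
      3 ^ r * dg (S.image pos) r := by
    intro r hr
    rw [mem_range] at hr
    rw [key _ r hr le_rfl S]
  rw [sum_congr rfl this]

theorem psiOk (b m : ℕ) : PsiOk (nb : II b m → Finset (II b m)) Ps where
  nonneg S := Int.natCast_nonneg _
  sq S i j hi hj hij := by
    unfold Ps
    rw [image_insert, image_insert, image_insert]
    have := psb_sq (2 * b + 9 + m) (S.image pos) (pos i) (pos j)
      (by rw [mem_image]; rintro ⟨x, hx, h⟩; exact hi (pos_inj h ▸ hx))
      (by rw [mem_image]; rintro ⟨x, hx, h⟩; exact hj (pos_inj h ▸ hx))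
      (fun h => hij (pos_inj h))
    exact_mod_cast this
  sqeq S i j hi hj hij hN := by
    rw [nb, mem_filter] at hN
    push Not at hN
    have h' := hN (mem_univ i)
    unfold Ps
    rw [image_insert, image_insert, image_insert]
    have := psb_sq_eq (2 * b + 9 + m) (S.image pos) (pos i) (pos j)
      (by rw [mem_image]; rintro ⟨x, hx, h⟩; exact hi (pos_inj h ▸ hx))
      (by rw [mem_image]; rintro ⟨x, hx, h⟩; exact hj (pos_inj h ▸ hx))
      (fun h => hij (pos_inj h)) h'.1 h'.2
    exact_mod_cast this
  empty := by unfold Ps; rw [image_empty, psb_empty]; rfl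
  inj S T h h0 h1 := by
    unfold Ps at h
    have h' : psb (2 * b + 9 + m) (S.image pos) = psb (2 * b + 9 + m) (T.image pos) := by
      exact_mod_cast h
    have hsub : ∀ S : Finset (II b m), S.image pos ⊆ range ((2 * b + 9 + m) + 1) := by
      intro S
      rw [show (2 * b + 9 + m) + 1 = 2 * b + 10 + m by ring, ← image_univ_pos]
      exact image_subset_image (subset_univ S)
    have := psb_inj _ _ _ (hsub S) (hsub T) h' (by rwa [Ne, image_eq_empty]) (by
      rw [show (2 * b + 9 + m) + 1 = 2 * b + 10 + m by ring, ← image_univ_pos]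
      intro h2
      exact h1 (image_injective pos_inj h2))
    exact image_injective pos_inj this
  rig := rig_Ps
  hJL j l := by
    rw [nb, mem_filter]
    rintro ⟨_, h⟩
    rcases j with i | i
    · have := i.isLt
      simp only [pos] at h
      omega
    · have := i.isLt
      simp only [pos] at h
      omega
  hLk l x := by
    rw [nb, mem_filter]
    rintro ⟨_, h⟩
    simp only [pos] at h
    split_ifs at h <;> omega

end Pool.Agent.TH712.SM
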