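import Pool.Agent.TH712.SM.Model
import Pool.Agent.TH712.SM.Inst2
import Pool.Agent.TH712.SM.Pos

/-!
# The lower bound
-/

set_option autoImplicit false
set_option linter.unusedSectionVars false
set_option linter.unusedSimpArgs false
open Finset MeasureTheory

noncomputable section

namespace Pool.Agent.TH712.SM

namespace DT
variable {n : ℕ}

open scoped Classical in
/-- the set of queried points -/
def qs : DT n → (Finset (Fin n) → ℝ) → Finset (Finset (Fin n))
  | leaf _, _ => ∅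
  | ask S k, f => insert S ((k (f S)).qs f)

theorem qs_card (T : DT n) (f : Finset (Fin n) → ℝ) : (T.qs f).card ≤ T.cost f := by
  classical
  induction T with
  | leaf b => simp [qs, cost]
  | ask S k ih =>
    simp only [qs, cost]
    refine (card_insert_le _ _).trans ?_
    have := ih (f S)
    omega

theorem congr (T : DT n) (f f' : Finset (Fin n) → ℝ) (h : ∀ S ∈ T.qs f, f S = f' S) :
    T.run f' = T.run f ∧ T.qs f' = T.qs f := by
  classical
  induction T with
  | leaf b => exact ⟨rfl, rfl⟩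
  | ask S k ih =>
    simp only [qs, mem_insert, forall_eq_or_imp] at h
    have h1 := ih (f S) h.2
    simp only [run, qs]
    rw [← h.1]
    exact ⟨h1.1, by rw [h1.2]⟩

end DT

/-! ### transport -/

section transport
variable {n : ℕ} {I : Type} [Fintype I] [DecidableEq I] (e : Fin n ≃ I)

/-- transported function -/
def tr (f : Finset I → ℤ) (S : Finset (Fin n)) : ℝ := (f (S.map e.toEmbedding) : ℝ)

theorem tr_submod (f : Finset I → ℤ) (hf : Sub f) : Submod (tr e f) := by
  intro S T i hST hi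
  unfold tr
  rw [map_insert, map_insert]
  have := hf (S.map e.toEmbedding) (T.map e.toEmbedding) (e i) (map_subset_map.mpr hST)
    (by simpa using hi)
  exact_mod_cast this

theorem sub_of_submod (g : Finset (Fin n) → ℝ) (h : Finset (Fin n) → ℤ) (hgh : ∀ S, g S = h S)
    (hg : Submod g) : Sub (fun S : Finset I => h (S.map e.symm.toEmbedding)) := by
  intro S T i hST hi
  simp only [map_insert]
  have := hg (S.map e.symm.toEmbedding) (T.map e.symm.toEmbedding) (e.symm i)
    (map_subset_map.mpr hST) (by simpa using hi)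
  rw [hgh, hgh, hgh, hgh] at this
  exact_mod_cast this

theorem ndiff_tr (f : Finset I → ℤ) (g : Finset (Fin n) → ℝ) (h : Finset (Fin n) → ℤ)
    (hgh : ∀ S, g S = h S) :
    ndiff (tr e f) g =
      (univ.filter fun S : Finset I => h (S.map e.symm.toEmbedding) ≠ f S).card := by
  classical
  unfold ndiff
  rw [Nat.card_eq_fintype_card, Fintype.card_subtype]
  refine card_bij' (fun S _ => S.map e.toEmbedding) (fun S _ => S.map e.symm.toEmbedding)
    ?_ ?_ ?_ ?_
  · intro S hS
    rw [mem_filter] at hS ⊢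
    refine ⟨mem_univ _, ?_⟩
    intro h1
    apply hS.2
    unfold tr
    rw [hgh, ← h1]
    simp [map_map]
  · intro S hS
    rw [mem_filter] at hS ⊢
    refine ⟨mem_univ _, ?_⟩
    intro h1
    apply hS.2
    unfold tr at h1
    rw [hgh] at h1
    have h2 : f ((S.map e.symm.toEmbedding).map e.toEmbedding) = h (S.map e.symm.toEmbedding) := by
      exact_mod_cast h1
    rw [← h2]
    simp [map_map]
  · intro S _
    simp [map_map]
  · intro S _
    simp [map_map]

end transport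

/-! ### the instances -/

section inst
variable {F : Type} [Field F] [Fintype F] [DecidableEq F]

/-- extension by zero -/
def ex {M : ℕ} (x : Fin M → F) (k : ℕ) : F := if h : k < M then x ⟨k, h⟩ else 0

/-- the embedded function of a vector -/
def ff (g : F) (b m : ℕ) (x : ℕ → F) (l : ℕ) : Finset (II b m) → ℤ :=
  (CC g b).F Ps (tab g b x l)

/-- the range -/
def Rg (g : F) (b m : ℕ) : Set ℤ :=
  {r | r = 0 ∨ ∃ (S : Finset (II b m)) (τ : F × F), (CC g b).ok (Wf S) τ ∧
    r = (CC g b).K * Ps S + (CC g b).gS S τ}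

theorem Rg_nonneg (g : F) (b m : ℕ) : ∀ r ∈ Rg g b m, 0 ≤ r := by
  rintro r (rfl | ⟨S, τ, _, rfl⟩)
  · exact le_rfl
  have h1 := (CC g b).K_nonneg
  have h2 : 0 ≤ Ps S := (psiOk b m).nonneg S
  have h3 : 0 ≤ (CC g b).gS S τ := (CC g b).gf_nonneg _ _ _ _ _
  positivity

/-- the real range -/
def RR (g : F) (b m : ℕ) : Set ℝ := (fun z : ℤ => (z : ℝ)) '' Rg g b m

theorem ff_mem (g : F) (b m : ℕ) (x : ℕ → F) (l : ℕ) (hl : 1 ≤ l) (hl' : l < 2 ^ (b + 1))
    (hx : ∀ j < 2 ^ b - 1, pre g x (2 ^ (b + 1)) j = 0) (S : Finset (II b m)) :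
    ff g b m x l S ∈ Rg g b m :=
  Or.inr ⟨S, tab g b x l (Wf S), tab_ok g b x l hl hl' hx (Wf S), rfl⟩

theorem ff_sub (g : F) (b m : ℕ) (x : ℕ → F) (l : ℕ)
    (hx : ∀ j < 2 ^ b, pre g x (2 ^ (b + 1)) j = 0) : Sub (ff g b m x l) := by
  apply (CC g b).F_sub (psiOk b m)
  apply tab_links
  apply hx
  have : 0 < 2 ^ b := by positivity
  omega

theorem ff_far (g : F) (b m : ℕ) (hm1 : 1 ≤ m) (hm2 : m ≤ 2)
    (hinj : ∀ i < 2 ^ (b + 1), ∀ j < 2 ^ (b + 1), g ^ i = g ^ j → i = j)
    (x : ℕ → F) (l : ℕ)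
    (hx : ∀ j < 2 ^ b - 1, pre g x (2 ^ (b + 1)) j = 0)
    (hx1 : pre g x (2 ^ (b + 1)) (2 ^ b - 1) = 1)
    (f' : Finset (II b m) → ℤ) (hf' : Sub f') (hR : ∀ S, f' S ∈ Rg g b m) :
    2 ^ (2 * b + 10 + m) ≤ 64 * (univ.filter fun S => f' S ≠ ff g b m x l S).card := by
  by_contra hcon
  push Not at hcon
  have : Nonempty (Fin m) := ⟨⟨0, by omega⟩⟩
  obtain ⟨t', hok, hlinks, hcard⟩ := (CC g b).sound (psiOk b m) (tab g b x l) f' hf'
    (fun S => hR S) (by rw [card_II]; exact hcon)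
  have h1 := far_tab g b hinj x l hx hx1 t' hlinks hok
  have h2 : Fintype.card LL = 6 := by simp [LL]
  rw [h2] at hcard
  have h3 : 2 ^ b * 2 ^ b * 2 ^ 6 ≤ (univ.filter fun S => f' S ≠ ff g b m x l S).card :=
    (Nat.mul_le_mul_right _ h1).trans hcard
  have h4 : 64 * (2 ^ b * 2 ^ b * 2 ^ 6) < 2 ^ (2 * b + 10 + m) :=
    lt_of_le_of_lt (Nat.mul_le_mul_left _ h3) hcon
  have h5 : 2 ^ (2 * b + 10 + m) = 2 ^ (4 + m) * (2 ^ b * 2 ^ b * 2 ^ 6) := by
    rw [← pow_add, ← pow_add, ← pow_add]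
    congr 1
    ring
  rw [h5] at h4
  have h6 := Nat.lt_of_mul_lt_mul_right h4
  have h7 : 2 ^ (4 + m) ≤ 2 ^ 6 := Nat.pow_le_pow_right (by norm_num) (by omega)
  omega

end inst

end Pool.Agent.TH712.SM
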