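import Pool.Agent.TH712.SM.Lower

/-!
# Coupling of the two families of instances
-/

set_option autoImplicit false
set_option linter.unusedSectionVars false
set_option linter.unusedSimpArgs false
open Finset MeasureTheory

noncomputable section

namespace Pool.Agent.TH712.SM

/-- window length -/
def wQ (D : ℕ) (Q : Finset (ℕ × ℕ)) : ℕ := (insert (D - 1) (Q.image Prod.snd)).card

/-- `l` is good for the queries `Q` -/
def goodL (D : ℕ) (Q : Finset (ℕ × ℕ)) (l : ℕ) : Prop :=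
  wQ D Q ≤ l ∧ ∀ p ∈ Q, ¬ (l - wQ D Q ≤ p.1 ∧ p.1 < l)

theorem wQ_le (D : ℕ) (Q : Finset (ℕ × ℕ)) (q : ℕ) (hq : Q.card ≤ q) : wQ D Q ≤ q + 1 := by
  unfold wQ
  refine (card_insert_le _ _).trans ?_
  have := card_image_le (s := Q) (f := Prod.snd)
  omega

open scoped Classical in
theorem bad_card (D M : ℕ) (Q : Finset (ℕ × ℕ)) (q : ℕ) (hq : Q.card ≤ q) :
    ((Ico 1 M).filter fun l => ¬ goodL D Q l).card ≤ q * q + 2 * q := by
  have hw := wQ_le D Q q hq
  have hsub : ((Ico 1 M).filter fun l => ¬ goodL D Q l) ⊆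
      Ico 1 (wQ D Q) ∪ Q.biUnion fun p => Ioc p.1 (p.1 + wQ D Q) := by
    intro l hl
    rw [mem_filter, mem_Ico] at hl
    rw [mem_union, mem_Ico, mem_biUnion]
    by_cases h : wQ D Q ≤ l
    · right
      have h2 := hl.2
      unfold goodL at h2
      push Not at h2
      obtain ⟨p, hp, h3, h4⟩ := h2 h
      exact ⟨p, hp, by rw [mem_Ioc]; omega⟩
    · left
      omega
  have h1 := card_le_card hsub
  have h2 : (Q.biUnion fun p => Ioc p.1 (p.1 + wQ D Q)).card ≤ q * (q + 1) := by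
    refine card_biUnion_le.trans ?_
    calc _ ≤ ∑ _p ∈ Q, (q + 1) := by
          refine sum_le_sum fun p _ => ?_
          rw [Nat.card_Ioc]; omega
      _ = Q.card * (q + 1) := by rw [sum_const, smul_eq_mul]
      _ ≤ q * (q + 1) := Nat.mul_le_mul_right _ hq
  have h3 := h1.trans (card_union_le _ _)
  rw [Nat.card_Ico] at h3
  have h4 : wQ D Q - 1 ≤ q := by omega
  nlinarith

variable {F : Type} [Field F] [Fintype F] [DecidableEq F]

/-- the shift property -/
def ShiftP (g : F) (M D : ℕ) (Q : Finset (ℕ × ℕ)) (l : ℕ) (z : ℕ → F) : Prop :=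
  (∀ j < D, pre g z M j = if j = D - 1 then 1 else 0) ∧
    ∀ p ∈ Q, z p.1 = 0 ∧ pre g z p.1 p.2 = if p.2 = D - 1 ∧ l ≤ p.1 then 1 else 0

open scoped Classical in
/-- a chosen shift -/
def zc (g : F) (M D : ℕ) (Q : Finset (ℕ × ℕ)) (l : ℕ) : ℕ → F :=
  if h : ∃ z, ShiftP g M D Q l z then Classical.choose h else 0

theorem zc_spec (g : F) (M D : ℕ) (Q : Finset (ℕ × ℕ)) (l : ℕ) (h : ∃ z, ShiftP g M D Q l z) :
    ShiftP g M D Q l (zc g M D Q l) := by
  unfold zc
  rw [dif_pos h]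
  exact Classical.choose_spec h

theorem ex_add {M : ℕ} (x : Fin M → F) (z : ℕ → F) (k : ℕ) (hk : k < M) :
    ex (fun i : Fin M => x i + z i) k = ex x k + z k := by
  unfold ex
  rw [dif_pos hk, dif_pos hk]

theorem pre_ex_add (g : F) {M : ℕ} (x : Fin M → F) (z : ℕ → F) (k j : ℕ) (hk : k ≤ M) :
    pre g (ex (fun i : Fin M => x i + z i)) k j = pre g (ex x) k j + pre g z k j := by
  rw [← pre_add]
  apply pre_congr
  intro i hi
  exact ex_add x z i (by omega)

/-- shifting does not change the table at the queried nodes -/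
theorem tab_shift (g : F) (b : ℕ) (x : Fin (2 ^ (b + 1)) → F) (z : ℕ → F) (l : ℕ)
    (Q : Finset (ℕ × ℕ)) (hz : ShiftP g (2 ^ (b + 1)) (2 ^ b) Q l z)
    (hx : pre g (ex x) (2 ^ (b + 1)) (2 ^ b - 1) = 0) (W : Finset (JJ b))
    (hW : (rk (b + 1) (uW W), jv (vW W)) ∈ Q) :
    tab g b (ex (fun i : Fin (2 ^ (b + 1)) => x i + z i)) l W = tab g b (ex x) l W := by
  have hD : 0 < 2 ^ b := by positivity
  have h1 := hz.1 (2 ^ b - 1) (by omega)
  rw [if_pos rfl] at h1
  obtain ⟨h2, h3⟩ := hz.2 _ hW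
  simp only at h2 h3
  have hlt := rk_lt (b + 1) (uW W)
  unfold tab
  rw [pre_ex_add g x z _ _ hlt.le, pre_ex_add g x z _ _ le_rfl, ex_add x z _ hlt, h1, hx, h2, h3]
  ext
  · simp only
    split_ifs <;> ring
  · simp

/-- the code -/
def X0 (g : F) (b : ℕ) : Set (Fin (2 ^ (b + 1)) → F) :=
  {x | ∀ j < 2 ^ b, pre g (ex x) (2 ^ (b + 1)) j = 0}

/-- the coset -/
def X1 (g : F) (b : ℕ) : Set (Fin (2 ^ (b + 1)) → F) :=
  {x | ∀ j < 2 ^ b, pre g (ex x) (2 ^ (b + 1)) j = if j = 2 ^ b - 1 then 1 else 0}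

theorem shift_mem (g : F) (b : ℕ) (x : Fin (2 ^ (b + 1)) → F) (hx : x ∈ X0 g b) (z : ℕ → F)
    (hz : ∀ j < 2 ^ b, pre g z (2 ^ (b + 1)) j = if j = 2 ^ b - 1 then 1 else 0) :
    (fun i : Fin (2 ^ (b + 1)) => x i + z i) ∈ X1 g b := by
  intro j hj
  rw [pre_ex_add g x z _ _ le_rfl, hx j hj, hz j hj, zero_add]

section couple
variable {n : ℕ} (g : F) (b m : ℕ) (e : Fin n ≃ II b m)

/-- instances -/
def fr (x : Fin (2 ^ (b + 1)) → F) (l : ℕ) : Finset (Fin n) → ℝ := tr e (ff g b m (ex x) l)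

/-- node of a query -/
def node (S : Finset (Fin n)) : ℕ × ℕ :=
  (rk (b + 1) (uW (Wf (S.map e.toEmbedding))), jv (vW (Wf (S.map e.toEmbedding))))

/-- queried nodes -/
def QQ (T : DT n) (f : Finset (Fin n) → ℝ) : Finset (ℕ × ℕ) := (T.qs f).image (node b m e)

theorem QQ_card (T : DT n) (f : Finset (Fin n) → ℝ) : (QQ b m e T f).card ≤ T.cost f :=
  card_image_le.trans (T.qs_card f)

theorem QQ_lt (T : DT n) (f : Finset (Fin n) → ℝ) : ∀ p ∈ QQ b m e T f, p.2 < 2 ^ b := by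
  intro p hp
  unfold QQ at hp
  rw [mem_image] at hp
  obtain ⟨S, _, rfl⟩ := hp
  exact jv_lt _

theorem exists_shift (hg : g ≠ 0)
    (hinj : ∀ i < 2 ^ (b + 1), ∀ j < 2 ^ (b + 1), g ^ i = g ^ j → i = j)
    (Q : Finset (ℕ × ℕ)) (hQ : ∀ p ∈ Q, p.2 < 2 ^ b) (q : ℕ) (hQq : Q.card ≤ q)
    (hq : q * q + 3 * q + 1 ≤ 2 ^ b) (l : ℕ) (hl : l < 2 ^ (b + 1)) (hgood : goodL (2 ^ b) Q l) :
    ∃ z, ShiftP g (2 ^ (b + 1)) (2 ^ b) Q l z := by
  have hw := wQ_le (2 ^ b) Q q hQq
  have h2 : 2 ^ (b + 1) = 2 ^ b + 2 ^ b := by ring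
  have h3 : Q.card * (wQ (2 ^ b) Q + 1) ≤ q * (q + 2) :=
    Nat.mul_le_mul hQq (by omega)
  obtain ⟨z, hz1, hz2⟩ := good g hg (2 ^ (b + 1)) (2 ^ b) Nat.one_le_two_pow
    (Nat.pow_le_pow_right (by norm_num) (by omega)) hinj Q hQ l (wQ (2 ^ b) Q) hl.le rfl hgood.1
    hgood.2 (by nlinarith)
  exact ⟨z, hz1, hz2⟩

/-- the shifted instance is not distinguished -/
theorem same_view (T : DT n) (x : Fin (2 ^ (b + 1)) → F) (hx : x ∈ X0 g b) (l : ℕ) (z : ℕ → F)
    (hz : ShiftP g (2 ^ (b + 1)) (2 ^ b) (QQ b m e T (fr g b m e x l)) l z) :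
    T.run (fr g b m e (fun i : Fin (2 ^ (b + 1)) => x i + z i) l) = T.run (fr g b m e x l) ∧
    QQ b m e T (fr g b m e (fun i : Fin (2 ^ (b + 1)) => x i + z i) l) =
      QQ b m e T (fr g b m e x l) := by
  have h := T.congr (fr g b m e x l) (fr g b m e (fun i : Fin (2 ^ (b + 1)) => x i + z i) l) (by
    intro S hS
    unfold fr tr ff Csp.F
    rw [tab_shift g b x z l _ hz (hx _ (by
      have : 0 < 2 ^ b := by positivity
      omega)) (Wf (S.map e.toEmbedding))]
    unfold QQ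
    rw [mem_image]
    exact ⟨S, hS, rfl⟩)
  refine ⟨h.1, ?_⟩
  unfold QQ
  rw [h.2]

/-- for vectors in the code the position does not matter -/
theorem fr_indep (x : Fin (2 ^ (b + 1)) → F) (hx : x ∈ X0 g b) (l : ℕ) :
    fr g b m e x l = fr g b m e x 1 := by
  have h : tab g b (ex x) l = tab g b (ex x) 1 := by
    funext W
    unfold tab
    rw [hx (2 ^ b - 1) (by have : 0 < 2 ^ b := by positivity
                           omega)]
    simp
  unfold fr ff
  rw [h]

open scoped Classical in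
/-- pairs of a vector in the code and a position -/
def P0 : Finset ((Fin (2 ^ (b + 1)) → F) × ℕ) :=
  (univ.filter fun x => x ∈ X0 g b) ×ˢ Ico 1 (2 ^ (b + 1))

open scoped Classical in
/-- pairs of a vector in the coset and a position -/
def P1 : Finset ((Fin (2 ^ (b + 1)) → F) × ℕ) :=
  (univ.filter fun x => x ∈ X1 g b) ×ˢ Ico 1 (2 ^ (b + 1))

open scoped Classical in
theorem couple (hg : g ≠ 0)
    (hinj : ∀ i < 2 ^ (b + 1), ∀ j < 2 ^ (b + 1), g ^ i = g ^ j → i = j)
    (q : ℕ) (hq : q * q + 3 * q + 1 ≤ 2 ^ b) (T : DT n)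
    (hT : ∀ p ∈ P0 g b, T.cost (fr g b m e p.1 p.2) ≤ q) :
    ((P0 g b).filter fun p => T.run (fr g b m e p.1 p.2) = true).card ≤
      ((P1 g b).filter fun p => T.run (fr g b m e p.1 p.2) = true).card +
        (univ.filter fun x : Fin (2 ^ (b + 1)) → F => x ∈ X0 g b).card * (q * q + 2 * q) := by
  set G : (Fin (2 ^ (b + 1)) → F) × ℕ → Prop := fun p =>
    goodL (2 ^ b) (QQ b m e T (fr g b m e p.1 p.2)) p.2 with hG
  set A := (P0 g b).filter fun p => T.run (fr g b m e p.1 p.2) = true with hA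
  have hsplit := card_filter_add_card_filter_not (s := A) (p := G)
  rw [← hsplit]
  apply Nat.add_le_add
  · -- good pairs
    apply card_le_card_of_injOn (fun p => ((fun i : Fin (2 ^ (b + 1)) => p.1 i +
      zc g (2 ^ (b + 1)) (2 ^ b) (QQ b m e T (fr g b m e p.1 p.2)) p.2 i), p.2))
    · intro p hp
      rw [mem_coe, mem_filter, hA, mem_filter] at hp
      obtain ⟨⟨hp0, hacc⟩, hgd⟩ := hp
      have hp0' := hp0
      rw [P0, mem_product, mem_filter, mem_Ico] at hp0'
      have hsh := zc_spec g (2 ^ (b + 1)) (2 ^ b) (QQ b m e T (fr g b m e p.1 p.2)) p.2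
        (exists_shift g b hg hinj _ (QQ_lt b m e T _) q ((QQ_card b m e T _).trans (hT p hp0)) hq
          p.2 hp0'.2.2 hgd)
      rw [mem_coe, mem_filter, P1, mem_product, mem_filter, mem_Ico]
      refine ⟨⟨⟨mem_univ _, shift_mem g b p.1 hp0'.1.2 _ hsh.1⟩, hp0'.2⟩, ?_⟩
      exact (same_view g b m e T p.1 hp0'.1.2 p.2 _ hsh).1.trans hacc
    · intro p hp p' hp' hpp
      rw [mem_coe, mem_filter, hA, mem_filter] at hp hp'
      obtain ⟨⟨hp0, _⟩, hgd⟩ := hp
      obtain ⟨⟨hp0'', _⟩, hgd'⟩ := hp'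
      have hp0' := hp0
      have hp0''' := hp0''
      rw [P0, mem_product, mem_filter, mem_Ico] at hp0' hp0'''
      have hsh := zc_spec g (2 ^ (b + 1)) (2 ^ b) (QQ b m e T (fr g b m e p.1 p.2)) p.2
        (exists_shift g b hg hinj _ (QQ_lt b m e T _) q ((QQ_card b m e T _).trans (hT p hp0)) hq
          p.2 hp0'.2.2 hgd)
      have hsh' := zc_spec g (2 ^ (b + 1)) (2 ^ b) (QQ b m e T (fr g b m e p'.1 p'.2)) p'.2
        (exists_shift g b hg hinj _ (QQ_lt b m e T _) q ((QQ_card b m e T _).trans (hT p' hp0'')) hq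
          p'.2 hp0'''.2.2 hgd')
      have v := (same_view g b m e T p.1 hp0'.1.2 p.2 _ hsh).2
      have v' := (same_view g b m e T p'.1 hp0'''.1.2 p'.2 _ hsh').2
      simp only [Prod.mk.injEq] at hpp
      obtain ⟨h1, h2⟩ := hpp
      rw [h1, h2] at v
      rw [v'] at v
      -- the queried nodes agree, so the shifts agree
      rw [h2, ← v] at h1
      have h3 : p.1 = p'.1 := by
        funext i
        have := congrFun h1 i
        simpa using this
      exact Prod.ext h3 h2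
  · -- bad pairs
    calc (A.filter fun p => ¬ G p).card
        ≤ ((univ.filter fun x : Fin (2 ^ (b + 1)) → F => x ∈ X0 g b).biUnion fun x =>
            ((Ico 1 (2 ^ (b + 1))).filter fun l =>
              ¬ goodL (2 ^ b) (QQ b m e T (fr g b m e x 1)) l).image fun l => (x, l)).card := by
          apply card_le_card
          intro p hp
          rw [mem_filter, hA, mem_filter, P0, mem_product, mem_filter] at hp
          obtain ⟨⟨⟨⟨_, hx⟩, hl⟩, _⟩, hbad⟩ := hp
          rw [mem_biUnion]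
          refine ⟨p.1, by rw [mem_filter]; exact ⟨mem_univ _, hx⟩, ?_⟩
          rw [mem_image]
          refine ⟨p.2, ?_, rfl⟩
          rw [mem_filter]
          refine ⟨hl, ?_⟩
          rw [← fr_indep g b m e p.1 hx p.2]
          exact hbad
      _ ≤ ∑ x ∈ (univ.filter fun x : Fin (2 ^ (b + 1)) → F => x ∈ X0 g b), (q * q + 2 * q) := by
          refine card_biUnion_le.trans (sum_le_sum fun x hx => ?_)
          refine card_image_le.trans ?_
          apply bad_card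
          refine (QQ_card b m e T _).trans (hT (x, 1) ?_)
          rw [P0, mem_product, mem_Ico]
          refine ⟨hx, le_refl _, ?_⟩
          exact Nat.one_lt_two_pow (by omega)
      _ = _ := by rw [sum_const, smul_eq_mul]

end couple

end Pool.Agent.TH712.SM
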