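import Pool.Agent.TH712.SM.Lower2

/-!
# The lower bound for testers
-/

set_option autoImplicit false
set_option linter.unusedSectionVars false
set_option linter.unusedSimpArgs false
open Finset MeasureTheory

noncomputable section

namespace Pool.Agent.TH712.SM

section avg

/-- expected number of accepted instances -/
theorem integral_count {Ω P : Type} [MeasurableSpace Ω] (μ : Measure Ω) [IsProbabilityMeasure μ]
    (s : Finset P) (acc : Ω → P → Prop) [∀ ω, DecidablePred (acc ω)] (hm : ∀ p ∈ s, MeasurableSet {ω | acc ω p}) :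
    Integrable (fun ω => ((s.filter fun p => acc ω p).card : ℝ)) μ ∧
    ∫ ω, ((s.filter fun p => acc ω p).card : ℝ) ∂μ = ∑ p ∈ s, μ.real {ω | acc ω p} := by
  have e : (fun ω => ((s.filter fun p => acc ω p).card : ℝ)) =
      fun ω => ∑ p ∈ s, ({ω | acc ω p} : Set Ω).indicator (fun _ => (1 : ℝ)) ω := by
    funext ω
    rw [card_filter]
    push_cast
    refine sum_congr rfl fun p _ => ?_
    by_cases h : acc ω p
    · rw [if_pos h, Set.indicator_of_mem (by exact h)]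
    · rw [if_neg h, Set.indicator_of_notMem (by exact h)]
  have hi : ∀ p ∈ s, Integrable (({ω | acc ω p} : Set Ω).indicator (fun _ => (1 : ℝ))) μ := by
    intro p hp
    exact (integrable_const (1 : ℝ)).indicator (hm p hp)
  rw [e]
  refine ⟨integrable_finsetSum s hi, ?_⟩
  rw [integral_finsetSum s hi]
  refine sum_congr rfl fun p hp => ?_
  rw [integral_indicator_const (1 : ℝ) (hm p hp)]
  simp

end avg

variable {F : Type} [Field F] [Fintype F] [DecidableEq F]

theorem fr_mem {n : ℕ} (g : F) (b m : ℕ) (e : Fin n ≃ II b m) (x : Fin (2 ^ (b + 1)) → F) (l : ℕ)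
    (hl : 1 ≤ l) (hl' : l < 2 ^ (b + 1))
    (hx : ∀ j < 2 ^ b - 1, pre g (ex x) (2 ^ (b + 1)) j = 0) (S : Finset (Fin n)) :
    fr g b m e x l S ∈ RR g b m :=
  ⟨_, ff_mem g b m (ex x) l hl hl' hx (S.map e.toEmbedding), rfl⟩

theorem fr_far {n : ℕ} (g : F) (b m : ℕ) (hm1 : 1 ≤ m) (hm2 : m ≤ 2) (hn : n = 2 * b + 10 + m)
    (e : Fin n ≃ II b m)
    (hinj : ∀ i < 2 ^ (b + 1), ∀ j < 2 ^ (b + 1), g ^ i = g ^ j → i = j)
    (x : Fin (2 ^ (b + 1)) → F) (hx : x ∈ X1 g b) (l : ℕ) :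
    Far (RR g b m) (1 / 64) (fr g b m e x l) := by
  intro f' hR hf'
  have hx0 : ∀ j < 2 ^ b - 1, pre g (ex x) (2 ^ (b + 1)) j = 0 := by
    intro j hj
    rw [hx j (by omega), if_neg (by omega)]
  have hx1 : pre g (ex x) (2 ^ (b + 1)) (2 ^ b - 1) = 1 := by
    rw [hx _ (by have : 0 < 2 ^ b := by positivity
                 omega), if_pos rfl]
  choose h hh1 hh2 using hR
  have hgh : ∀ S, f' S = h S := fun S => (hh2 S).symm
  have h1 := ff_far g b m hm1 hm2 hinj (ex x) l hx0 hx1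
    (fun S : Finset (II b m) => h (S.map e.symm.toEmbedding))
    (sub_of_submod e f' h hgh hf') (fun S => hh1 _)
  have h2 := ndiff_tr e (ff g b m (ex x) l) f' h hgh
  unfold fr
  rw [h2]
  rw [← hn] at h1
  have h3 : ((2 : ℝ) ^ n) ≤ 64 * ((univ.filter fun S : Finset (II b m) =>
      h (S.map e.symm.toEmbedding) ≠ ff g b m (ex x) l S).card : ℝ) := by exact_mod_cast h1
  linarith

/-- **The lower bound** for the concrete ranges -/
theorem lower {n : ℕ} (g : F) (hg : g ≠ 0) (b m : ℕ) (hm1 : 1 ≤ m) (hm2 : m ≤ 2)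
    (hn : n = 2 * b + 10 + m)
    (hinj : ∀ i < 2 ^ (b + 1), ∀ j < 2 ^ (b + 1), g ^ i = g ^ j → i = j)
    (q : ℕ) (ht : IsTester n (RR g b m) (1 / 64) q) : 2 ^ b ≤ 2 * (q + 1) ^ 2 := by
  classical
  by_cases hq : q * q + 3 * q + 1 ≤ 2 ^ b
  swap
  · nlinarith
  obtain ⟨Ω, _, μ, A, hμ, hmeas, hcost, hyes, hno⟩ := ht
  have e : Fin n ≃ II b m :=
    (Fintype.equivFinOfCardEq (by rw [card_II, hn])).symm
  have hD : 0 < 2 ^ b := by positivity
  have hM : 2 ^ (b + 1) = 2 * 2 ^ b := by ring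
  -- validity
  have hX0 : ∀ x ∈ X0 g b, ∀ j < 2 ^ b - 1, pre g (ex x) (2 ^ (b + 1)) j = 0 :=
    fun x hx j hj => hx j (by omega)
  have hX1 : ∀ x ∈ X1 g b, ∀ j < 2 ^ b - 1, pre g (ex x) (2 ^ (b + 1)) j = 0 := by
    intro x hx j hj
    rw [hx j (by omega), if_neg (by omega)]
  have hP0 : ∀ p ∈ P0 g b, p.1 ∈ X0 g b ∧ 1 ≤ p.2 ∧ p.2 < 2 ^ (b + 1) := by
    intro p hp
    rw [P0, mem_product, mem_filter, mem_Ico] at hp
    exact ⟨hp.1.2, hp.2⟩
  have hP1 : ∀ p ∈ P1 g b, p.1 ∈ X1 g b ∧ 1 ≤ p.2 ∧ p.2 < 2 ^ (b + 1) := by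
    intro p hp
    rw [P1, mem_product, mem_filter, mem_Ico] at hp
    exact ⟨hp.1.2, hp.2⟩
  have hv0 : ∀ p ∈ P0 g b, ∀ S, fr g b m e p.1 p.2 S ∈ RR g b m := fun p hp S =>
    fr_mem g b m e p.1 p.2 (hP0 p hp).2.1 (hP0 p hp).2.2 (hX0 _ (hP0 p hp).1) S
  have hv1 : ∀ p ∈ P1 g b, ∀ S, fr g b m e p.1 p.2 S ∈ RR g b m := fun p hp S =>
    fr_mem g b m e p.1 p.2 (hP1 p hp).2.1 (hP1 p hp).2.2 (hX1 _ (hP1 p hp).1) S
  set N0 := (univ.filter fun x : Fin (2 ^ (b + 1)) → F => x ∈ X0 g b).card with hN0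
  -- counting
  have hc : ∀ ω, (((P0 g b).filter fun p => (A ω).run (fr g b m e p.1 p.2) = true).card : ℝ) ≤
      (((P1 g b).filter fun p => (A ω).run (fr g b m e p.1 p.2) = true).card : ℝ) +
        N0 * (q * q + 2 * q) := by
    intro ω
    have := couple g b m e hg hinj q hq (A ω) (fun p hp => hcost _ (hv0 p hp) ω)
    exact_mod_cast this
  obtain ⟨i0, s0⟩ := integral_count μ (P0 g b)
    (fun ω p => (A ω).run (fr g b m e p.1 p.2) = true) (fun p hp => hmeas _ (hv0 p hp))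
  obtain ⟨i1, s1⟩ := integral_count μ (P1 g b)
    (fun ω p => (A ω).run (fr g b m e p.1 p.2) = true) (fun p hp => hmeas _ (hv1 p hp))
  have hint : ∫ ω, (((P0 g b).filter fun p => (A ω).run (fr g b m e p.1 p.2) = true).card : ℝ) ∂μ ≤
      ∫ ω, ((((P1 g b).filter fun p => (A ω).run (fr g b m e p.1 p.2) = true).card : ℝ) +
        N0 * (q * q + 2 * q)) ∂μ :=
    integral_mono i0 (i1.add (integrable_const ((N0 : ℝ) * (q * q + 2 * q)))) (fun ω => hc ω)
  rw [integral_add i1 (integrable_const _), s0] at hint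
  simp only [integral_const, probReal_univ, one_smul, smul_eq_mul, one_mul] at hint
  rw [s1] at hint
  -- yes instances
  have hyes' : (2 / 3 : ℝ) * (P0 g b).card ≤
      ∑ p ∈ P0 g b, μ.real {ω | (A ω).run (fr g b m e p.1 p.2) = true} := by
    calc (2 / 3 : ℝ) * (P0 g b).card = ∑ _p ∈ P0 g b, (2 / 3 : ℝ) := by
          rw [sum_const, nsmul_eq_mul, mul_comm]
      _ ≤ _ := by
          refine sum_le_sum fun p hp => ?_
          exact hyes _ (hv0 p hp) (tr_submod e _ (ff_sub g b m (ex p.1) p.2 (hP0 p hp).1))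
  have hno' : ∑ p ∈ P1 g b, μ.real {ω | (A ω).run (fr g b m e p.1 p.2) = true} ≤
      (1 / 3 : ℝ) * (P1 g b).card := by
    calc _ ≤ ∑ _p ∈ P1 g b, (1 / 3 : ℝ) := by
          refine sum_le_sum fun p hp => ?_
          have h1 := hno _ (hv1 p hp) (fr_far g b m hm1 hm2 hn e hinj p.1 (hP1 p hp).1 p.2)
          have h2 : {ω | (A ω).run (fr g b m e p.1 p.2) = false} =
              {ω | (A ω).run (fr g b m e p.1 p.2) = true}ᶜ := by
            ext ω
            simp
          rw [h2, probReal_compl_eq_one_sub (hmeas _ (hv1 p hp))] at h1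
          linarith
      _ = _ := by rw [sum_const, nsmul_eq_mul, mul_comm]
  -- sizes
  have hshift : ∃ z, ShiftP g (2 ^ (b + 1)) (2 ^ b) ∅ 1 z := by
    apply exists_shift g b hg hinj ∅ (by simp) 0 (by simp) (by omega) 1
      (Nat.one_lt_two_pow (by omega))
    refine ⟨?_, by simp⟩
    unfold wQ
    simp
  obtain ⟨z, hz, _⟩ := hshift
  have hcard : (univ.filter fun x : Fin (2 ^ (b + 1)) → F => x ∈ X1 g b).card ≤ N0 := by
    apply card_le_card_of_injOn (fun x => fun i : Fin (2 ^ (b + 1)) => x i + (- z i))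
    · intro x hx
      rw [mem_coe, mem_filter] at hx ⊢
      refine ⟨mem_univ _, ?_⟩
      intro j hj
      have h1 := pre_ex_add g x (fun i => - z i) (2 ^ (b + 1)) j le_rfl
      rw [h1, hx.2 j hj]
      have h2 : pre g (fun i => - z i) (2 ^ (b + 1)) j = - pre g z (2 ^ (b + 1)) j := by
        unfold pre
        rw [← sum_neg_distrib]
        exact sum_congr rfl fun i _ => by ring
      rw [h2, hz j hj]
      ring
    · intro x _ y _ hxy
      funext i
      have := congrFun hxy i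
      simpa using this
  have hP0c : ((P0 g b).card : ℝ) = N0 * (2 ^ (b + 1) - 1 : ℝ) := by
    unfold P0
    rw [card_product, Nat.card_Ico, ← hN0]
    push_cast [Nat.one_le_two_pow]
    ring
  have hP1c : ((P1 g b).card : ℝ) ≤ N0 * (2 ^ (b + 1) - 1 : ℝ) := by
    rw [← hP0c]
    unfold P0 P1
    rw [card_product, card_product]
    exact_mod_cast Nat.mul_le_mul_right _ hcard
  have hN0pos : (0 : ℝ) < N0 := by
    have : 0 < N0 := by
      rw [hN0, card_pos]
      refine ⟨0, ?_⟩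
      rw [mem_filter]
      refine ⟨mem_univ _, ?_⟩
      intro j _
      unfold pre ex
      refine sum_eq_zero fun i _ => ?_
      split_ifs <;> simp
    exact_mod_cast this
  -- conclusion
  have hfin : (N0 : ℝ) * ((2 ^ (b + 1) - 1) / 3) ≤ N0 * (q * q + 2 * q) := by
    have h1 : (2 / 3 : ℝ) * (N0 * (2 ^ (b + 1) - 1)) ≤
        (1 / 3 : ℝ) * (N0 * (2 ^ (b + 1) - 1)) + N0 * (q * q + 2 * q) := by
      calc (2 / 3 : ℝ) * (N0 * (2 ^ (b + 1) - 1)) = (2 / 3 : ℝ) * (P0 g b).card := by rw [hP0c]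
        _ ≤ _ := hyes'
        _ ≤ _ := hint
        _ ≤ (1 / 3 : ℝ) * (P1 g b).card + N0 * (q * q + 2 * q) := by linarith
        _ ≤ _ := by linarith
    linarith
  have h1 := le_of_mul_le_mul_left hfin hN0pos
  have h2 : ((2 : ℝ) ^ (b + 1)) ≤ 3 * (q * q + 2 * q) + 1 := by linarith
  have h3 : 2 ^ (b + 1) ≤ 3 * (q * q + 2 * q) + 1 := by exact_mod_cast h2
  nlinarith

end Pool.Agent.TH712.SM
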