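import Mathlib

/-!
# Testing submodularity: the model
-/

set_option autoImplicit false
open Finset MeasureTheory

noncomputable section

namespace Pool.Agent.TH712.SM

/-- `f : {0,1}^n → ℝ` (with `{0,1}^n` identified with the subsets of `[n]`) is submodular -/
def Submod {n : ℕ} (f : Finset (Fin n) → ℝ) : Prop :=
  ∀ (S T : Finset (Fin n)) (i : Fin n), S ⊆ T → i ∉ T →
    f (insert i T) - f T ≤ f (insert i S) - f S

/-- the number of points on which two functions differ -/
def ndiff {n : ℕ} (f g : Finset (Fin n) → ℝ) : ℕ :=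
  Nat.card {S : Finset (Fin n) // f S ≠ g S}

/-- `f` is `ε`-far from submodular (for functions with range `R`) -/
def Far {n : ℕ} (R : Set ℝ) (ε : ℝ) (f : Finset (Fin n) → ℝ) : Prop :=
  ∀ g : Finset (Fin n) → ℝ, (∀ S, g S ∈ R) → Submod g → ε * 2 ^ n ≤ ndiff f g

/-- deterministic adaptive algorithms: decision trees whose inner nodes ask for one value `f(S)` and
branch on the real number received -/
inductive DT (n : ℕ) : Type
  | leaf (b : Bool) : DT n
  | ask (S : Finset (Fin n)) (k : ℝ → DT n) : DT n

namespace DT
variable {n : ℕ}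

/-- the output on input `f` -/
def run : DT n → (Finset (Fin n) → ℝ) → Bool
  | leaf b, _ => b
  | ask S k, f => (k (f S)).run f

/-- the number of queries made on input `f` -/
def cost : DT n → (Finset (Fin n) → ℝ) → ℕ
  | leaf _, _ => 0
  | ask S k, f => 1 + (k (f S)).cost f

end DT

/-- there is a tester of cost at most `q` with parameter `ε` for submodularity of functions
`{0,1}^n → R`: a random decision tree (over an arbitrary probability space) that makes at most `q`
queries on every input, accepts every submodular input with probability at least `2/3` and rejects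
every input that is `ε`-far from submodular with probability at least `2/3` -/
def IsTester (n : ℕ) (R : Set ℝ) (ε : ℝ) (q : ℕ) : Prop :=
  ∃ (Ω : Type) (_ : MeasurableSpace Ω) (μ : Measure Ω) (A : Ω → DT n),
    IsProbabilityMeasure μ ∧
    (∀ f : Finset (Fin n) → ℝ, (∀ S, f S ∈ R) → MeasurableSet {ω | (A ω).run f = true}) ∧
    (∀ f : Finset (Fin n) → ℝ, (∀ S, f S ∈ R) → ∀ ω, (A ω).cost f ≤ q) ∧
    (∀ f : Finset (Fin n) → ℝ, (∀ S, f S ∈ R) → Submod f →
      2 / 3 ≤ μ.real {ω | (A ω).run f = true}) ∧
    (∀ f : Finset (Fin n) → ℝ, (∀ S, f S ∈ R) → Far R ε f →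
      2 / 3 ≤ μ.real {ω | (A ω).run f = false})

end Pool.Agent.TH712.SM
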