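import Mathlib

/-!
# A rigidity lemma for set functions satisfying most of the local submodularity inequalities
-/

set_option autoImplicit false
open Finset

namespace Pool.Agent.TH712.SM

variable {I : Type} [DecidableEq I]

/-- local submodularity in all directions `i, j` with `i ∉ N j` -/
def SqCond (N : I → Finset I) (d : Finset I → ℤ) : Prop :=
  ∀ (S : Finset I) (i j : I), i ∉ S → j ∉ S → i ≠ j → i ∉ N j →
    d S + d (insert i (insert j S)) ≤ d (insert i S) + d (insert j S)

theorem SqCond.grad {N : I → Finset I} {d : Finset I → ℤ} (h : SqCond N d) (j : I)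
    (T : Finset I) : ∀ U : Finset I, j ∉ T → j ∉ U → Disjoint T U → (∀ i ∈ U, i ∉ N j) →
      d (insert j (T ∪ U)) - d (T ∪ U) ≤ d (insert j T) - d T := by
  intro U
  induction U using Finset.induction_on with
  | empty => intro _ _ _ _; simp
  | insert i U hi ih =>
    intro hjT hjU hdis hN
    have hjU' : j ∉ U := fun h => hjU (mem_insert_of_mem h)
    have hij : i ≠ j := fun h => hjU (h ▸ mem_insert_self i U)
    have hdis' : Disjoint T U := hdis.mono_right (subset_insert i U)
    have hiT : i ∉ T := fun h' => (Finset.disjoint_left.mp hdis h') (mem_insert_self i U)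
    have h1 := ih hjT hjU' hdis' (fun k hk => hN k (mem_insert_of_mem hk))
    have h2 := h (T ∪ U) i j (by simp [hiT, hi]) (by simp [hjT, hjU']) hij
      (hN i (mem_insert_self i U))
    have e1 : T ∪ insert i U = insert i (T ∪ U) := union_insert i T U
    rw [e1]
    have e2 : insert j (insert i (T ∪ U)) = insert i (insert j (T ∪ U)) := by
      ext x; simp; tauto
    rw [e2]
    linarith

/-- all sets that differ from `X` only inside `{j} ∪ N j`, for some `j`, have value `0` -/
def Typ (N : I → Finset I) (d : Finset I → ℤ) (X : Finset I) : Prop :=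
  ∀ (j : I) (Y : Finset I), (∀ i, i ≠ j → i ∉ N j → (i ∈ X ↔ i ∈ Y)) → d Y = 0

theorem Typ.step {N : I → Finset I} {d : Finset I → ℤ} (h : SqCond N d) {X : Finset I}
    (hX : Typ N d X) {T : Finset I} (hT : T ⊆ X) {j : I} (hj : j ∉ T) :
    d T ≤ d (insert j T) := by
  classical
  set S₁ : Finset I := X.filter (fun i => i ≠ j ∧ (i ∈ N j → i ∈ T)) with hS₁
  have hTS : T ⊆ S₁ := by
    intro i hi
    rw [hS₁, mem_filter]
    exact ⟨hT hi, fun h' => hj (h' ▸ hi), fun _ => hi⟩
  have e : S₁ = T ∪ (S₁ \ T) := by
    rw [union_sdiff_of_subset hTS]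
  have h1 := h.grad j T (S₁ \ T) hj (by simp [hS₁]) disjoint_sdiff (by
    intro i hi hN
    rw [mem_sdiff, hS₁, mem_filter] at hi
    exact hi.2 (hi.1.2.2 hN))
  rw [← e] at h1
  have h2 : d S₁ = 0 := by
    refine hX j S₁ ?_
    intro i hij hN
    rw [hS₁, mem_filter]
    exact ⟨fun h' => ⟨h', hij, fun h'' => absurd h'' hN⟩, fun h' => h'.1⟩
  have h3 : d (insert j S₁) = 0 := by
    refine hX j _ ?_
    intro i hij hN
    rw [mem_insert, hS₁, mem_filter]
    exact ⟨fun h' => Or.inr ⟨h', hij, fun h'' => absurd h'' hN⟩, fun h' => by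
      rcases h' with h' | h'
      · exact absurd h' hij
      · exact h'.1⟩
  rw [h2, h3] at h1
  linarith

theorem Typ.mono {N : I → Finset I} {d : Finset I → ℤ} (h : SqCond N d) {X : Finset I}
    (hX : Typ N d X) {T : Finset I} : ∀ U : Finset I, Disjoint T U → T ∪ U ⊆ X →
    d T ≤ d (T ∪ U) := by
  intro U
  induction U using Finset.induction_on with
  | empty => intro _ _; simp
  | insert i U hi ih =>
    intro hd hX'
    have hd' : Disjoint T U := hd.mono_right (subset_insert i U)
    have hiT : i ∉ T := fun h' => (Finset.disjoint_left.mp hd h') (mem_insert_self i U)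
    have e1 : T ∪ insert i U = insert i (T ∪ U) := union_insert i T U
    rw [e1] at hX' ⊢
    have hs : T ∪ U ⊆ X := (subset_insert _ _).trans hX'
    refine (ih hd' hs).trans (hX.step h hs ?_)
    simp [hiT, hi]

theorem Typ.zero {N : I → Finset I} {d : Finset I → ℤ} (h : SqCond N d) [Nonempty I]
    {X : Finset I} (hX : Typ N d X) (h0 : 0 ≤ d ∅) {T : Finset I} (hT : T ⊆ X) : d T = 0 := by
  have h1 : d ∅ ≤ d (∅ ∪ T) := hX.mono h T (disjoint_empty_left T) (by simpa using hT)
  have h2 : d T ≤ d (T ∪ (X \ T)) := hX.mono h (X \ T) disjoint_sdiff (by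
    rw [union_sdiff_of_subset hT])
  rw [union_sdiff_of_subset hT] at h2
  rw [empty_union] at h1
  have h3 : d X = 0 := hX (Classical.arbitrary I) X (fun _ _ _ => Iff.rfl)
  linarith

variable [Fintype I]

/-- complementing a function satisfying the local conditions -/
theorem SqCond.compl {N : I → Finset I} {d : Finset I → ℤ} (h : SqCond N d) :
    SqCond N (fun S => d Sᶜ) := by
  intro S i j hi hj hij hN
  have hi' : i ∉ (insert i (insert j S))ᶜ := by simp
  have hj' : j ∉ (insert i (insert j S))ᶜ := by simp
  have := h (insert i (insert j S))ᶜ i j hi' hj' hij hN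
  have e1 : insert i (insert j (insert i (insert j S))ᶜ) = Sᶜ := by
    ext x
    simp only [mem_insert, mem_compl]
    constructor
    · rintro (rfl | rfl | h')
      · exact hi
      · exact hj
      · tauto
    · intro h'
      tauto
  have e2 : insert i (insert i (insert j S))ᶜ = (insert j S)ᶜ := by
    ext x
    simp only [mem_insert, mem_compl]
    constructor
    · rintro (rfl | h')
      · tauto
      · tauto
    · intro h'
      tauto
  have e3 : insert j (insert i (insert j S))ᶜ = (insert i S)ᶜ := by
    ext x
    simp only [mem_insert, mem_compl]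
    constructor
    · rintro (rfl | h')
      · rintro (h'' | h'')
        · exact hij h''.symm
        · exact hj h''
      · tauto
    · intro h'
      tauto
  rw [e1, e2, e3] at this
  simp only
  linarith

theorem Typ.compl {N : I → Finset I} {d : Finset I → ℤ} {X : Finset I}
    (hX : Typ N d X) : Typ N (fun S => d Sᶜ) Xᶜ := by
  intro j Y hY
  refine hX j Yᶜ ?_
  intro i hij hN
  have := hY i hij hN
  simp only [mem_compl] at this ⊢
  tauto

theorem Typ.zero' {N : I → Finset I} {d : Finset I → ℤ} (h : SqCond N d) [Nonempty I]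
    {X : Finset I} (hX : Typ N d X) (h1 : 0 ≤ d univ) {T : Finset I} (hT : X ⊆ T) : d T = 0 := by
  have := hX.compl.zero h.compl (by simpa using h1) (T := Tᶜ) (by
    intro x hx
    rw [mem_compl] at hx ⊢
    exact fun h' => hx (hT h'))
  simpa using this

/-- **Rigidity.** If `d` satisfies the local submodularity inequalities in all directions `i, j`
with `i ∉ N j`, where `|N j| ≤ 2`, and is nonnegative at the empty set and at the full set, then
`d = 0` or `d` is nonzero on at least a `1/(64 n²)` fraction of the sets. -/
theorem rigid {N : I → Finset I} {d : Finset I → ℤ} (h : SqCond N d) [Nonempty I]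
    (hN : ∀ j, (N j).card ≤ 2) (h0 : 0 ≤ d ∅) (h1 : 0 ≤ d univ)
    (hsm : 64 * (Fintype.card I) ^ 2 * (univ.filter fun S => d S ≠ 0).card <
      2 ^ Fintype.card I) : ∀ S, d S = 0 := by
  classical
  set n := Fintype.card I with hn
  set D : Finset (Finset I) := univ.filter fun S => d S ≠ 0 with hD
  set Up : Finset (Finset I) := univ.filter fun S => ∀ X, S ⊆ X → ¬ Typ N d X with hUp
  set Lo : Finset (Finset I) := univ.filter fun S => ∀ X, X ⊆ S → ¬ Typ N d X with hLo
  set B : Finset (Finset I) := univ.filter fun X => ¬ Typ N d X with hB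
  have hBcard : B.card ≤ 8 * n * D.card := by
    have hsub : B ⊆ D.biUnion fun Y => univ.biUnion fun j : I =>
        (insert j (N j)).powerset.image fun E => symmDiff Y E := by
      intro X hX
      rw [hB, mem_filter] at hX
      have hX2 := hX.2
      unfold Typ at hX2
      push Not at hX2
      obtain ⟨j, Y, hY, hdY⟩ := hX2
      rw [mem_biUnion]
      refine ⟨Y, by rw [hD, mem_filter]; exact ⟨mem_univ _, hdY⟩, ?_⟩
      rw [mem_biUnion]
      refine ⟨j, mem_univ _, ?_⟩
      rw [mem_image]
      refine ⟨symmDiff Y X, ?_, ?_⟩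
      · rw [mem_powerset]
        intro i hi
        rw [mem_symmDiff] at hi
        rw [mem_insert]
        by_contra hcon
        push Not at hcon
        have := hY i hcon.1 hcon.2
        tauto
      · rw [symmDiff_symmDiff_cancel_left]
    calc B.card ≤ _ := card_le_card hsub
      _ ≤ ∑ _Y ∈ D, 8 * n := by
          refine card_biUnion_le.trans (sum_le_sum fun Y _ => ?_)
          calc _ ≤ ∑ j : I, 8 := by
                refine card_biUnion_le.trans (sum_le_sum fun j _ => ?_)
                refine card_image_le.trans ?_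
                rw [card_powerset]
                calc 2 ^ (insert j (N j)).card ≤ 2 ^ 3 :=
                      Nat.pow_le_pow_right (by norm_num)
                        ((card_insert_le _ _).trans (by have := hN j; omega))
                  _ = 8 := by norm_num
            _ = 8 * n := by rw [sum_const, card_univ, smul_eq_mul, hn, mul_comm]
      _ = 8 * n * D.card := by rw [sum_const, smul_eq_mul, mul_comm]
  have hUpB : Up.card ≤ 8 * n * D.card := by
    refine (card_le_card ?_).trans hBcard
    intro S hS
    rw [hUp, mem_filter] at hS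
    rw [hB, mem_filter]
    exact ⟨mem_univ _, hS.2 S (Subset.refl S)⟩
  have hLoB : Lo.card ≤ 8 * n * D.card := by
    refine (card_le_card ?_).trans hBcard
    intro S hS
    rw [hLo, mem_filter] at hS
    rw [hB, mem_filter]
    exact ⟨mem_univ _, hS.2 S (Subset.refl S)⟩
  have hDsub : D ⊆ Up ∩ Lo := by
    intro S hS
    rw [hD, mem_filter] at hS
    rw [mem_inter, hUp, hLo, mem_filter, mem_filter]
    refine ⟨⟨mem_univ _, fun X hX ht => hS.2 (ht.zero h h0 hX)⟩,
      ⟨mem_univ _, fun X hX ht => hS.2 (ht.zero' h h1 hX)⟩⟩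
  have hHK : 2 ^ n * (Up ∩ Lo).card ≤ Up.card * Lo.card := by
    apply IsUpperSet.card_inter_le_finset
    · intro S T hST hS
      simp only [hUp, coe_filter, mem_univ, true_and, Set.mem_ofPred_eq] at hS ⊢
      exact fun X hX => hS X (le_trans hST hX)
    · intro S T hST hS
      simp only [hLo, coe_filter, mem_univ, true_and, Set.mem_ofPred_eq] at hS ⊢
      exact fun X hX => hS X (le_trans hX hST)
  have hD0 : D.card = 0 := by
    by_contra hne
    have hpos : 0 < D.card := Nat.pos_of_ne_zero hne
    have h2 : 2 ^ n * D.card ≤ (8 * n * D.card) * (8 * n * D.card) :=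
      (Nat.mul_le_mul_left _ (card_le_card hDsub)).trans
        (hHK.trans (Nat.mul_le_mul hUpB hLoB))
    have h3 : 2 ^ n * D.card ≤ (64 * n ^ 2 * D.card) * D.card := by
      calc _ ≤ _ := h2
        _ = _ := by ring
    have h4 := Nat.le_of_mul_le_mul_right h3 hpos
    omega
  intro S
  by_contra hS
  have : S ∈ D := by rw [hD, mem_filter]; exact ⟨mem_univ _, hS⟩
  rw [card_eq_zero] at hD0
  rw [hD0] at this
  exact absurd this (notMem_empty S)

end Pool.Agent.TH712.SM
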