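import Pool.Agent.TH712.SM.Final

/-!
# One range for all dimensions, the trivial tester, and polynomials
-/

set_option autoImplicit false
set_option linter.unusedSectionVars false
set_option linter.unusedSimpArgs false
open Finset MeasureTheory

noncomputable section

namespace Pool.Agent.TH712.SM

section four
variable {n : ℕ}

/-- gradients are monotone for several added elements -/
theorem Submod.grad {g : Finset (Fin n) → ℝ} (h : Submod g) {S T : Finset (Fin n)} (hST : S ⊆ T) :
    ∀ U : Finset (Fin n), Disjoint T U → g (T ∪ U) - g T ≤ g (S ∪ U) - g S := by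
  intro U
  induction U using Finset.induction_on with
  | empty => intro _; simp
  | insert i U hi ih =>
    intro hd
    have h1 := ih (hd.mono_right (subset_insert i U))
    have hiT : i ∉ T := fun h' => (Finset.disjoint_left.mp hd h') (mem_insert_self i U)
    have h2 := h (S ∪ U) (T ∪ U) i (union_subset_union_left hST) (by simp [hiT, hi])
    rw [union_insert, union_insert]
    linarith

/-- submodularity for two sets -/
theorem Submod.union_inter {g : Finset (Fin n) → ℝ} (h : Submod g) (A B : Finset (Fin n)) :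
    g (A ∪ B) + g (A ∩ B) ≤ g A + g B := by
  have h1 := h.grad (inter_subset_right : A ∩ B ⊆ B) (A \ B) disjoint_sdiff
  have e1 : B ∪ A \ B = A ∪ B := by ext x; simp; tauto
  have e2 : A ∩ B ∪ A \ B = A := by ext x; simp; tauto
  rw [e1, e2] at h1
  linarith

open scoped Classical in
/-- a nonnegative submodular function that is at most `U` outside fewer than a quarter of the sets
is at most `4 U` everywhere -/
theorem Submod.bound {g : Finset (Fin n) → ℝ} (h : Submod g) (h0 : ∀ S, 0 ≤ g S) (U : ℝ)
    (hB : 4 * (univ.filter fun S => U < g S).card < 2 ^ n) (S : Finset (Fin n)) :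
    g S ≤ 4 * U := by
  set B : Finset (Finset (Fin n)) := univ.filter fun S => U < g S with hBdef
  have hex : ∃ R : Finset (Fin n), R ∉ B ∧ symmDiff R S ∉ B ∧ symmDiff R Sᶜ ∉ B ∧
      symmDiff R univ ∉ B := by
    by_contra hcon
    push Not at hcon
    have hsub : (univ : Finset (Finset (Fin n))) ⊆
        B ∪ (B.image fun R => symmDiff R S) ∪ (B.image fun R => symmDiff R Sᶜ) ∪
          (B.image fun R => symmDiff R univ) := by
      intro R _
      have hin : ∀ X : Finset (Fin n), symmDiff R X ∈ B → R ∈ B.image fun R => symmDiff R X := by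
        intro X hX
        rw [mem_image]
        exact ⟨_, hX, by rw [symmDiff_symmDiff_cancel_right]⟩
      by_cases h1 : R ∈ B
      · simp [h1]
      by_cases h2 : symmDiff R S ∈ B
      · exact mem_union_left _ (mem_union_left _ (mem_union_right _ (hin S h2)))
      by_cases h3 : symmDiff R Sᶜ ∈ B
      · exact mem_union_left _ (mem_union_right _ (hin Sᶜ h3))
      · exact mem_union_right _ (hin univ (hcon R h1 h2 h3))
    have h1 := card_le_card hsub
    rw [card_univ, Fintype.card_finset, Fintype.card_fin] at h1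
    have h2 := card_union_le (B ∪ (B.image fun R => symmDiff R S) ∪
      (B.image fun R => symmDiff R Sᶜ)) (B.image fun R => symmDiff R univ)
    have h3 := card_union_le (B ∪ (B.image fun R => symmDiff R S))
      (B.image fun R => symmDiff R Sᶜ)
    have h4 := card_union_le B (B.image fun R => symmDiff R S)
    have h5 : (B.image fun R => symmDiff R S).card ≤ B.card := card_image_le
    have h6 : (B.image fun R => symmDiff R Sᶜ).card ≤ B.card := card_image_le
    have h7 : (B.image fun R => symmDiff R univ).card ≤ B.card := card_image_le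
    omega
  obtain ⟨R, h1, h2, h3, h4⟩ := hex
  rw [hBdef, mem_filter] at h1 h2 h3 h4
  simp only [mem_univ, true_and, not_lt] at h1 h2 h3 h4
  have a1 := h.union_inter R (symmDiff R S)
  have a2 := h.union_inter (symmDiff R Sᶜ) (symmDiff R univ)
  have a3 := h.union_inter (R ∪ symmDiff R S) (symmDiff R Sᶜ ∪ symmDiff R univ)
  have e : (R ∪ symmDiff R S) ∩ (symmDiff R Sᶜ ∪ symmDiff R univ) = S := by
    ext x
    simp only [mem_inter, mem_union, mem_symmDiff, mem_compl, mem_univ, not_true_eq_false,
      and_false, true_and, false_or]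
    tauto
  rw [e] at a3
  have b1 := h0 (R ∩ symmDiff R S)
  have b2 := h0 (symmDiff R Sᶜ ∩ symmDiff R univ)
  have b3 := h0 ((R ∪ symmDiff R S) ∪ (symmDiff R Sᶜ ∪ symmDiff R univ))
  linarith

end four

/-! ### scaling of decision trees -/

namespace DT
variable {n : ℕ}

/-- the tree that multiplies every answer by `c` -/
def smap (c : ℝ) : DT n → DT n
  | leaf b => leaf b
  | ask S k => ask S (fun r => (k (c * r)).smap c)

theorem run_smap (c : ℝ) (T : DT n) (f : Finset (Fin n) → ℝ) :
    (T.smap c).run f = T.run (fun S => c * f S) := by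
  induction T with
  | leaf b => rfl
  | ask S k ih => simp only [smap, run]; exact ih _

theorem cost_smap (c : ℝ) (T : DT n) (f : Finset (Fin n) → ℝ) :
    (T.smap c).cost f = T.cost (fun S => c * f S) := by
  induction T with
  | leaf b => rfl
  | ask S k ih => simp only [smap, cost]; rw [ih]

end DT

/-! ### the union of scaled ranges -/

/-- the scale of dimension `n` -/
def sc (n : ℕ) : ℝ := 2 ^ (7 * n ^ 2)

theorem sc_pos (n : ℕ) : 0 < sc n := by unfold sc; positivity

theorem sc_gap {m n : ℕ} (h : m < n) : 4 * (sc m * 2 ^ (7 * m)) < sc n := by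
  unfold sc
  calc (4 : ℝ) * (2 ^ (7 * m ^ 2) * 2 ^ (7 * m)) = 2 ^ (2 + (7 * m ^ 2 + 7 * m)) := by
        rw [pow_add, pow_add]; norm_num
    _ < 2 ^ (7 * n ^ 2) := by
        apply pow_lt_pow_right₀ (by norm_num)
        have h1 : (m + 1) ^ 2 ≤ n ^ 2 := Nat.pow_le_pow_left h 2
        nlinarith

/-- the union of the scaled ranges -/
def UR (R : ℕ → Set ℝ) : Set ℝ := {x | ∃ n, 12 ≤ n ∧ ∃ r ∈ R n, x = sc n * r}

theorem far_scale (R : ℕ → Set ℝ) (hR0 : ∀ n, 12 ≤ n → (0 : ℝ) ∈ R n)
    (hRk : ∀ n, 12 ≤ n → ∀ r ∈ R n, ∃ k : ℕ, k ≤ 2 ^ (7 * n) ∧ r = k)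
    {n : ℕ} (hn : 12 ≤ n) {ε : ℝ} (hε : ε ≤ 1 / 64) (f : Finset (Fin n) → ℝ)
    (hf : ∀ S, f S ∈ R n) (hfar : Far (R n) ε f) : Far (UR R) ε (fun S => sc n * f S) := by
  classical
  intro g hg hsub
  by_contra hcon
  push Not at hcon
  choose m hm r hr hgr using hg
  choose k hk hrk using fun S => hRk (m S) (hm S) (r S) (hr S)
  choose kf hkf hfk using fun S => hRk n hn (f S) (hf S)
  have hc := sc_pos n
  have hg0 : ∀ S, 0 ≤ g S := by
    intro S
    rw [hgr, hrk]
    have := sc_pos (m S)
    positivity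
  have hnd : (ndiff (fun S => sc n * f S) g : ℝ) =
      ((univ.filter fun S => sc n * f S ≠ g S).card : ℝ) := by
    unfold ndiff
    rw [Nat.card_eq_fintype_card, Fintype.card_subtype]
  have hfU : ∀ S, sc n * f S ≤ sc n * 2 ^ (7 * n) := by
    intro S
    apply mul_le_mul_of_nonneg_left _ hc.le
    rw [hfk]
    exact_mod_cast hkf S
  -- upper bound for `g`
  have hB : 4 * (univ.filter fun S => sc n * 2 ^ (7 * n) < g S).card < 2 ^ n := by
    have h1 : (univ.filter fun S => sc n * 2 ^ (7 * n) < g S).card ≤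
        (univ.filter fun S => sc n * f S ≠ g S).card := by
      apply card_le_card
      intro S hS
      rw [mem_filter] at hS ⊢
      refine ⟨mem_univ _, fun h => ?_⟩
      have := hfU S
      rw [h] at this
      exact absurd hS.2 (not_lt.mpr this)
    have h2 : (4 : ℝ) * ((univ.filter fun S => sc n * 2 ^ (7 * n) < g S).card : ℝ) < 2 ^ n := by
      have h3 : ((univ.filter fun S => sc n * 2 ^ (7 * n) < g S).card : ℝ) ≤
        ((univ.filter fun S => sc n * f S ≠ g S).card : ℝ) := by exact_mod_cast h1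
      rw [hnd] at hcon
      have h4 : ε * 2 ^ n ≤ 1 / 64 * 2 ^ n := mul_le_mul_of_nonneg_right hε (by positivity)
      have h5 : (0 : ℝ) < 2 ^ n := by positivity
      linarith
    exact_mod_cast h2
  have hgU := hsub.bound hg0 _ hB
  -- the rounded function
  set hN : Finset (Fin n) → ℕ := fun S => if m S = n then k S else 0 with hhN
  have hmem : ∀ S, (hN S : ℝ) ∈ R n := by
    intro S
    by_cases h : m S = n
    · have h1 : (hN S : ℝ) = r S := by rw [hhN]; simp only [if_pos h]; exact (hrk S).symm
      rw [h1]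
      have := hr S
      rwa [h] at this
    · have h1 : (hN S : ℝ) = 0 := by rw [hhN]; simp only [if_neg h, Nat.cast_zero]
      rw [h1]
      exact hR0 n hn
  have hδ : ∀ S, sc n * hN S ≤ g S ∧ g S ≤ sc n * hN S + sc n / 4 := by
    intro S
    rcases lt_trichotomy (m S) n with h | h | h
    · have h1 : (hN S : ℝ) = 0 := by
        rw [hhN]; simp only [if_neg h.ne, Nat.cast_zero]
      rw [h1, mul_zero, zero_add]
      refine ⟨hg0 S, ?_⟩
      have h2 := sc_gap h
      have h3 : (k S : ℝ) ≤ 2 ^ (7 * m S) := by exact_mod_cast hk S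
      have h4 := mul_le_mul_of_nonneg_left h3 (sc_pos (m S)).le
      rw [hgr, hrk]
      linarith
    · have h1 : sc n * (hN S : ℝ) = g S := by
        rw [hhN]
        simp only [if_pos h]
        rw [hgr, hrk, h]
      rw [h1]
      exact ⟨le_rfl, by linarith⟩
    · have h1 : (hN S : ℝ) = 0 := by
        rw [hhN]; simp only [if_neg h.ne', Nat.cast_zero]
      rw [h1, mul_zero, zero_add]
      refine ⟨hg0 S, ?_⟩
      have h2 := sc_gap h
      have h3 := hgU S
      have h4 : k S = 0 := by
        by_contra hk0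
        have h5 : (1 : ℝ) ≤ k S := by exact_mod_cast Nat.pos_of_ne_zero hk0
        have h6 := mul_le_mul_of_nonneg_left h5 (sc_pos (m S)).le
        rw [hgr, hrk] at h3
        linarith
      rw [hgr, hrk, h4]
      simp only [Nat.cast_zero, mul_zero]
      linarith
  have hsub' : Submod (fun S => (hN S : ℝ)) := by
    intro S T i hST hi
    have h1 := hsub S T i hST hi
    have a1 := hδ (insert i T)
    have a2 := hδ T
    have a3 := hδ (insert i S)
    have a4 := hδ S
    have h2 : sc n * ((hN (insert i T) : ℝ) + hN S - hN (insert i S) - hN T) < sc n * 1 := by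
      linarith
    have h3 := lt_of_mul_lt_mul_left h2 hc.le
    have h4 : (hN (insert i T) : ℝ) + hN S < hN (insert i S) + hN T + 1 := by linarith
    have h5 : hN (insert i T) + hN S < hN (insert i S) + hN T + 1 := by exact_mod_cast h4
    have h6 : hN (insert i T) + hN S ≤ hN (insert i S) + hN T := by omega
    have h7 : (hN (insert i T) : ℝ) + hN S ≤ hN (insert i S) + hN T := by exact_mod_cast h6
    simp only
    linarith
  have h1 := hfar (fun S => (hN S : ℝ)) hmem hsub'
  have h2 : ndiff f (fun S => (hN S : ℝ)) ≤ ndiff (fun S => sc n * f S) g := by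
    unfold ndiff
    rw [Nat.card_eq_fintype_card, Fintype.card_subtype, Nat.card_eq_fintype_card,
      Fintype.card_subtype]
    apply card_le_card
    intro S hS
    rw [mem_filter] at hS ⊢
    refine ⟨mem_univ _, fun h => hS.2 ?_⟩
    simp only at h
    have a1 := hδ S
    rw [← h, hfk] at a1
    have b1 : sc n * (hN S : ℝ) ≤ sc n * kf S := a1.1
    have b2 : sc n * (kf S : ℝ) < sc n * (hN S + 1) := by linarith [a1.2]
    have b3 := le_of_mul_le_mul_left b1 hc
    have b4 := lt_of_mul_lt_mul_left b2 hc.le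
    have b5 : hN S ≤ kf S := by exact_mod_cast b3
    have b6 : kf S < hN S + 1 := by exact_mod_cast b4
    rw [hfk]
    have b7 : kf S = hN S := by omega
    rw [b7]
  have h3 : (ndiff f (fun S => (hN S : ℝ)) : ℝ) ≤ ndiff (fun S => sc n * f S) g := by
    exact_mod_cast h2
  linarith

/-- a tester for a part of the union of the scaled ranges that contains one of them gives a tester
for that one -/
theorem IsTester.scale (R : ℕ → Set ℝ) (hR0 : ∀ n, 12 ≤ n → (0 : ℝ) ∈ R n)
    (hRk : ∀ n, 12 ≤ n → ∀ r ∈ R n, ∃ k : ℕ, k ≤ 2 ^ (7 * n) ∧ r = k)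
    {n : ℕ} (hn : 12 ≤ n) {ε : ℝ} (hε : ε ≤ 1 / 64) {q : ℕ} {R' : Set ℝ}
    (hin : ∀ r ∈ R n, sc n * r ∈ R') (hsub : R' ⊆ UR R) (h : IsTester n R' ε q) :
    IsTester n (R n) ε q := by
  obtain ⟨Ω, mΩ, μ, A, hμ, h1, h2, h3, h4⟩ := h
  have hmem : ∀ f : Finset (Fin n) → ℝ, (∀ S, f S ∈ R n) → ∀ S, sc n * f S ∈ R' :=
    fun f hf S => hin _ (hf S)
  refine ⟨Ω, mΩ, μ, fun ω => (A ω).smap (sc n), hμ, ?_, ?_, ?_, ?_⟩
  · intro f hf
    simp only [DT.run_smap]
    exact h1 _ (hmem f hf)
  · intro f hf ω
    rw [DT.cost_smap]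
    exact h2 _ (hmem f hf) ω
  · intro f hf hs
    simp only [DT.run_smap]
    apply h3 _ (hmem f hf)
    intro S T i hST hi
    have := mul_le_mul_of_nonneg_left (hs S T i hST hi) (sc_pos n).le
    simp only
    linarith
  · intro f hf hs
    simp only [DT.run_smap]
    refine h4 _ (hmem f hf) fun g hg hg' => ?_
    exact far_scale R hR0 hRk hn hε f hf hs g (fun S => hsub (hg S)) hg'

/-- **One range for all dimensions.** -/
theorem exp_lower_one : ∃ R : Set ℝ, (∀ r ∈ R, ∃ k : ℕ, r = k) ∧
    ∀ n : ℕ, 12 ≤ n → ∃ R₀ : Set ℝ, R₀ ⊆ R ∧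
      (∃ c : ℕ, 0 < c ∧ ∀ r ∈ R₀, ∃ k : ℕ, k ≤ 2 ^ (7 * n) ∧ r = c * k) ∧
      ∀ R' : Set ℝ, R₀ ⊆ R' → R' ⊆ R → ∀ (ε : ℝ) (q : ℕ), ε ≤ 1 / 64 → IsTester n R' ε q →
        2 ^ n ≤ (12 * (q + 1)) ^ 4 := by
  choose! R hR0 hRk hRl using exp_lower
  refine ⟨UR R, ?_, ?_⟩
  · rintro x ⟨n, hn, r, hr, rfl⟩
    obtain ⟨k, _, hk⟩ := hRk n hn r hr
    refine ⟨2 ^ (7 * n ^ 2) * k, ?_⟩
    rw [hk]
    unfold sc
    push_cast
    rfl
  · intro n hn
    refine ⟨(fun r => sc n * r) '' R n, ?_, ⟨2 ^ (7 * n ^ 2), by positivity, ?_⟩, ?_⟩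
    · rintro x ⟨r, hr, rfl⟩
      exact ⟨n, hn, r, hr, rfl⟩
    · rintro x ⟨r, hr, rfl⟩
      obtain ⟨k, hk, hrk⟩ := hRk n hn r hr
      refine ⟨k, hk, ?_⟩
      simp only
      rw [hrk]
      unfold sc
      push_cast
      rfl
    · intro R' h1 h2 ε q hε ht
      exact hRl n hn ε q hε (ht.scale R hR0 hRk hn hε (fun r hr => h1 ⟨r, hr, rfl⟩) h2)

/-! ### the trivial tester -/

section trivial
variable {n : ℕ}

open scoped Classical in
/-- query all points of a list and then decide -/
def allQ (l : List (Finset (Fin n))) (acc : Finset (Fin n) → ℝ) : DT n :=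
  match l with
  | [] => DT.leaf (decide (Submod acc))
  | S :: l => DT.ask S (fun r => allQ l (Function.update acc S r))

theorem allQ_cost (l : List (Finset (Fin n))) (acc f : Finset (Fin n) → ℝ) :
    (allQ l acc).cost f = l.length := by
  induction l generalizing acc with
  | nil => rfl
  | cons S l ih =>
    simp only [allQ, DT.cost, List.length_cons]
    rw [ih]
    omega

open scoped Classical in
theorem allQ_run (l : List (Finset (Fin n))) (acc f : Finset (Fin n) → ℝ)
    (h : ∀ S, S ∉ l → acc S = f S) : (allQ l acc).run f = decide (Submod f) := by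
  induction l generalizing acc with
  | nil =>
    have : acc = f := funext fun S => h S (by simp)
    simp only [allQ, DT.run]
    rw [this]
  | cons S l ih =>
    simp only [allQ, DT.run]
    apply ih
    intro T hT
    by_cases hTS : T = S
    · subst hTS
      simp
    · rw [Function.update_of_ne hTS]
      apply h
      simp [hTS, hT]

/-- **The trivial tester** reads the whole input. -/
theorem trivial_tester (R : Set ℝ) (ε : ℝ) (hε : 0 < ε) : IsTester n R ε (2 ^ n) := by
  classical
  have hrun : ∀ f : Finset (Fin n) → ℝ,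
      (allQ (univ : Finset (Finset (Fin n))).toList 0).run f = decide (Submod f) := by
    intro f
    apply allQ_run
    intro S hS
    exact absurd (mem_toList.mpr (mem_univ S)) hS
  refine ⟨Unit, inferInstance, Measure.dirac (), fun _ => allQ (univ : Finset (Finset (Fin n))).toList 0,
    inferInstance, ?_, ?_, ?_, ?_⟩
  · intro f _
    exact MeasurableSet.of_discrete
  · intro f _ _
    rw [allQ_cost, length_toList, card_univ, Fintype.card_finset, Fintype.card_fin]
  · intro f _ hs
    have e : {ω : Unit | (allQ (univ : Finset (Finset (Fin n))).toList 0).run f = true} =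
        Set.univ := by
      ext ω
      simp [hrun, hs]
    rw [e, probReal_univ]
    norm_num
  · intro f hf hfar
    have hns : ¬ Submod f := by
      intro hs
      have h1 := hfar f hf hs
      have h2 : ndiff f f = 0 := by
        unfold ndiff
        simp
      rw [h2] at h1
      have h3 : (0 : ℝ) < ε * 2 ^ n := by positivity
      simp only [Nat.cast_zero] at h1
      linarith
    have e : {ω : Unit | (allQ (univ : Finset (Finset (Fin n))).toList 0).run f = false} =
        Set.univ := by
      ext ω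
      simp [hrun, hns]
    rw [e, probReal_univ]
    norm_num

end trivial

/-! ### polynomials -/

/-- exponential growth beats polynomials -/
theorem poly_lt_exp (p : Polynomial ℝ) : ∃ n : ℕ, 12 ≤ n ∧
    ∀ q : ℕ, 2 ^ n ≤ (12 * (q + 1)) ^ 4 → p.eval ((n : ℝ) / (1 / 64)) < q := by
  set P : Polynomial ℝ := (12 * (p.comp (64 * Polynomial.X) + 1)) ^ 4 with hP
  have hlim := Polynomial.tendsto_div_exp_atTop (P.comp (2 * Polynomial.X))
  have hev := (hlim.eventually (gt_mem_nhds (show (0 : ℝ) < 1 by norm_num)))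
  -- along `x = n / 2`
  have hhalf : Filter.Tendsto (fun n : ℕ => (n : ℝ) / 2) Filter.atTop Filter.atTop :=
    (tendsto_natCast_atTop_atTop).atTop_div_const (by norm_num)
  obtain ⟨n, hn1, hn2⟩ := ((hhalf.eventually hev).and (Filter.eventually_ge_atTop 12)).exists
  refine ⟨n, hn2, ?_⟩
  intro q hq
  by_contra hcon
  push Not at hcon
  have hn' : ((n : ℝ) / (1 / 64)) = 64 * n := by ring
  rw [hn'] at hcon
  have he : (Real.exp ((n : ℝ) / 2)) ≤ 2 ^ n := by
    have h2 : Real.exp (1 / 2) ≤ 2 := by
      have h3 : Real.exp (1 / 2) ^ 2 ≤ 2 ^ 2 := by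
        rw [← Real.exp_nat_mul]
        norm_num
        exact (Real.exp_one_lt_d9.trans (by norm_num)).le
      exact le_of_sq_le_sq h3 (by norm_num)
    calc Real.exp ((n : ℝ) / 2) = Real.exp (1 / 2) ^ n := by
          rw [← Real.exp_nat_mul]; congr 1; ring
      _ ≤ 2 ^ n := pow_le_pow_left₀ (Real.exp_pos _).le h2 n
  have h1 : (P.comp (2 * Polynomial.X)).eval ((n : ℝ) / 2) < Real.exp ((n : ℝ) / 2) := by
    have := hn1
    rw [div_lt_one (Real.exp_pos _)] at this
    exact this
  have h2 : (P.comp (2 * Polynomial.X)).eval ((n : ℝ) / 2) =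
      (12 * (p.eval (64 * (n : ℝ)) + 1)) ^ 4 := by
    rw [hP]
    simp only [Polynomial.eval_comp, Polynomial.eval_pow, Polynomial.eval_mul,
      Polynomial.eval_add, Polynomial.eval_one, Polynomial.eval_X, Polynomial.eval_ofNat]
    congr 4
    ring
  have h3 : ((2 : ℝ) ^ n) ≤ (12 * ((q : ℝ) + 1)) ^ 4 := by exact_mod_cast hq
  have h4 : (12 * ((q : ℝ) + 1)) ^ 4 ≤ (12 * (p.eval (64 * (n : ℝ)) + 1)) ^ 4 := by
    apply pow_le_pow_left₀ (by positivity)
    linarith
  linarith

end Pool.Agent.TH712.SM
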